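import Mathlib
import Pool.Agent.Y144.MT.Core

/-!
# Commutators in the Mumford-Tate group and Tate classes
-/

set_option autoImplicit false

namespace Pool.Agent.W5h27.UN

open Module TensorProduct Pool.Agent.Y126.Notions
open Pool.Agent.H204R3.SP Pool.Agent.H204R3.GP Pool.Agent.W522.U Pool.Agent.TH118.WC
open Pool.Agent.TH118.MT

/-- Commutators of elements of the Mumford-Tate group fix the combinations of products of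
determinants. -/
theorem comm_det {K : Type} [Field K] [CharZero K] {X : Type} [AddCommGroup X] [Module K X]
    [FiniteDimensional K X] {Γ : Type} [Group Γ] {R : Representation K Γ X} {χ : Γ →* K}
    {W T : Type} [AddCommGroup W] [Module ℚ W] [AddCommGroup T] [Module ℂ T]
    (ω : X →ₗ[K] X →ₗ[K] K) (hnd : ∀ u, (∀ v, ω u v = 0) → u = 0)
    (hωR : ∀ g u v, ω (R g u) (R g v) = χ g * ω u v) (hss : HasProj R)
    {per : W →+ T} {comp : W →+ X}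
    (hF : ∀ B : X →ₗ[K] X →ₗ[K] K, IsTate2 R χ B → B ∈ Submodule.span K (HB (k := K) per comp))
    {m : ℕ} {φ : MultilinearMap K (fun _ : Fin m × Fin 2 => X) K}
    (hφ : φ ∈ Submodule.span K (DetProd R χ m)) {h₁ h₂ : X ≃ₗ[K] X} {c₁ c₂ : K}
    (hh₁ : InMumfordTate per comp h₁ c₁) (hh₂ : InMumfordTate per comp h₂ c₂)
    (v : Fin m × Fin 2 → X) : φ (fun l => h₁ (h₂ (v l))) = φ (fun l => h₂ (h₁ (v l))) := by
  induction hφ using Submodule.span_induction with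
  | mem ψ hψ =>
    obtain ⟨a, ha⟩ := detProd_line ω hnd hωR hss hF hψ hh₁
    obtain ⟨b, hb⟩ := detProd_line ω hnd hωR hss hF hψ hh₂
    rw [ha (fun l => h₂ (v l)), hb v, hb (fun l => h₁ (v l)), ha v]
    ring
  | zero => rfl
  | add ψ ψ' _ _ h h' => rw [MultilinearMap.add_apply, MultilinearMap.add_apply, h, h']
  | smul a ψ _ h => rw [MultilinearMap.smul_apply, MultilinearMap.smul_apply, h]

/-- Commutators of elements of the Mumford-Tate group fix all Tate classes, if there are square-zero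
elements of rank one on all strongly irreducible subspaces. -/
theorem comm_of_one (ℓ : ℕ) [Fact ℓ.Prime] {W T : Type} [AddCommGroup W] [Module ℚ W]
    [FiniteDimensional ℚ W] [AddCommGroup T] [Module ℂ T]
    (per : W →+ T) (ω₀ : W →ₗ[ℚ] W →ₗ[ℚ] ℚ) (halt : ∀ v, ω₀ v v = 0)
    (hnondeg : ∀ u, (∀ v, ω₀ v u = 0) → u = 0) (hω₀ : IsHodgeBilinear per ω₀)
    {Γ : Type} [Group Γ] (ρ : Representation ℚ_[ℓ] Γ (ℚ_[ℓ] ⊗[ℚ] W)) (χ : Γ →* ℚ_[ℓ])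
    (hω : ∀ s u v, bcb ℚ_[ℓ] ω₀ (ρ s u) (ρ s v) = χ s * bcb ℚ_[ℓ] ω₀ u v)
    (hss : FiniteIndexSemisimple ρ) (hF : FaltingsEnd per (incl ℚ_[ℓ] W) ρ)
    (h1 : ∀ U, StronglyIrreducible (bcr ρ (AlgebraicClosure ℚ_[ℓ])) U →
      2 ≤ finrank (AlgebraicClosure ℚ_[ℓ]) U →
      ∃ e ∈ lieT (bcr ρ (AlgebraicClosure ℚ_[ℓ])) (bcc χ (AlgebraicClosure ℚ_[ℓ])), e * e = 0 ∧
        finrank (AlgebraicClosure ℚ_[ℓ]) (U.map e) = 1)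
    (hlines : NoSelfDualLines (bcr ρ (AlgebraicClosure ℚ_[ℓ])) (bcc χ (AlgebraicClosure ℚ_[ℓ])))
    (htwists : NoProperTwists (bcr ρ (AlgebraicClosure ℚ_[ℓ])) (bcc χ (AlgebraicClosure ℚ_[ℓ])))
    {m : ℕ} {φ : MultilinearMap (AlgebraicClosure ℚ_[ℓ])
      (fun _ : Fin m × Fin 2 => AlgebraicClosure ℚ_[ℓ] ⊗[ℚ_[ℓ]] (ℚ_[ℓ] ⊗[ℚ] W))
      (AlgebraicClosure ℚ_[ℓ])}
    (hφ : IsTateTensor (bcr ρ (AlgebraicClosure ℚ_[ℓ])) (bcc χ (AlgebraicClosure ℚ_[ℓ])) m φ)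
    {h₁ h₂ : (AlgebraicClosure ℚ_[ℓ] ⊗[ℚ_[ℓ]] (ℚ_[ℓ] ⊗[ℚ] W)) ≃ₗ[AlgebraicClosure ℚ_[ℓ]]
      (AlgebraicClosure ℚ_[ℓ] ⊗[ℚ_[ℓ]] (ℚ_[ℓ] ⊗[ℚ] W))} {c₁ c₂ : AlgebraicClosure ℚ_[ℓ]}
    (hh₁ : InMumfordTate per (extend (k := ℚ_[ℓ]) (AlgebraicClosure ℚ_[ℓ]) (incl ℚ_[ℓ] W)) h₁ c₁)
    (hh₂ : InMumfordTate per (extend (k := ℚ_[ℓ]) (AlgebraicClosure ℚ_[ℓ]) (incl ℚ_[ℓ] W)) h₂ c₂)
    (v : Fin m × Fin 2 → AlgebraicClosure ℚ_[ℓ] ⊗[ℚ_[ℓ]] (ℚ_[ℓ] ⊗[ℚ] W)) :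
    φ (fun l => h₁ (h₂ (v l))) = φ (fun l => h₂ (h₁ (v l))) := by
  have hl1 : ∀ u, (∀ v, bcb ℚ_[ℓ] ω₀ u v = 0) → u = 0 :=
    fun u hu => bcb_nondeg_left ω₀ hnondeg (left_nondeg ω₀ halt hnondeg) u hu
  have hr1 : ∀ u, (∀ v, bcb ℚ_[ℓ] ω₀ v u = 0) → u = 0 :=
    fun u hu => bcb_nondeg_right ω₀ hnondeg (left_nondeg ω₀ halt hnondeg) u hu
  have hl2 : ∀ u, (∀ v, bcb (AlgebraicClosure ℚ_[ℓ]) (bcb ℚ_[ℓ] ω₀) u v = 0) → u = 0 :=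
    fun u hu => bcb_nondeg_left (bcb ℚ_[ℓ] ω₀) hr1 hl1 u hu
  have hinv := bcb_inv (Ω := AlgebraicClosure ℚ_[ℓ]) ρ χ (bcb ℚ_[ℓ] ω₀) hω
  have hpr : HasProj (bcr ρ (AlgebraicClosure ℚ_[ℓ])) := hasProj_bcr ρ _ hss
  exact comm_det (bcb (AlgebraicClosure ℚ_[ℓ]) (bcb ℚ_[ℓ] ω₀)) hl2 hinv hpr
    (faltings_ext fun B hB => faltings_bil ω₀ halt hnondeg hω₀ hω hF B hB)
    (Pool.Agent.TH118.CR.nil_det _ hl2 hinv h1 hpr hlines htwists φ hφ) hh₁ hh₂ v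

end Pool.Agent.W5h27.UN
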