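import Mathlib
import Pool.Agent.W5h27.BR.Gour

/-!
# The simple core of an irreducible Lie algebra which contains an operator of rank one and square zero
-/

set_option autoImplicit false

namespace Pool.Agent.W5h27.UN

open Module

/-- The Lie algebra `𝔥` of operators contains the simple Lie algebra `𝔰` and its commutators are in
`𝔰`; the extremal elements of `𝔰` have square zero and some of them have rank one. -/
structure IsCore {K : Type} [Field K] {V : Type} [AddCommGroup V] [Module K V]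
    (𝔥 𝔰 : Submodule K (Module.End K V)) : Prop where
  le : 𝔰 ≤ 𝔥
  br : ∀ X ∈ 𝔥, ∀ Y ∈ 𝔥, X * Y - Y * X ∈ 𝔰
  simple : ∀ 𝔠 : Submodule K (Module.End K V), 𝔠 ≤ 𝔰 →
    (∀ Y ∈ 𝔰, ∀ Z ∈ 𝔠, Y * Z - Z * Y ∈ 𝔠) → 𝔠 ≠ ⊥ → 𝔠 = 𝔰
  ext : ∀ N ∈ 𝔰, (∀ Y ∈ 𝔰, ∃ c : K, N * (N * Y - Y * N) - (N * Y - Y * N) * N = c • N) → N * N = 0
  one : ∃ (u : V) (φ : Dual K V), φ u = 0 ∧ (φ.smulRight u : Module.End K V) ∈ 𝔰 ∧
    ∃ Y ∈ 𝔰, φ (Y u) ≠ 0

end Pool.Agent.W5h27.UN
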