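import Mathlib
import Pool.Agent.W5h27.UN.Defs
import Pool.Agent.W522.U.A1

/-!
# Irreducible Lie algebras with an operator of rank one and square zero
-/

set_option autoImplicit false

namespace Pool.Agent.W5h27.UN

open Module Pool.Agent.W522.U Pool.Agent.H204R3.SP Pool.Agent.H204R3.GP Pool.Agent.W529.Ta
open Pool.Agent.W5h27.BR

variable {K : Type} [Field K] [CharZero K] {V : Type} [AddCommGroup V] [Module K V]
  [FiniteDimensional K V]

/-- The symplectic Lie algebra as a core. -/
theorem core_sp (om : V →ₗ[K] V →ₗ[K] K) (halt : ∀ v, om v v = 0)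
    (hnd : ∀ u, (∀ v, om v u = 0) → u = 0) (hV : ∃ v : V, v ≠ 0)
    (𝔥 : Submodule K (Module.End K V)) (hall : ∀ a b, SS om a b ∈ 𝔥)
    (hsk : ∀ X ∈ 𝔥, ∃ a : K, ∀ u w, om ((X - a • 1) u) w + om u ((X - a • 1) w) = 0) :
    ∃ 𝔰, IsCore 𝔥 𝔰 := by
  have hanti := alt_anti halt
  let 𝔰 : Submodule K (Module.End K V) :=
    { carrier := {Z | ∀ u w, om (Z u) w + om u (Z w) = 0}
      zero_mem' := fun u w => by simp
      add_mem' := by
        intro Z Z' h h' u w
        have h1 := h u w
        have h2 := h' u w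
        simp only [LinearMap.add_apply, map_add]
        linear_combination h1 + h2
      smul_mem' := by
        intro c Z h u w
        have h1 := h u w
        simp only [LinearMap.smul_apply, map_smul, smul_eq_mul]
        linear_combination c * h1 }
  have hSS : ∀ a b, SS om a b ∈ 𝔰 := by
    intro a b u w
    rw [SS_apply, SS_apply, map_add, map_add, map_smul, map_smul, LinearMap.add_apply,
      LinearMap.smul_apply, map_smul, map_smul, LinearMap.smul_apply]
    simp only [smul_eq_mul]
    rw [hanti u b, hanti u a]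
    ring
  refine ⟨𝔰, fun Z hZ => skew_mem halt hnd 𝔥 hall hZ, ?_, ?_, ?_, ?_⟩
  · intro X hX Y hY
    obtain ⟨a, ha⟩ := hsk X hX
    obtain ⟨b, hb⟩ := hsk Y hY
    have h1 : X * Y - Y * X = (X - a • 1) * (Y - b • 1) - (Y - b • 1) * (X - a • 1) := by
      simp only [sub_mul, mul_sub, smul_mul_assoc, mul_smul_comm, one_mul, mul_one]
      module
    rw [h1]
    intro u w
    have h2 := ha ((Y - b • 1) u) w
    have h3 := hb u ((X - a • 1) w)
    have h4 := hb ((X - a • 1) u) w
    have h5 := ha u ((Y - b • 1) w)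
    rw [LinearMap.sub_apply (_ * _), LinearMap.sub_apply (_ * _), map_sub, map_sub,
      LinearMap.sub_apply, Module.End.mul_apply, Module.End.mul_apply, Module.End.mul_apply,
      Module.End.mul_apply]
    linear_combination h2 - h3 - h4 + h5
  · intro 𝔠 hle hi h0
    have h1 := ideal_all halt hnd 𝔠 (fun a b Y hY => hi _ (hSS a b) Y hY) (fun Y hY => hle hY) h0
    exact le_antisymm hle fun Z hZ => skew_mem halt hnd 𝔠 h1 hZ
  · intro N hN hext
    exact ext_sq halt hnd hN fun u => hext _ (hSS u u)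
  · obtain ⟨u, hu⟩ := hV
    obtain ⟨w, hw⟩ := ex_one halt hnd hu
    have h1 : ∀ u, ((om u).smulRight u : Module.End K V) = (1 / 2 : K) • SS om u u := by
      intro u
      refine LinearMap.ext fun x => ?_
      rw [LinearMap.smulRight_apply, LinearMap.smul_apply, SS_apply]
      module
    refine ⟨u, om u, halt u, ?_, (om w).smulRight w, ?_, ?_⟩
    · rw [h1]
      exact 𝔰.smul_mem _ (hSS u u)
    · rw [h1]
      exact 𝔰.smul_mem _ (hSS w w)
    · rw [LinearMap.smulRight_apply, map_smul, hanti u w, hw]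
      simp

variable {G : Type} [Group G] (r : Representation K G V) (hirr : Irr r)
  (𝔥 : Submodule K (Module.End K V)) (hbr : ∀ X ∈ 𝔥, ∀ Y ∈ 𝔥, X * Y - Y * X ∈ 𝔥)
  (hconj : ∀ s : G, ∀ X ∈ 𝔥, r s * X * r s⁻¹ ∈ 𝔥)

include hbr hconj in
/-- The rank one nilpotent operators in a Lie algebra. -/
theorem sys_of : Sys r (fun u φ => φ u = 0 ∧ (φ.smulRight u : Module.End K V) ∈ 𝔥) := by
  have h1 := sys_one (K := K) (I := Unit) (E := fun _ => V) (r := fun _ => r)
    (𝔥 := 𝔥.comap (LinearMap.proj (R := K) (φ := fun _ : Unit => Module.End K V) ()))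
    ⟨fun X hX Y hY => hbr _ hX _ hY, fun g X hX => hconj g _ hX⟩ ()
  have h2 : (fun (u : V) (φ : Dual K V) => φ u = 0 ∧
      ∃ X ∈ 𝔥.comap (LinearMap.proj (R := K) (φ := fun _ : Unit => Module.End K V) ()),
        X () = φ.smulRight u) =
      fun u φ => φ u = 0 ∧ (φ.smulRight u : Module.End K V) ∈ 𝔥 := by
    funext u φ
    rw [eq_iff_iff]
    constructor
    · rintro ⟨h3, X, hX, hXi⟩
      refine ⟨h3, ?_⟩
      rw [← hXi]
      exact hX
    · rintro ⟨h3, h4⟩
      exact ⟨h3, fun _ => φ.smulRight u, h4, rfl⟩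
  rw [← h2]
  exact h1

include hirr hbr hconj in
/-- **The dichotomy.** -/
theorem dich (hN : ∃ (u : V) (φ : Dual K V), u ≠ 0 ∧ φ ≠ 0 ∧ φ u = 0 ∧
      (φ.smulRight u : Module.End K V) ∈ 𝔥) :
    (2 < finrank K V ∧ ∀ (u : V) (φ : Dual K V), φ u = 0 →
      (φ.smulRight u : Module.End K V) ∈ 𝔥) ∨
    ∃ om : V →ₗ[K] V →ₗ[K] K, (∀ v, om v v = 0) ∧ (∀ u, (∀ v, om v u = 0) → u = 0) ∧
      (∀ a b, SS om a b ∈ 𝔥) ∧
      ∀ X ∈ 𝔥, ∃ a : K, ∀ u w, om ((X - a • 1) u) w + om u ((X - a • 1) w) = 0 := by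
  classical
  obtain ⟨u0, φ0, hu0, hφ0, hP0⟩ := hN
  have hP := sys_of r 𝔥 hbr hconj
  -- the maximal dimension
  obtain ⟨m, ⟨u1, hu1, hm1⟩, hm⟩ : ∃ m, (∃ u : V, u ≠ 0 ∧ finrank K (Phi hP u) = m) ∧
      ∀ u : V, u ≠ 0 → finrank K (Phi hP u) ≤ m := by
    let S : Set ℕ := {n | ∃ u : V, u ≠ 0 ∧ finrank K (Phi hP u) = n}
    have hS : S.Nonempty := ⟨_, u0, hu0, rfl⟩
    have hb : BddAbove S := by
      refine ⟨finrank K (Dual K V), ?_⟩
      rintro n ⟨u, _, rfl⟩
      exact Submodule.finrank_le _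
    exact ⟨sSup S, Nat.sSup_mem hS hb, fun u hu => le_csSup hb ⟨u, hu, rfl⟩⟩
  have hm0 : 1 ≤ m := by
    have h1 := hm u0 hu0
    have h2 : 0 < finrank K (Phi hP u0) := by
      refine Nat.pos_of_ne_zero fun h => hφ0 ?_
      have h3 := Submodule.finrank_eq_zero.1 h
      have h4 : φ0 ∈ Phi hP u0 := hP0
      rwa [h3, Submodule.mem_bot] at h4
    omega
  have hx : ∃ u, XX hP m u := ⟨u1, hu1, hm1⟩
  rcases Nat.lt_or_ge 1 m with h | h
  · left
    have h1 := large_all hP hm hirr hm0 h hx
    exact ⟨h1.1, fun u φ hφ => (h1.2 u φ hφ).2⟩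
  right
  have h1 : m = 1 := le_antisymm h hm0
  subst h1
  obtain ⟨om, ψ, halt, hinj, hPo, -⟩ := case_one hP hm hirr hx
  have hanti : ∀ x y, om x y = -om y x := by
    intro x y
    have h1 := halt (x + y)
    simp only [map_add, LinearMap.add_apply, halt, zero_add, add_zero] at h1
    linear_combination h1
  have hnd : ∀ u, (∀ v, om v u = 0) → u = 0 := by
    intro u hu
    apply hinj
    rw [map_zero]
    refine LinearMap.ext fun v => ?_
    rw [hanti, hu v, neg_zero, LinearMap.zero_apply]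
  have hSd : ∀ u, SS om u u ∈ 𝔥 := by
    intro u
    have h1 : SS om u u = (2 : K) • ((om u).smulRight u : Module.End K V) := by
      refine LinearMap.ext fun x => ?_
      rw [LinearMap.smul_apply, SS_apply, LinearMap.smulRight_apply]
      module
    rw [h1]
    exact 𝔥.smul_mem _ (hPo u).2
  have hSS : ∀ a b, SS om a b ∈ 𝔥 := by
    intro a b
    have h1 : SS om a b = (1 / 2 : K) • (SS om (a + b) (a + b) - SS om a a - SS om b b) := by
      refine LinearMap.ext fun x => ?_
      simp only [LinearMap.smul_apply, LinearMap.sub_apply, SS_apply, map_add,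
        LinearMap.add_apply]
      module
    rw [h1]
    exact 𝔥.smul_mem _ (𝔥.sub_mem (𝔥.sub_mem (hSd _) (hSd _)) (hSd _))
  refine ⟨om, halt, hnd, hSS, fun X hX => ?_⟩
  -- the adjoint
  have hsurj : Function.Surjective om := by
    have h1 : finrank K V = finrank K (Dual K V) := Subspace.dual_finrank_eq.symm
    exact (LinearMap.injective_iff_surjective_of_finrank_eq_finrank h1).1 hinj
  let e : V ≃ₗ[K] Dual K V := LinearEquiv.ofBijective om ⟨hinj, hsurj⟩
  let X' : Module.End K V := e.symm.toLinearMap ∘ₗ (X.dualMap ∘ₗ om)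
  have hX' : ∀ u v, om (X' u) v = om u (X v) := by
    intro u v
    have h1 : e (X' u) = X.dualMap (om u) := e.apply_symm_apply _
    have h2 : e (X' u) = om (X' u) := rfl
    rw [← h2, h1, LinearMap.dualMap_apply]
  have hX'' : ∀ u v, om u (X' v) = om (X u) v := by
    intro u v
    rw [hanti, hX', hanti, neg_neg]
  have hA : X - X' ∈ 𝔥 := by
    refine skew_mem halt hnd 𝔥 hSS fun u w => ?_
    rw [LinearMap.sub_apply, LinearMap.sub_apply, map_sub, map_sub, LinearMap.sub_apply, hX', hX'']
    ring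
  let S : Module.End K V := X + X'
  have hS : S ∈ 𝔥 := by
    have h1 : S = (2 : K) • X - (X - X') := by
      simp only [S]
      module
    rw [h1]
    exact 𝔥.sub_mem (𝔥.smul_mem _ hX) hA
  have hSs : ∀ u v, om u (S v) = om (S u) v := by
    intro u v
    simp only [S, LinearMap.add_apply, map_add, hX', hX'']
    ring
  by_cases hsc : ∃ a : K, ∀ u, S u = a • u
  · obtain ⟨a, ha⟩ := hsc
    refine ⟨a / 2, fun u w => ?_⟩
    have h1 : om (S u) w = a * om u w := by rw [ha, map_smul]; rfl
    have h2 : om (S u) w = om (X u) w + om u (X w) := by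
      simp only [S, LinearMap.add_apply, map_add, hX']
    simp only [LinearMap.sub_apply, LinearMap.smul_apply, Module.End.one_apply, map_sub, map_smul,
      smul_eq_mul]
    linear_combination h1 - h2
  · exfalso
    obtain ⟨u, hu⟩ : ∃ u, ∀ s : K, S u ≠ s • u := by
      by_contra hcon
      push Not at hcon
      apply hsc
      have h1 : ∀ v, ¬LinearIndependent K ![v, S v] := by
        intro v hli
        obtain ⟨s, hs⟩ := hcon v
        have h2 := Fintype.linearIndependent_iff.1 hli ![-s, 1] (by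
          rw [Fin.sum_univ_two]
          simp [hs])
        have h3 := h2 1
        simp at h3
      obtain ⟨a, ha⟩ := LinearMap.exists_eq_smul_id_of_forall_notLinearIndependent h1
      exact ⟨a, fun u => by rw [ha]; rfl⟩
    have hSu : S u ≠ 0 := fun h => hu 0 (by rw [h, zero_smul])
    have h0 : om u (S u) = 0 := by
      have h1 := hSs u u
      rw [hanti (S u) u] at h1
      have h2 : (2 : K) * om u (S u) = 0 := by linear_combination h1
      exact (mul_eq_zero.1 h2).resolve_left two_ne_zero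
    have hmem : ((om u).smulRight (S u) : Module.End K V) ∈ 𝔥 := by
      have h1 : ((om u).smulRight (S u) : Module.End K V) =
          (1 / 2 : K) • ((S * (om u).smulRight u - (om u).smulRight u * S) + SS om u (S u)) := by
        refine LinearMap.ext fun x => ?_
        simp only [LinearMap.smul_apply, LinearMap.add_apply, LinearMap.sub_apply,
          Module.End.mul_apply, LinearMap.smulRight_apply, SS_apply, map_smul, hSs]
        module
      rw [h1]
      exact 𝔥.smul_mem _ (𝔥.add_mem (hbr _ hS _ (hPo u).2) (hSS _ _))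
    have hp1 : om u ∈ Phi hP (S u) := ⟨h0, hmem⟩
    have hp2 : om (S u) ∈ Phi hP (S u) := hPo (S u)
    have h3 := hm (S u) hSu
    obtain ⟨x, hx⟩ : ∃ x : Dual K V, ∀ w ∈ Phi hP (S u), ∃ c : K, c • x = w := by
      by_cases hz : ∃ w ∈ Phi hP (S u), w ≠ 0
      · obtain ⟨w, hw, hw0⟩ := hz
        refine ⟨w, fun w' hw' => ?_⟩
        by_contra hcon
        have h4 : Submodule.span K {w} < Phi hP (S u) := by
          refine lt_of_le_of_ne ?_ fun h5 => ?_
          · rw [Submodule.span_singleton_le_iff_mem]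
            exact hw
          · rw [← h5, Submodule.mem_span_singleton] at hw'
            exact hcon hw'
        have h5 := Submodule.finrank_lt_finrank_of_lt h4
        rw [finrank_span_singleton hw0] at h5
        omega
      · push Not at hz
        exact ⟨0, fun w hw => ⟨0, by rw [hz w hw, smul_zero]⟩⟩
    obtain ⟨c1, h4'⟩ := hx _ hp2
    obtain ⟨c2, h5'⟩ := hx _ hp1
    have hc2 : c2 ≠ 0 := by
      rintro rfl
      rw [zero_smul, ← map_zero om] at h5'
      have hu0 : u = 0 := (hinj h5').symm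
      exact hSu (by rw [hu0, map_zero])
    apply hu (c1 * c2⁻¹)
    apply hinj
    rw [map_smul, ← h4', ← h5', smul_smul, mul_assoc, inv_mul_cancel₀ hc2, mul_one]

end Pool.Agent.W5h27.UN
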