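import Mathlib
import Pool.Agent.W5h27.UN.Defs

/-!
# An element of rank one and square zero in a Lie algebra whose projections have a simple core
-/

set_option autoImplicit false

namespace Pool.Agent.W5h27.UN

open Module Pool.Agent.W5h27.BR

section

variable {K : Type} [Field K] {X : Type} [AddCommGroup X] [Module K X]
  {U : Submodule K X} {L : Submodule K (Module.End K X)}

/-- The span of the commutators. -/
def der (L : Submodule K (Module.End K X)) : Submodule K (Module.End K X) :=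
  Submodule.span K {Z | ∃ Y ∈ L, ∃ Y' ∈ L, Z = Y * Y' - Y' * Y}

theorem der_le (hbr : ∀ Y ∈ L, ∀ Z ∈ L, Y * Z - Z * Y ∈ L) : der L ≤ L := by
  refine Submodule.span_le.2 ?_
  rintro Z ⟨Y, hY, Y', hY', rfl⟩
  exact hbr Y hY Y' hY'

theorem comm_mem_der {Y Y' : Module.End K X} (hY : Y ∈ L) (hY' : Y' ∈ L) :
    Y * Y' - Y' * Y ∈ der L :=
  Submodule.subset_span ⟨Y, hY, Y', hY', rfl⟩

theorem restrict_mem_img {C : Submodule K (Module.End K X)} {Y : Module.End K X} (hY : Y ∈ C)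
    (h : ∀ u ∈ U, Y u ∈ U) : Y.restrict h ∈ img C U := ⟨Y, hY, fun _ => rfl⟩

/-- The restrictions of the elements of `der L` are in the core. -/
theorem img_der_le (hst : ∀ Y ∈ L, ∀ u ∈ U, Y u ∈ U) {𝔰 : Submodule K (Module.End K U)}
    (hs : IsCore (img L U) 𝔰) : img (der L) U ≤ 𝔰 := by
  have key : ∀ Z ∈ der L, ∃ W' ∈ 𝔰, ∀ x : U, ((W' x : U) : X) = Z x := by
    intro Z hZ
    unfold der at hZ
    induction hZ using Submodule.span_induction with
    | mem Z hZ =>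
      obtain ⟨Y, hY, Y', hY', rfl⟩ := hZ
      refine ⟨_, hs.br (Y.restrict (hst Y hY)) (restrict_mem_img hY _)
        (Y'.restrict (hst Y' hY')) (restrict_mem_img hY' _), fun x => rfl⟩
    | zero => exact ⟨0, 𝔰.zero_mem, fun x => rfl⟩
    | add Z Z' _ _ h1 h2 =>
      obtain ⟨W1, hW1, h1⟩ := h1
      obtain ⟨W2, hW2, h2⟩ := h2
      refine ⟨W1 + W2, 𝔰.add_mem hW1 hW2, fun x => ?_⟩
      rw [LinearMap.add_apply, Submodule.coe_add, h1, h2, LinearMap.add_apply]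
    | smul c Z _ h1 =>
      obtain ⟨W1, hW1, h1⟩ := h1
      refine ⟨c • W1, 𝔰.smul_mem c hW1, fun x => ?_⟩
      rw [LinearMap.smul_apply, Submodule.coe_smul, h1, LinearMap.smul_apply]
  rintro W ⟨Z, hZ, hWZ⟩
  have h1 := key Z hZ
  obtain ⟨W', hW', hx⟩ := h1
  have h2 : W = W' := LinearMap.ext fun x => Subtype.ext (by rw [hWZ, hx])
  rwa [h2]

/-- The elements of `der L` are zero on an invariant line. -/
theorem der_line (hst : ∀ Y ∈ L, ∀ u ∈ U, Y u ∈ U) (hU : ¬ 2 ≤ finrank K U)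
    [FiniteDimensional K X] {Z : Module.End K X} (hZ : Z ∈ der L) : ∀ x ∈ U, Z x = 0 := by
  have h1 : finrank K U ≤ 1 := by omega
  obtain ⟨v, hv⟩ := (finrank_le_one_iff (K := K) (V := U)).1 h1
  have hY : ∀ Y ∈ L, ∃ c : K, ∀ x ∈ U, Y x = c • x := by
    intro Y hY
    obtain ⟨c, hc⟩ := hv ⟨Y v, hst Y hY v v.2⟩
    have hc' : c • (v : X) = Y v := congrArg Subtype.val hc
    refine ⟨c, fun x hx => ?_⟩
    obtain ⟨b, hb⟩ := hv ⟨x, hx⟩
    have hb' : b • (v : X) = x := congrArg Subtype.val hb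
    rw [← hb', map_smul, ← hc', smul_smul, smul_smul, mul_comm]
  unfold der at hZ
  induction hZ using Submodule.span_induction with
  | mem Z hZ =>
    obtain ⟨Y, hYL, Y', hYL', rfl⟩ := hZ
    obtain ⟨c, hc⟩ := hY Y hYL
    obtain ⟨c', hc'⟩ := hY Y' hYL'
    intro x hx
    rw [LinearMap.sub_apply, Module.End.mul_apply, Module.End.mul_apply, hc' x hx, hc x hx,
      map_smul, map_smul, hc x hx, hc' x hx, smul_smul, smul_smul, mul_comm, sub_self]
  | zero => exact fun x _ => rfl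
  | add Z Z' _ _ h1 h2 =>
    exact fun x hx => by rw [LinearMap.add_apply, h1 x hx, h2 x hx, add_zero]
  | smul c Z _ h1 =>
    exact fun x hx => by rw [LinearMap.smul_apply, h1 x hx, smul_zero]

/-- An ideal which is nonzero on `U` has the core as its restrictions to `U`. -/
theorem img_eq_core (hst : ∀ Y ∈ L, ∀ u ∈ U, Y u ∈ U) {𝔰 : Submodule K (Module.End K U)}
    (hs : IsCore (img L U) 𝔰) {C : Submodule K (Module.End K X)} (hCD : C ≤ der L)
    (hCL : C ≤ L)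
    (hC : ∀ Y ∈ L, ∀ Z ∈ C, Y * Z - Z * Y ∈ C) (hne : ∃ Z ∈ C, ∃ x ∈ U, Z x ≠ 0) :
    img C U = 𝔰 := by
  refine hs.simple _ ?_ ?_ ?_
  · rintro W ⟨Z, hZ, h⟩
    exact img_der_le hst hs ⟨Z, hCD hZ, h⟩
  · rintro W hW Z ⟨Y, hY, hYZ⟩
    obtain ⟨W', hW', hx⟩ := hs.le hW
    refine ⟨W' * Y - Y * W', hC W' hW' Y hY, fun x => ?_⟩
    rw [LinearMap.sub_apply, Module.End.mul_apply, Module.End.mul_apply, Submodule.coe_sub, hx,
      hYZ, hYZ, hx]
    rfl
  · obtain ⟨Z, hZ, x, hx, hZx⟩ := hne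
    intro h0
    have h2 : Z.restrict (hst Z (hCL hZ)) ∈ img C U := restrict_mem_img hZ _
    rw [h0, Submodule.mem_bot] at h2
    apply hZx
    have h3 := congrArg (fun f : Module.End K U => ((f ⟨x, hx⟩ : U) : X)) h2
    exact h3

end

/-- **An element of rank one.** -/
theorem exists_rank_one {K : Type} [Field K] [CharZero K] {X : Type} [AddCommGroup X]
    [Module K X] [FiniteDimensional K X] {I : Type} {E : I → Submodule K X}
    {L : Submodule K (Module.End K X)} (hst : ∀ j, ∀ Y ∈ L, ∀ u ∈ E j, Y u ∈ E j)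
    (hbr : ∀ Y ∈ L, ∀ Z ∈ L, Y * Z - Z * Y ∈ L)
    (hcore : ∀ j, 2 ≤ finrank K (E j) → ∃ 𝔰, IsCore (img L (E j)) 𝔰) (hE : ⨆ j, E j = ⊤) (i : I)
    (hi : 2 ≤ finrank K (E i)) : ∃ N ∈ L, N * N = 0 ∧ finrank K ((E i).map N) = 1 := by
  have hDL : der L ≤ L := der_le hbr
  have hext0 : ∀ Z : Module.End K X, (∀ j, ∀ x ∈ E j, Z x = 0) → Z = 0 := by
    intro Z hZ
    rw [← LinearMap.ker_eq_top, eq_top_iff, ← hE, iSup_le_iff]
    exact fun j x hx => hZ j x hx
  obtain ⟨𝔰, hs⟩ := hcore i hi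
  obtain ⟨u, φ, hφu, hN𝔰, Yu, hYu, hφY⟩ := hs.one
  -- the minimal ideal
  let S : Set (Submodule K (Module.End K X)) := {C | C ≤ der L ∧
    (∀ Y ∈ L, ∀ Z ∈ C, Y * Z - Z * Y ∈ C) ∧ ∃ Z ∈ C, ∃ x ∈ E i, Z x ≠ 0}
  have hDS : der L ∈ S := by
    obtain ⟨N', hN', hN'x⟩ := hs.le hN𝔰
    obtain ⟨Y', hY', hY'x⟩ := hs.le hYu
    refine ⟨le_refl _, fun Y hY Z hZ => comm_mem_der hY (hDL hZ), N' * Y' - Y' * N',
      comm_mem_der hN' hY', (Yu u : E i), (Yu u).2, fun h0 => ?_⟩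
    rw [LinearMap.sub_apply, Module.End.mul_apply, Module.End.mul_apply, ← hY'x, ← hN'x, ← hN'x,
      ← hY'x, ← Submodule.coe_sub, Submodule.coe_eq_zero] at h0
    have h1 := congrArg φ h0
    simp only [LinearMap.smulRight_apply, map_sub, map_smul, hφu, smul_eq_mul, mul_zero, zero_sub,
      map_zero, neg_eq_zero, mul_self_eq_zero] at h1
    exact hφY h1
  obtain ⟨C, ⟨hCD, hCi, Z1, hZ1, x1, hx1, hZx1⟩, hmin⟩ :=
    (wellFounded_lt : WellFounded ((· < ·) : Submodule K (Module.End K X) → _ → Prop)).has_min S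
      ⟨der L, hDS⟩
  have hCL : C ≤ L := hCD.trans hDL
  let D : I → Submodule K (Module.End K X) := fun j =>
    { carrier := {Z | Z ∈ C ∧ ∀ x ∈ E j, Z x = 0}
      zero_mem' := ⟨C.zero_mem, fun x _ => rfl⟩
      add_mem' := by
        rintro Z Z' ⟨h1, h2⟩ ⟨h3, h4⟩
        exact ⟨C.add_mem h1 h3, fun x hx => by rw [LinearMap.add_apply, h2 x hx, h4 x hx, add_zero]⟩
      smul_mem' := by
        rintro c Z ⟨h1, h2⟩
        exact ⟨C.smul_mem c h1, fun x hx => by rw [LinearMap.smul_apply, h2 x hx, smul_zero]⟩ }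
  have hDC : ∀ j, D j ≤ C := fun j Z hZ => hZ.1
  have hDi : ∀ j, ∀ Y ∈ L, ∀ Z ∈ D j, Y * Z - Z * Y ∈ D j := by
    intro j Y hY Z hZ
    refine ⟨hCi Y hY Z hZ.1, fun x hx => ?_⟩
    rw [LinearMap.sub_apply, Module.End.mul_apply, Module.End.mul_apply, hZ.2 x hx,
      hZ.2 _ (hst j Y hY x hx), map_zero, sub_zero]
  have hDj : ∀ j, (∃ Z ∈ C, ∃ x ∈ E j, Z x ≠ 0) → ∀ Z ∈ D j, ∀ x ∈ E i, Z x = 0 := by
    rintro j ⟨Z, hZ, x, hx, hZx⟩
    by_contra hcon
    push Not at hcon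
    obtain ⟨Z', hZ', x', hx', hZx'⟩ := hcon
    refine hmin (D j) ⟨(hDC j).trans hCD, hDi j, Z', hZ', x', hx', hZx'⟩ ?_
    refine lt_of_le_of_ne (hDC j) fun h => ?_
    rw [← h] at hZ
    exact hZx (hZ.2 x hx)
  -- a block on which `C` is nonzero has dimension at least two
  have hdim : ∀ j, (∃ Z ∈ C, ∃ x ∈ E j, Z x ≠ 0) → 2 ≤ finrank K (E j) := by
    rintro j ⟨Z, hZ, x, hx, hZx⟩
    by_contra hcon
    exact hZx (der_line (hst j) hcon (hCD hZ) x hx)
  have hzero : ∀ Z ∈ C, (∀ x ∈ E i, Z x = 0) → Z = 0 := by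
    intro Z0 hZ0 hZ0i
    apply hext0
    intro j
    by_contra hcon
    push Not at hcon
    obtain ⟨x, hx, hZx⟩ := hcon
    obtain ⟨𝔱, ht⟩ := hcore j (hdim j ⟨Z0, hZ0, x, hx, hZx⟩)
    have h0 := img_eq_core (hst j) ht ((hDC i).trans hCD) ((hDC i).trans hCL) (hDi i)
      ⟨Z0, ⟨hZ0, hZ0i⟩, x, hx, hZx⟩
    have h1 : Z1.restrict (hst j Z1 (hCL hZ1)) ∈ img (D i) (E j) := by
      rw [h0]
      exact img_der_le (hst j) ht (restrict_mem_img (hCD hZ1) _)
    obtain ⟨Y, hY, hYx⟩ := h1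
    have h1 : Z1 - Y ∈ D j := ⟨C.sub_mem hZ1 hY.1, fun x hx => by
      rw [LinearMap.sub_apply, ← hYx ⟨x, hx⟩, LinearMap.restrict_coe_apply, sub_self]⟩
    have h2 := hDj j ⟨Z0, hZ0, x, hx, hZx⟩ _ h1 x1 hx1
    rw [LinearMap.sub_apply, hY.2 x1 hx1, sub_zero] at h2
    exact hZx1 h2
  have hCi𝔰 : img C (E i) = 𝔰 := img_eq_core (hst i) hs hCD hCL hCi ⟨Z1, hZ1, x1, hx1, hZx1⟩
  obtain ⟨N, hN, hNx⟩ : (φ.smulRight u : Module.End K (E i)) ∈ img C (E i) := by
    rw [hCi𝔰]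
    exact hN𝔰
  have hNx' : ∀ x : E i, N x = φ x • (u : X) := by
    intro x
    rw [← hNx x, LinearMap.smulRight_apply, Submodule.coe_smul]
  have hNu : N (u : X) = 0 := by rw [hNx' u, hφu, zero_smul]
  have hext : ∀ Y ∈ C, ∃ c : K, N * (N * Y - Y * N) - (N * Y - Y * N) * N = c • N := by
    intro Y hY
    refine ⟨-2 * φ ⟨Y u, hst i Y (hCL hY) u u.2⟩, ?_⟩
    rw [← sub_eq_zero]
    refine hzero _ ?_ fun x hx => ?_
    · have h1 := hCi N (hCL hN) Y hY
      exact C.sub_mem (hCi N (hCL hN) _ h1) (C.smul_mem _ hN)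
    · have e1 : N x = φ ⟨x, hx⟩ • (u : X) := hNx' ⟨x, hx⟩
      have e2 : N (Y x) = φ ⟨Y x, hst i Y (hCL hY) x hx⟩ • (u : X) :=
        hNx' ⟨Y x, hst i Y (hCL hY) x hx⟩
      have e3 : N (Y u) = φ ⟨Y u, hst i Y (hCL hY) u u.2⟩ • (u : X) :=
        hNx' ⟨Y u, hst i Y (hCL hY) u u.2⟩
      simp only [LinearMap.sub_apply, Module.End.mul_apply, LinearMap.smul_apply]
      rw [e1, e2]
      simp only [map_sub, map_smul]
      rw [hNu, e3]
      simp only [map_zero, smul_zero]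
      module
  refine ⟨N, hCL hN, ?_, ?_⟩
  · apply hext0
    intro j x hx
    by_cases hj : ∃ Z ∈ C, ∃ x ∈ E j, Z x ≠ 0
    swap
    · push Not at hj
      rw [Module.End.mul_apply, hj N hN x hx, map_zero]
    obtain ⟨𝔱, ht⟩ := hcore j (hdim j hj)
    have h0 := img_eq_core (hst j) ht hCD hCL hCi hj
    have hN' := hst j N (hCL hN)
    have h1 : N.restrict hN' * N.restrict hN' = 0 := by
      refine ht.ext _ ?_ ?_
      · rw [← h0]
        exact restrict_mem_img hN _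
      · intro W hW
        rw [← h0] at hW
        obtain ⟨Y, hY, hYx⟩ := hW
        obtain ⟨c, hc⟩ := hext Y hY
        refine ⟨c, ?_⟩
        refine LinearMap.ext fun x => ?_
        apply Subtype.ext
        have e2 := congrArg (fun f : Module.End K X => f x) hc
        simp only [LinearMap.sub_apply, Module.End.mul_apply, LinearMap.smul_apply] at e2
        simp only [LinearMap.sub_apply, Module.End.mul_apply, LinearMap.smul_apply,
          Submodule.coe_sub, Submodule.coe_smul, LinearMap.restrict_coe_apply, hYx]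
        exact e2
    have h2 := congrArg (fun f : Module.End K (E j) => ((f ⟨x, hx⟩ : E j) : X)) h1
    exact h2
  · have hu : (u : X) ≠ 0 := by
      intro h
      have : u = 0 := Subtype.ext h
      rw [this, map_zero, map_zero] at hφY
      exact hφY rfl
    have h1 : (E i).map N = Submodule.span K {(u : X)} := by
      apply le_antisymm
      · rintro _ ⟨x, hx, rfl⟩
        rw [hNx' ⟨x, hx⟩]
        exact Submodule.smul_mem _ _ (Submodule.mem_span_singleton_self _)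
      · rw [Submodule.span_singleton_le_iff_mem]
        refine ⟨((φ (Yu u))⁻¹ • Yu u : E i), ((φ (Yu u))⁻¹ • Yu u : E i).2, ?_⟩
        rw [hNx', map_smul, smul_eq_mul, inv_mul_cancel₀ hφY, one_smul]
    rw [h1, finrank_span_singleton hu]

end Pool.Agent.W5h27.UN
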