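import Mathlib
import Pool.Agent.TH118.CR.Irr
import Pool.Agent.W522.U.A1
import Pool.Agent.W522.U.S3

/-!
# A pseudo-reflection in the group gives a nilpotent operator of rank one in the Lie algebra
-/

set_option autoImplicit false

namespace Pool.Agent.W5h27.UN

open Module Pool.Agent.W522.U

section aux

variable {K : Type} [Field K] {V : Type} [AddCommGroup V] [Module K V] [FiniteDimensional K V]

/-- A commuting set of operators has a common eigenvector. -/
theorem common_eig [IsAlgClosed K] (L : Submodule K (Module.End K V))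
    (hcomm : ∀ X ∈ L, ∀ Y ∈ L, X * Y = Y * X) : ∀ (n : ℕ) (W : Submodule K V), finrank K W = n →
      W ≠ ⊥ → (∀ Y ∈ L, ∀ w ∈ W, Y w ∈ W) → ∃ d ∈ W, d ≠ 0 ∧ ∀ Y ∈ L, ∃ a : K, Y d = a • d := by
  intro n
  induction n using Nat.strong_induction_on with
  | _ n ih =>
    intro W hn hW hst
    by_cases h : ∀ Y ∈ L, ∃ a : K, ∀ w ∈ W, Y w = a • w
    · obtain ⟨d, hd, hd0⟩ := Submodule.exists_mem_ne_zero_of_ne_bot hW
      refine ⟨d, hd, hd0, fun Y hY => ?_⟩
      obtain ⟨a, ha⟩ := h Y hY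
      exact ⟨a, ha d hd⟩
    · push Not at h
      obtain ⟨Y, hY, hY'⟩ := h
      have hnt : Nontrivial W := Submodule.nontrivial_iff_ne_bot.2 hW
      obtain ⟨a, ha⟩ := Module.End.exists_eigenvalue (Y.restrict (hst Y hY) : Module.End K W)
      obtain ⟨w, hw⟩ := ha.exists_hasEigenvector
      have hw1 : Y (w : V) = a • (w : V) := by
        have h1 := hw.apply_eq_smul
        exact congrArg Subtype.val h1
      have hw0 : (w : V) ≠ 0 := fun h => hw.2 (Subtype.ext h)
      let W' : Submodule K V := W ⊓ LinearMap.ker (Y - a • (1 : Module.End K V))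
      have hmem : ∀ u, u ∈ W' ↔ u ∈ W ∧ Y u = a • u := by
        intro u
        rw [Submodule.mem_inf, LinearMap.mem_ker, LinearMap.sub_apply, sub_eq_zero]
        rfl
      have hlt : W' < W := by
        refine lt_of_le_of_ne inf_le_left fun he => ?_
        obtain ⟨u, hu, hu'⟩ := hY' a
        rw [← he] at hu
        exact hu' ((hmem u).1 hu).2
      obtain ⟨d, hd, hd0, hde⟩ := ih (finrank K W') (by
          rw [← hn]
          exact Submodule.finrank_lt_finrank_of_lt hlt) W' rfl (by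
          intro he
          have h1 : (w : V) ∈ W' := (hmem _).2 ⟨w.2, hw1⟩
          rw [he, Submodule.mem_bot] at h1
          exact hw0 h1) (by
          intro Z hZ u hu
          obtain ⟨h1, h2⟩ := (hmem u).1 hu
          refine (hmem _).2 ⟨hst Z hZ u h1, ?_⟩
          have h3 := congrArg (fun f : Module.End K V => f u) (hcomm Y hY Z hZ)
          have h4 : Y (Z u) = Z (Y u) := h3
          rw [h4, h2, map_smul])
      exact ⟨d, inf_le_left (a := W) hd, hd0, hde⟩

/-- The double bracket with a nilpotent operator of rank one. -/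
theorem double_bracket (M X : Module.End K V) {u : V} {ψ : Dual K V}
    (hM : M = ψ.smulRight u) (hψ : ψ u = 0) :
    M * (M * X - X * M) - (M * X - X * M) * M = (-2 * ψ (X u)) • M := by
  subst hM
  ext x
  simp only [LinearMap.sub_apply, LinearMap.smul_apply, Module.End.mul_apply,
    LinearMap.smulRight_apply, map_sub, map_smul, map_zero, hψ, zero_smul, smul_zero]
  module

end aux

theorem one_of_refl {K : Type} [Field K] [CharZero K] [IsAlgClosed K] {V : Type} [AddCommGroup V]
    [Module K V] [FiniteDimensional K V] {G : Type} [Group G] (r : Representation K G V)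
    (hirr : Irr r) (𝔥 : Submodule K (Module.End K V))
    (hbr : ∀ X ∈ 𝔥, ∀ Y ∈ 𝔥, X * Y - Y * X ∈ 𝔥)
    (hconj : ∀ s : G, ∀ X ∈ 𝔥, r s * X * r s⁻¹ ∈ 𝔥)
    (hns : ∃ Y ∈ 𝔥, ¬∃ a : K, ∀ u, Y u = a • u) {γ : G} {c : K} {v : V} {φ : Dual K V}
    (hγ : ∀ u, r γ u = c • (u + φ u • v)) (hv : v ≠ 0) (hφ : φ ≠ 0) (h2 : φ v ≠ -2) :
    ∃ (u : V) (ψ : Dual K V), u ≠ 0 ∧ ψ ≠ 0 ∧ ψ u = 0 ∧
      (ψ.smulRight u : Module.End K V) ∈ 𝔥 := by
  classical
  have h20 : (-2 : K) ≠ 0 := neg_ne_zero.2 two_ne_zero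
  -- no common eigenvector
  have hnt : (⊤ : Submodule K V) ≠ ⊥ := by
    intro h
    have h1 : v ∈ (⊤ : Submodule K V) := trivial
    rw [h, Submodule.mem_bot] at h1
    exact hv h1
  have hSI : SI r (⊤ : Submodule K V) := by
    refine ⟨hnt, pot_top, fun W _ hW => ?_⟩
    obtain ⟨Δ, hΔ, h1⟩ := hW
    exact hirr Δ hΔ W h1
  have hce : ∀ d : V, d ≠ 0 → (∀ Y ∈ 𝔥, ∃ a : K, Y d = a • d) → False := by
    intro d hd hde
    obtain ⟨Y, hY, hYn⟩ := hns
    obtain ⟨a, ha⟩ := Pool.Agent.TH118.CR.scalar_of_vector hSI 𝔥 hconj (Submodule.mem_top) hd hde Y hY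
    exact hYn ⟨a, fun u => ha u Submodule.mem_top⟩
  -- the element `γ`
  set t : K := φ v with ht
  have hc : c ≠ 0 := by
    rintro rfl
    apply Rne (R := r) γ hv
    rw [hγ, zero_smul]
  have hζ : 1 + t ≠ 0 := by
    intro h
    apply Rne (R := r) γ hv
    have h1 : v + φ v • v = (1 + t) • v := by rw [add_smul, one_smul]
    rw [hγ, h1, h, zero_smul, smul_zero]
  set z : K := (1 + t)⁻¹ with hz
  have hz1 : z * (1 + t) = 1 := inv_mul_cancel₀ hζ
  have hz0 : z ≠ 0 := inv_ne_zero hζ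
  have hinv : ∀ u, r γ⁻¹ u = c⁻¹ • (u - (z * φ u) • v) := by
    intro u
    have h1 : r γ (c⁻¹ • (u - (z * φ u) • v)) = u := by
      rw [hγ, map_smul, map_sub, map_smul, ← ht, smul_add, smul_smul, mul_inv_cancel₀ hc, one_smul]
      have e1 : c • (c⁻¹ • (φ u - (z * φ u) • t)) • v = (φ u * (1 - z * t)) • v := by
        rw [smul_smul]
        congr 1
        rw [smul_eq_mul, smul_eq_mul]
        field_simp
      rw [e1]
      have e2 : φ u * (1 - z * t) = z * φ u := by linear_combination -φ u * hz1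
      rw [e2, sub_add_cancel]
    conv_lhs => rw [← h1]
    exact Rinv (R := r) γ _
  let D : Module.End K V → Module.End K V := fun Z => r γ * Z * r γ⁻¹ - Z
  have hDmem : ∀ Z ∈ 𝔥, D Z ∈ 𝔥 := fun Z hZ => 𝔥.sub_mem (hconj γ Z hZ) hZ
  have hD : ∀ (Z : Module.End K V) (u : V), D Z u =
      φ (Z u) • v - (z * φ u) • Z v - (z * φ u * φ (Z v)) • v := by
    intro Z u
    show r γ (Z (r γ⁻¹ u)) - Z u = _
    rw [hinv, map_smul, hγ, map_sub, map_smul, map_smul, map_sub, map_smul, smul_add, smul_smul,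
      mul_inv_cancel₀ hc, one_smul, smul_smul, smul_eq_mul, smul_eq_mul, ← mul_assoc,
      mul_inv_cancel₀ hc, one_mul, sub_smul]
    abel
  have hT : ∀ X ∈ 𝔥, (φ.smulRight (t • X v - φ (X v) • v) : Module.End K V) ∈ 𝔥 := by
    intro X hX
    have h1 : D (D X) - t • D X ∈ 𝔥 :=
      𝔥.sub_mem (hDmem _ (hDmem _ hX)) (𝔥.smul_mem _ (hDmem _ hX))
    have h3 : z * (1 + z) ≠ 0 := by
      refine mul_ne_zero hz0 fun h => h2 ?_
      have h4 : (1 + z) * (1 + t) = 0 := by rw [h, zero_mul]
      linear_combination h4 - hz1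
    have h4 : D (D X) - t • D X = (z * (1 + z)) • φ.smulRight (t • X v - φ (X v) • v) := by
      ext u
      rw [LinearMap.sub_apply, LinearMap.smul_apply, LinearMap.smul_apply,
        LinearMap.smulRight_apply]
      have hE : ∀ u, D X u = φ (X u) • v - (z * φ u) • X v - (z * φ u * φ (X v)) • v := hD X
      have hEv : φ (D X v) = 0 := by
        rw [hE, map_sub, map_sub, map_smul, map_smul, map_smul, ← ht, smul_eq_mul, smul_eq_mul,
          smul_eq_mul]
        linear_combination -(φ (X v) * t) * hz1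
      rw [hD (D X) u, hEv, mul_zero, zero_smul, sub_zero]
      have hEu : φ (D X u) = φ (X u) * t - z * φ u * φ (X v) - z * φ u * φ (X v) * t := by
        rw [hE, map_sub, map_sub, map_smul, map_smul, map_smul, ← ht, smul_eq_mul, smul_eq_mul,
          smul_eq_mul]
      rw [hEu, hE v, hE u, ← ht]
      have e1 : (φ (X u) * t - z * φ u * φ (X v) - z * φ u * φ (X v) * t) • v -
          (z * φ u) • (φ (X v) • v - (z * t) • X v - (z * t * φ (X v)) • v) -
          t • (φ (X u) • v - (z * φ u) • X v - (z * φ u * φ (X v)) • v) =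
          (φ u * (z * z * t + t * z)) • X v +
          (φ u * φ (X v) * (- z - z + z * z * t)) • v := by
        module
      rw [e1]
      have e2 : z * z * t + t * z = z * (1 + z) * t := by ring
      have e3 : -z - z + z * z * t = -(z * (1 + z)) := by linear_combination z * hz1
      rw [e2, e3]
      module
    rw [h4] at h1
    have h5 := 𝔥.smul_mem (z * (1 + z))⁻¹ h1
    rwa [smul_smul, inv_mul_cancel₀ h3, one_smul] at h5
  by_cases hcase : ∃ X ∈ 𝔥, t • X v - φ (X v) • v ≠ 0
  · obtain ⟨X, hX, hX0⟩ := hcase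
    refine ⟨_, φ, hX0, hφ, ?_, hT X hX⟩
    rw [map_sub, map_smul, map_smul, ← ht, smul_eq_mul, smul_eq_mul, mul_comm, sub_self]
  push Not at hcase
  have ht0 : t = 0 := by
    by_contra ht0
    refine hce v hv fun X hX => ⟨t⁻¹ * φ (X v), ?_⟩
    have h1 := sub_eq_zero.1 (hcase X hX)
    rw [mul_smul, ← h1, smul_smul, inv_mul_cancel₀ ht0, one_smul]
  have hX0 : ∀ X ∈ 𝔥, φ (X v) = 0 := by
    intro X hX
    have h1 := hcase X hX
    rw [ht0, zero_smul, zero_sub, neg_eq_zero] at h1
    exact (smul_eq_zero.1 h1).resolve_right hv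
  have hzone : z = 1 := by rw [hz, ht0, add_zero, inv_one]
  -- the normalizer
  let 𝔫 : Submodule K (Module.End K V) :=
    { carrier := {Y | ∀ X ∈ 𝔥, Y * X - X * Y ∈ 𝔥}
      zero_mem' := fun X _ => by rw [zero_mul, mul_zero, sub_self]; exact 𝔥.zero_mem
      add_mem' := fun {Y Z} hY hZ X hX => by
        have h1 : (Y + Z) * X - X * (Y + Z) = (Y * X - X * Y) + (Z * X - X * Z) := by
          rw [add_mul, mul_add]
          abel
        rw [h1]
        exact 𝔥.add_mem (hY X hX) (hZ X hX)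
      smul_mem' := fun a Y hY X hX => by
        have h1 : (a • Y) * X - X * (a • Y) = a • (Y * X - X * Y) := by
          rw [smul_mul_assoc, mul_smul_comm, smul_sub]
        rw [h1]
        exact 𝔥.smul_mem a (hY X hX) }
  have hmemn : ∀ Y, Y ∈ 𝔫 ↔ ∀ X ∈ 𝔥, Y * X - X * Y ∈ 𝔥 := fun Y => Iff.rfl
  have hN : (φ.smulRight v : Module.End K V) ∈ 𝔫 := by
    rw [hmemn]
    intro X hX
    have h1 := hDmem X hX
    have h3 : D X = φ.smulRight v * X - X * φ.smulRight v := by
      ext u
      rw [hD, hX0 X hX, hzone, mul_zero, zero_smul, sub_zero, one_mul, LinearMap.sub_apply,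
        Module.End.mul_apply, Module.End.mul_apply, LinearMap.smulRight_apply,
        LinearMap.smulRight_apply, map_smul]
    rw [← h3]
    exact h1
  have hnbr : ∀ Y ∈ 𝔫, ∀ Z ∈ 𝔫, Y * Z - Z * Y ∈ 𝔫 := by
    intro Y hY Z hZ
    rw [hmemn]
    intro X hX
    have h1 : (Y * Z - Z * Y) * X - X * (Y * Z - Z * Y) =
        (Y * (Z * X - X * Z) - (Z * X - X * Z) * Y) -
        (Z * (Y * X - X * Y) - (Y * X - X * Y) * Z) := by
      noncomm_ring
    rw [h1]
    exact 𝔥.sub_mem (hY _ (hZ X hX)) (hZ _ (hY X hX))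
  have hrr : ∀ s : G, r s * r s⁻¹ = 1 := by
    intro s
    rw [← map_mul, mul_inv_cancel, map_one]
  have hrr' : ∀ s : G, r s⁻¹ * r s = 1 := by
    intro s
    rw [← map_mul, inv_mul_cancel, map_one]
  have hnconj : ∀ s : G, ∀ Y ∈ 𝔫, r s * Y * r s⁻¹ ∈ 𝔫 := by
    intro s Y hY
    rw [hmemn]
    intro X hX
    have h1 : r s⁻¹ * X * r s ∈ 𝔥 := by
      have h3 := hconj s⁻¹ X hX
      rwa [inv_inv] at h3
    have h3 := hconj s _ (hY _ h1)
    have h4 : r s * Y * r s⁻¹ * X - X * (r s * Y * r s⁻¹) =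
        r s * (Y * (r s⁻¹ * X * r s) - (r s⁻¹ * X * r s) * Y) * r s⁻¹ := by
      rw [mul_sub, sub_mul]
      congr 1
      · calc r s * Y * r s⁻¹ * X = r s * Y * r s⁻¹ * X * 1 := by rw [mul_one]
          _ = r s * Y * r s⁻¹ * X * (r s * r s⁻¹) := by rw [hrr]
          _ = _ := by noncomm_ring
      · calc X * (r s * Y * r s⁻¹) = 1 * X * (r s * Y * r s⁻¹) := by rw [one_mul]
          _ = (r s * r s⁻¹) * X * (r s * Y * r s⁻¹) := by rw [hrr]
          _ = _ := by noncomm_ring
    rw [h4]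
    exact h3
  -- a family over the one point set
  let 𝔫' : Submodule K (Unit → Module.End K V) := 𝔫.comap (LinearMap.proj ())
  have hfam : LieFam (I := Unit) (E := fun _ => V) (fun _ => r) 𝔫' :=
    ⟨fun X hX Y hY => hnbr _ hX _ hY, fun g X hX => hnconj g _ hX⟩
  have hsys := sys_one hfam ()
  have hPiff : ∀ (u : V) (ψ : Dual K V), (ψ u = 0 ∧ ∃ X ∈ 𝔫', X () = ψ.smulRight u) ↔
      (ψ u = 0 ∧ (ψ.smulRight u : Module.End K V) ∈ 𝔫) := by
    intro u ψ
    constructor
    · rintro ⟨h1, X, hX, hX'⟩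
      refine ⟨h1, ?_⟩
      rw [← hX']
      exact hX
    · rintro ⟨h1, h3⟩
      exact ⟨h1, fun _ => ψ.smulRight u, h3, rfl⟩
  -- an element of the normalizer and an element of `𝔥` which does not commute with it
  have hkey : ∀ (u : V) (ψ : Dual K V), ψ u = 0 → (ψ.smulRight u : Module.End K V) ∈ 𝔫 →
      ∀ X ∈ 𝔥, ψ (X u) ≠ 0 → (ψ.smulRight u : Module.End K V) ∈ 𝔥 := by
    intro u ψ hψ hM X hX hne
    have h1 := hM _ (hM X hX)
    rw [double_bracket _ X rfl hψ] at h1
    have h3 : -2 * ψ (X u) ≠ 0 := mul_ne_zero h20 hne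
    have h4 := 𝔥.smul_mem (-2 * ψ (X u))⁻¹ h1
    rwa [smul_smul, inv_mul_cancel₀ h3, one_smul] at h4
  rcases main hsys hirr ⟨v, φ, hv, hφ, (hPiff v φ).2 ⟨ht0, hN⟩⟩ with
    ⟨-, hall⟩ | ⟨β, -, halt, hinj, hP, -⟩
  · -- all nilpotent operators of rank one
    obtain ⟨X, hX, hXn⟩ := hns
    obtain ⟨w, hw⟩ : ∃ w : V, LinearIndependent K ![w, X w] := by
      by_contra hcon
      push Not at hcon
      obtain ⟨a, ha⟩ := LinearMap.exists_eq_smul_id_of_forall_notLinearIndependent hcon
      exact hXn ⟨a, fun u => by rw [ha]; rfl⟩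
    have hw0 : w ≠ 0 := hw.ne_zero 0
    obtain ⟨ψ, hψ0, hψ1⟩ : ∃ ψ : Dual K V, ψ w = 0 ∧ ψ (X w) = 1 := by
      have h1 : X w ∉ Submodule.span K {w} := by
        intro h
        obtain ⟨a, ha⟩ := Submodule.mem_span_singleton.1 h
        rw [LinearIndependent.pair_iff] at hw
        have h3 := hw a (-1) (by rw [ha, neg_smul, one_smul, add_neg_cancel])
        exact neg_ne_zero.2 one_ne_zero h3.2
      obtain ⟨f, hf1, hf2⟩ := Submodule.exists_dual_map_eq_bot_of_notMem h1 inferInstance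
      refine ⟨(f (X w))⁻¹ • f, ?_, ?_⟩
      · have h3 : f w ∈ (Submodule.span K {w}).map f :=
          ⟨w, Submodule.mem_span_singleton_self w, rfl⟩
        rw [hf2, Submodule.mem_bot] at h3
        rw [LinearMap.smul_apply, h3, smul_zero]
      · rw [LinearMap.smul_apply, smul_eq_mul, inv_mul_cancel₀ hf1]
    refine ⟨w, ψ, hw0, ?_, hψ0, ?_⟩
    · rintro rfl
      simp at hψ1
    · exact hkey w ψ hψ0 ((hPiff w ψ).1 (hall w ψ hψ0)).2 X hX (by rw [hψ1]; exact one_ne_zero)
  · by_cases hex : ∃ u : V, ∃ X ∈ 𝔥, β u (X u) ≠ 0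
    · obtain ⟨u, X, hX, hne⟩ := hex
      have hu0 : u ≠ 0 := by
        rintro rfl
        rw [map_zero] at hne
        exact hne rfl
      have hβ0 : β u ≠ 0 := by
        intro h
        rw [h] at hne
        exact hne rfl
      exact ⟨u, β u, hu0, hβ0, halt u, hkey u (β u) (halt u) ((hPiff u _).1 (hP u)).2 X hX hne⟩
    · push Not at hex
      exfalso
      have hskew : ∀ u w, β u w = -β w u := by
        intro u w
        have h1 := halt (u + w)
        simp only [map_add, LinearMap.add_apply, halt, zero_add, add_zero] at h1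
        linear_combination h1
      have hsp : ∀ X ∈ 𝔥, ∀ u w, β u (X w) = β (X u) w := by
        intro X hX u w
        have h1 := hex (u + w) X hX
        simp only [map_add, LinearMap.add_apply, hex _ X hX, zero_add, add_zero] at h1
        have h3 := hskew (X u) w
        linear_combination h1 - h3
      have hcomm : ∀ X ∈ 𝔥, ∀ Y ∈ 𝔥, X * Y = Y * X := by
        intro X hX Y hY
        rw [← sub_eq_zero]
        ext u
        apply hinj
        rw [LinearMap.zero_apply, map_zero]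
        ext w
        have h1 := hsp _ (hbr X hX Y hY) u w
        have h3 : β u ((X * Y - Y * X) w) = -β ((X * Y - Y * X) u) w := by
          rw [LinearMap.sub_apply, LinearMap.sub_apply, map_sub, map_sub, LinearMap.sub_apply,
            Module.End.mul_apply, Module.End.mul_apply, Module.End.mul_apply,
            Module.End.mul_apply, hsp X hX, hsp Y hY, hsp Y hY, hsp X hX]
          ring
        rw [h3] at h1
        rw [LinearMap.zero_apply]
        have h4 : (2 : K) * β ((X * Y - Y * X) u) w = 0 := by linear_combination -h1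
        exact (mul_eq_zero.1 h4).resolve_left two_ne_zero
      obtain ⟨d, -, hd0, hde⟩ := common_eig 𝔥 hcomm _ ⊤ rfl hnt (fun _ _ _ _ => trivial)
      exact hce d hd0 hde

end Pool.Agent.W5h27.UN
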