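import Pool.Agent.W5h27.UN.Defs

/-!
# The special linear Lie algebra is a core
-/

set_option autoImplicit false

namespace Pool.Agent.W5h27.UN

open Module

section sl

variable {K : Type} [Field K] {V : Type} [AddCommGroup V] [Module K V]

theorem sl_r_apply (φ : Dual K V) (u x : V) : (φ.smulRight u : Module.End K V) x = φ x • u := rfl

/-- every operator is, modulo nilpotent operators of rank one, a multiple of a fixed one -/
theorem sl_mem_span (φ0 : Dual K V) (u0 : V) (h0 : φ0 u0 = 1) (S : Submodule K (Module.End K V))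
    (hS : ∀ (u : V) (φ : Dual K V), φ u = 0 → (φ.smulRight u : Module.End K V) ∈ S) (φ : Dual K V) (u : V) :
    (φ.smulRight u : Module.End K V) - φ u • (φ0.smulRight u0 : Module.End K V) ∈ S := by
  obtain ⟨α, hα⟩ : ∃ α, α = φ0 u := ⟨_, rfl⟩
  obtain ⟨β, hβ⟩ : ∃ β, β = φ u0 := ⟨_, rfl⟩
  obtain ⟨u1, hu1⟩ : ∃ u1, u1 = u - α • u0 := ⟨_, rfl⟩
  obtain ⟨φ1, hφ1⟩ : ∃ φ1, φ1 = φ - β • φ0 := ⟨_, rfl⟩
  have e1 : φ0 u1 = 0 := by
    rw [hu1, map_sub, map_smul, h0, smul_eq_mul, mul_one, hα, sub_self]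
  have e2 : φ1 u0 = 0 := by
    rw [hφ1, LinearMap.sub_apply, LinearMap.smul_apply, h0, smul_eq_mul, mul_one, hβ, sub_self]
  obtain ⟨c, hc⟩ : ∃ c, c = φ1 u1 := ⟨_, rfl⟩
  have e3 : (φ1 + φ0) (u1 - c • u0) = 0 := by
    rw [LinearMap.add_apply, map_sub, map_sub, map_smul, map_smul, e1, e2, h0, ← hc]
    simp
  have hφu : φ u = c + α * β := by
    have e4 : u = u1 + α • u0 := by rw [hu1]; abel
    have e5 : φ = φ1 + β • φ0 := by rw [hφ1]; abel
    rw [e4, e5, map_add, map_smul, LinearMap.add_apply, LinearMap.add_apply, LinearMap.smul_apply,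
      LinearMap.smul_apply, e1, e2, h0, ← hc]
    simp
  have key : (φ.smulRight u : Module.End K V) - φ u • (φ0.smulRight u0 : Module.End K V) =
      ((φ1 + φ0).smulRight (u1 - c • u0) : Module.End K V) + (c + α) • (φ1.smulRight u0 : Module.End K V) +
        (β - 1) • (φ0.smulRight u1 : Module.End K V) := by
    refine LinearMap.ext fun x => ?_
    rw [hφu]
    simp only [LinearMap.sub_apply, LinearMap.add_apply, LinearMap.smul_apply, sl_r_apply, hφ1, hu1,
      smul_eq_mul]
    module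
  rw [key]
  exact S.add_mem (S.add_mem (hS _ _ e3) (S.smul_mem _ (hS _ _ e2))) (S.smul_mem _ (hS _ _ e1))

variable [FiniteDimensional K V]

theorem sl_ker_le (S : Submodule K (Module.End K V))
    (hS : ∀ (u : V) (φ : Dual K V), φ u = 0 → (φ.smulRight u : Module.End K V) ∈ S) :
    LinearMap.ker (LinearMap.trace K V) ≤ S := by
  intro Y hY
  rw [LinearMap.mem_ker] at hY
  rcases subsingleton_or_nontrivial V with hV | hV
  · have : Y = 0 := LinearMap.ext fun x => Subsingleton.elim _ _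
    rw [this]
    exact S.zero_mem
  obtain ⟨u0, hu0⟩ := exists_ne (0 : V)
  obtain ⟨φ', hφ'⟩ : ∃ φ : Dual K V, φ u0 ≠ 0 := by
    by_contra hcon
    push Not at hcon
    exact hu0 ((forall_dual_apply_eq_zero_iff K u0).1 hcon)
  set φ0 : Dual K V := (φ' u0)⁻¹ • φ' with hφ0
  have h0 : φ0 u0 = 1 := by
    rw [hφ0, LinearMap.smul_apply, smul_eq_mul, inv_mul_cancel₀ hφ']
  let b := finBasis K V
  have h1 : Y = ∑ j, ((b.coord j).smulRight (Y (b j)) : Module.End K V) := by
    refine b.ext fun i => ?_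
    rw [LinearMap.sum_apply, Finset.sum_eq_single i]
    · rw [sl_r_apply, b.coord_apply, b.repr_self, Finsupp.single_eq_same, one_smul]
    · intro j _ hj
      rw [sl_r_apply, b.coord_apply, b.repr_self, Finsupp.single_eq_of_ne hj, zero_smul]
    · intro h
      exact absurd (Finset.mem_univ i) h
  have h2 : ∑ j, (b.coord j) (Y (b j)) = 0 := by
    rw [← hY]
    conv_rhs => rw [h1]
    rw [map_sum]
    exact Finset.sum_congr rfl fun j _ => (LinearMap.trace_smulRight _ _).symm
  have h3 : Y = ∑ j, (((b.coord j).smulRight (Y (b j)) : Module.End K V) -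
      (b.coord j) (Y (b j)) • (φ0.smulRight u0 : Module.End K V)) := by
    rw [Finset.sum_sub_distrib, ← Finset.sum_smul, h2, zero_smul, sub_zero]
    exact h1
  rw [h3]
  exact S.sum_mem fun j _ => sl_mem_span φ0 u0 h0 S hS _ _

omit [FiniteDimensional K V] in
theorem sl_dual_ne {v : V} (hv : v ≠ 0) : ∃ ψ : Dual K V, ψ v = 1 := by
  obtain ⟨φ', hφ'⟩ : ∃ φ : Dual K V, φ v ≠ 0 := by
    by_contra hcon
    push Not at hcon
    exact hv ((forall_dual_apply_eq_zero_iff K v).1 hcon)
  refine ⟨(φ' v)⁻¹ • φ', ?_⟩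
  rw [LinearMap.smul_apply, smul_eq_mul, inv_mul_cancel₀ hφ']

variable [CharZero K]

/-- the traceless part -/
theorem sl_decomp (h2 : 2 ≤ finrank K V) (Y : Module.End K V) :
    ∃ (Y0 : Module.End K V) (t : K), Y0 ∈ LinearMap.ker (LinearMap.trace K V) ∧ Y = Y0 + t • 1 := by
  have hn : ((finrank K V : ℕ) : K) ≠ 0 := Nat.cast_ne_zero.2 (by omega)
  refine ⟨Y - (LinearMap.trace K V Y / (finrank K V : K)) • 1, LinearMap.trace K V Y / (finrank K V : K), ?_, by abel⟩
  rw [LinearMap.mem_ker, map_sub, map_smul, LinearMap.trace_one, smul_eq_mul, div_mul_cancel₀ _ hn, sub_self]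

theorem sl_simple (h2 : 2 ≤ finrank K V) (𝔠 : Submodule K (Module.End K V))
    (h1 : 𝔠 ≤ LinearMap.ker (LinearMap.trace K V))
    (hbr : ∀ Y ∈ LinearMap.ker (LinearMap.trace K V), ∀ Z ∈ 𝔠, Y * Z - Z * Y ∈ 𝔠) (hne : 𝔠 ≠ ⊥) :
    𝔠 = LinearMap.ker (LinearMap.trace K V) := by
  have hall : ∀ Y : Module.End K V, ∀ Z ∈ 𝔠, Y * Z - Z * Y ∈ 𝔠 := by
    intro Y Z hZ
    obtain ⟨Y0, t, h3, rfl⟩ := sl_decomp h2 Y
    have h4 : (Y0 + t • 1) * Z - Z * (Y0 + t • 1) = Y0 * Z - Z * Y0 := by
      rw [add_mul, mul_add, smul_mul_assoc, mul_smul_comm, one_mul, mul_one]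
      abel
    rw [h4]
    exact hbr _ h3 _ hZ
  refine le_antisymm h1 (sl_ker_le 𝔠 fun v φ hφv => ?_)
  by_contra hN
  have hv : v ≠ 0 := by
    rintro rfl
    apply hN
    have : (φ.smulRight (0 : V) : Module.End K V) = 0 := LinearMap.ext fun x => smul_zero _
    rw [this]
    exact 𝔠.zero_mem
  have hφ : φ ≠ 0 := by
    rintro rfl
    apply hN
    have : ((0 : Dual K V).smulRight v : Module.End K V) = 0 := LinearMap.ext fun x => zero_smul _ _
    rw [this]
    exact 𝔠.zero_mem
  -- (1)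
  have s1 : ∀ Z ∈ 𝔠, φ (Z v) = 0 := by
    intro Z hZ
    by_contra hcon
    apply hN
    have h3 := hall (φ.smulRight v) _ (hall (φ.smulRight v) Z hZ)
    have h4 : (φ.smulRight v : Module.End K V) * ((φ.smulRight v : Module.End K V) * Z - Z * (φ.smulRight v : Module.End K V)) -
        ((φ.smulRight v : Module.End K V) * Z - Z * (φ.smulRight v : Module.End K V)) * (φ.smulRight v : Module.End K V) =
        (-2 * φ (Z v)) • (φ.smulRight v : Module.End K V) := by
      refine LinearMap.ext fun x => ?_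
      simp only [LinearMap.sub_apply, Module.End.mul_apply, LinearMap.smul_apply, sl_r_apply, map_sub, map_smul,
        hφv]
      module
    rw [h4] at h3
    have h5 : (-2 * φ (Z v)) ≠ 0 := mul_ne_zero (by norm_num) hcon
    have h6 := 𝔠.smul_mem (-2 * φ (Z v))⁻¹ h3
    rwa [smul_smul, inv_mul_cancel₀ h5, one_smul] at h6
  obtain ⟨w, hw⟩ : ∃ w, φ w ≠ 0 := by
    by_contra hcon
    push Not at hcon
    exact hφ (LinearMap.ext hcon)
  -- (2)
  have s2 : ∀ Z ∈ 𝔠, ∃ c : K, Z v = c • v := by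
    intro Z hZ
    refine ⟨(φ w)⁻¹ * φ (Z w), ?_⟩
    rw [← sub_eq_zero, ← forall_dual_apply_eq_zero_iff K]
    intro ψ
    have h3 := s1 _ (hall (ψ.smulRight w) Z hZ)
    simp only [LinearMap.sub_apply, Module.End.mul_apply, sl_r_apply, map_sub, map_smul, smul_eq_mul] at h3
    rw [map_sub, map_smul, smul_eq_mul]
    have h4 : ψ (Z v) * φ w = ψ v * φ (Z w) := by linear_combination h3
    field_simp
    linear_combination h4
  obtain ⟨ψ0, hψ0⟩ := sl_dual_ne (K := K) hv
  -- (3)
  have s3 : ∀ Z ∈ 𝔠, ∀ x, ∃ k : K, Z x = k • v := by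
    intro Z hZ
    obtain ⟨c, hc⟩ := s2 Z hZ
    have h3 : ∀ x, Z x = c • x + (ψ0 (Z x) - c * ψ0 x) • v := by
      intro x
      obtain ⟨c', hc'⟩ := s2 _ (hall (ψ0.smulRight x) Z hZ)
      simp only [LinearMap.sub_apply, Module.End.mul_apply, sl_r_apply, map_smul, hc, hψ0,
        one_smul] at hc'
      have h4 : Z x = c • x - c' • v := by
        rw [← hc']
        abel
      have h5 : ψ0 (Z x) - c * ψ0 x = - c' := by
        rw [h4, map_sub, map_smul, map_smul, hψ0]
        simp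
      rw [h5, h4, neg_smul]
      abel
    have h6 : Z = c • (1 : Module.End K V) + ((ψ0.comp Z - c • ψ0).smulRight v : Module.End K V) := by
      refine LinearMap.ext fun x => ?_
      rw [LinearMap.add_apply, LinearMap.smul_apply, Module.End.one_apply, sl_r_apply]
      exact h3 x
    have h7 : LinearMap.trace K V Z = 0 := h1 hZ
    rw [h6, map_add, map_smul, LinearMap.trace_one, LinearMap.trace_smulRight] at h7
    have h8 : (ψ0.comp Z - c • ψ0) v = 0 := by
      show ψ0 (Z v) - c • ψ0 v = 0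
      rw [hc, map_smul, sub_self]
    rw [h8, add_zero, smul_eq_mul] at h7
    have h9 : c = 0 := by
      rcases mul_eq_zero.1 h7 with h | h
      · exact h
      · exact absurd h (Nat.cast_ne_zero.2 (by omega))
    intro x
    refine ⟨ψ0 (Z x) - c * ψ0 x, ?_⟩
    conv_lhs => rw [h3 x]
    rw [h9, zero_smul, zero_add]
  obtain ⟨Z, hZ, hZ0⟩ := (Submodule.ne_bot_iff _).1 hne
  obtain ⟨x1, hx1⟩ : ∃ x, Z x ≠ 0 := by
    by_contra hcon
    push Not at hcon
    exact hZ0 (LinearMap.ext hcon)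
  obtain ⟨y, hy⟩ : ∃ y : V, ∀ k : K, y ≠ k • v := by
    by_contra hcon
    push Not at hcon
    have h3 : finrank K V ≤ 1 := finrank_le_one v fun w => by
      obtain ⟨k, hk⟩ := hcon w
      exact ⟨k, hk.symm⟩
    omega
  obtain ⟨k1, hk1⟩ := s3 Z hZ x1
  obtain ⟨k2, hk2⟩ := s3 Z hZ y
  obtain ⟨k3, hk3⟩ := s3 _ (hall (ψ0.smulRight y) Z hZ) x1
  simp only [LinearMap.sub_apply, Module.End.mul_apply, sl_r_apply, map_smul, hk1, hk2, hψ0,
    one_smul] at hk3
  have hk1' : k1 ≠ 0 := by
    rintro rfl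
    apply hx1
    rw [hk1, zero_smul]
  refine hy (k1⁻¹ * (k3 + ψ0 x1 * k2)) ?_
  have h3 : k1 • y = (k3 + ψ0 x1 * k2) • v := by
    rw [add_smul, ← hk3, mul_smul]
    abel
  rw [mul_smul, ← h3, smul_smul, inv_mul_cancel₀ hk1', one_smul]

theorem sl_ext (h2 : 2 ≤ finrank K V) (N : Module.End K V) (hN : N ∈ LinearMap.ker (LinearMap.trace K V))
    (hex : ∀ Y ∈ LinearMap.ker (LinearMap.trace K V), ∃ c : K, N * (N * Y - Y * N) - (N * Y - Y * N) * N = c • N) :
    N * N = 0 := by
  have hall : ∀ Y : Module.End K V, ∃ c : K, N * (N * Y - Y * N) - (N * Y - Y * N) * N = c • N := by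
    intro Y
    obtain ⟨Y0, t, h3, rfl⟩ := sl_decomp h2 Y
    obtain ⟨c, hc⟩ := hex Y0 h3
    refine ⟨c, ?_⟩
    have h4 : N * (Y0 + t • 1) - (Y0 + t • 1) * N = N * Y0 - Y0 * N := by
      rw [add_mul, mul_add, smul_mul_assoc, mul_smul_comm, one_mul, mul_one]
      abel
    rw [h4, hc]
  have hn : ((finrank K V : ℕ) : K) ≠ 0 := Nat.cast_ne_zero.2 (by omega)
  have htr : LinearMap.trace K V N = 0 := hN
  by_cases hsc : ∀ v, ∃ k : K, N v = k • v
  · -- scalar
    obtain ⟨a, ha⟩ : ∃ a : K, ∀ v, N v = a • v := by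
      obtain ⟨v0, hv0⟩ : ∃ v : V, v ≠ 0 := by
        have : Nontrivial V := nontrivial_of_finrank_pos (R := K) (by omega)
        exact exists_ne 0
      obtain ⟨a, ha⟩ := hsc v0
      refine ⟨a, fun v => ?_⟩
      obtain ⟨k, hk⟩ := hsc v
      obtain ⟨k', hk'⟩ := hsc (v + v0)
      rw [map_add, hk, ha] at hk'
      by_cases hkk : k = k'
      · have h3 : (a - k') • v0 = 0 := by
          rw [hkk] at hk'
          rw [sub_smul]
          have : k' • v + a • v0 = k' • v + k' • v0 := by rw [hk', smul_add]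
          rw [add_left_cancel this, sub_self]
        rcases smul_eq_zero.1 h3 with h4 | h4
        · rw [hk, hkk, sub_eq_zero.1 h4]
        · exact absurd h4 hv0
      · have h3 : v = ((k - k')⁻¹ * (k' - a)) • v0 := by
          have h4 : (k - k') • v = (k' - a) • v0 := by
            rw [sub_smul, sub_smul]
            have : k • v + a • v0 = k' • v + k' • v0 := by rw [hk', smul_add]
            rw [sub_eq_sub_iff_add_eq_add, this]
            abel
          rw [mul_smul, ← h4, smul_smul, inv_mul_cancel₀ (sub_ne_zero.2 hkk), one_smul]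
        rw [h3, map_smul, ha, smul_comm]
    have h3 : N = a • (1 : Module.End K V) := LinearMap.ext ha
    rw [h3, map_smul, LinearMap.trace_one, smul_eq_mul] at htr
    rcases mul_eq_zero.1 htr with h4 | h4
    · rw [h3, h4, zero_smul, zero_mul]
    · exact absurd h4 hn
  push Not at hsc
  obtain ⟨v, hv⟩ := hsc
  obtain ⟨ψ, hψ1, hψ2⟩ : ∃ ψ : Dual K V, ψ v = 0 ∧ ψ (N v) = 1 := by
    have h3 : N v ∉ Submodule.span K {v} := by
      intro h
      obtain ⟨k, hk⟩ := Submodule.mem_span_singleton.1 h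
      exact hv k hk.symm
    obtain ⟨f, hf1, hf2⟩ := Submodule.exists_le_ker_of_notMem h3
    refine ⟨(f (N v))⁻¹ • f, ?_, ?_⟩
    · have : f v = 0 := hf2 (Submodule.mem_span_singleton_self v)
      rw [LinearMap.smul_apply, this, smul_zero]
    · rw [LinearMap.smul_apply, smul_eq_mul, inv_mul_cancel₀ hf1]
  set b := ψ (N (N v)) with hb
  have h3 : ∀ w, ∃ c : K, N w = (b / 2) • w + c • N v := by
    intro w
    obtain ⟨c, hc⟩ := hall (ψ.smulRight w)
    have h4 := LinearMap.congr_fun hc v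
    simp only [LinearMap.sub_apply, Module.End.mul_apply, LinearMap.smul_apply, sl_r_apply,
      hψ1, hψ2, ← hb, one_smul, zero_smul, map_zero, zero_sub, map_neg] at h4
    refine ⟨- (c / 2), ?_⟩
    have h5 : (2 : K) • N w = b • w - c • N v := by
      rw [← h4, two_smul]
      abel
    have h6 : N w = (2 : K)⁻¹ • ((2 : K) • N w) := by
      rw [smul_smul, inv_mul_cancel₀ two_ne_zero, one_smul]
    rw [h6, h5]
    module
  have h4 : ∀ w, N w = (b / 2) • w + (ψ (N w) - b / 2 * ψ w) • N v := by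
    intro w
    obtain ⟨c, hc⟩ := h3 w
    have h5 : ψ (N w) - b / 2 * ψ w = c := by
      rw [hc, map_add, map_smul, map_smul, hψ2]
      simp
    rw [h5]
    exact hc
  have h5 : N = (b / 2) • (1 : Module.End K V) + ((ψ.comp N - (b / 2) • ψ).smulRight (N v) : Module.End K V) := by
    refine LinearMap.ext fun x => ?_
    rw [LinearMap.add_apply, LinearMap.smul_apply, Module.End.one_apply, sl_r_apply]
    exact h4 x
  have h6 : (ψ.comp N - (b / 2) • ψ) (N v) = b / 2 := by
    show ψ (N (N v)) - (b / 2) • ψ (N v) = b / 2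
    rw [hψ2, ← hb, smul_eq_mul]
    ring
  have h7 := htr
  rw [h5, map_add, map_smul, LinearMap.trace_one, LinearMap.trace_smulRight, h6, smul_eq_mul] at h7
  have h8 : b = 0 := by
    have h9 : ((finrank K V : ℕ) : K) + 1 ≠ 0 := Nat.cast_add_one_ne_zero (finrank K V)
    have h10 : (((finrank K V : ℕ) : K) + 1) * b = 0 := by linear_combination 2 * h7
    rcases mul_eq_zero.1 h10 with h | h
    · exact absurd h h9
    · exact h
  rw [h8] at h4
  refine LinearMap.ext fun x => ?_
  show N (N x) = 0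
  rw [h4 (N x)]
  have h9 : ψ (N (N x)) = 0 := by
    have h10 := h4 x
    rw [zero_div, zero_smul, zero_add, zero_mul, sub_zero] at h10
    rw [h10, map_smul, map_smul, ← hb, h8, smul_zero]
  rw [h9]
  simp

end sl

/-- **The special linear Lie algebra is a core.** -/
theorem core_sl {K : Type} [Field K] [CharZero K] {V : Type} [AddCommGroup V] [Module K V]
    [FiniteDimensional K V] (h2 : 2 ≤ finrank K V) (𝔥 : Submodule K (Module.End K V))
    (hall : ∀ (u : V) (φ : Dual K V), φ u = 0 → (φ.smulRight u : Module.End K V) ∈ 𝔥) :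
    ∃ 𝔰, IsCore 𝔥 𝔰 := by
  refine ⟨LinearMap.ker (LinearMap.trace K V), ?_, ?_, ?_, ?_, ?_⟩
  · exact sl_ker_le 𝔥 hall
  · intro X _ Y _
    rw [LinearMap.mem_ker, map_sub, LinearMap.trace_mul_comm, sub_self]
  · intro 𝔠 h1 hbr hne
    exact sl_simple h2 𝔠 h1 hbr hne
  · intro N hN hex
    exact sl_ext h2 N hN hex
  · let b := finBasis K V
    let i0 : Fin (finrank K V) := ⟨0, by omega⟩
    let i1 : Fin (finrank K V) := ⟨1, by omega⟩
    have h01 : i0 ≠ i1 := by
      intro h
      have := congrArg Fin.val h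
      simp [i0, i1] at this
    have c00 : b.coord i0 (b i0) = 1 := by
      rw [b.coord_apply, b.repr_self, Finsupp.single_eq_same]
    have c11 : b.coord i1 (b i1) = 1 := by
      rw [b.coord_apply, b.repr_self, Finsupp.single_eq_same]
    have c01 : b.coord i0 (b i1) = 0 := by
      rw [b.coord_apply, b.repr_self, Finsupp.single_eq_of_ne h01]
    have c10 : b.coord i1 (b i0) = 0 := by
      rw [b.coord_apply, b.repr_self, Finsupp.single_eq_of_ne h01.symm]
    refine ⟨b i0, b.coord i1, c10, ?_, (b.coord i0).smulRight (b i1), ?_, ?_⟩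
    · rw [LinearMap.mem_ker, LinearMap.trace_smulRight, c10]
    · rw [LinearMap.mem_ker, LinearMap.trace_smulRight, c01]
    · rw [sl_r_apply, map_smul, c00, c11]
      simp

end Pool.Agent.W5h27.UN
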