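import Mathlib
import Pool.Agent.W5h27.UN.Ref

/-!
# A Lie algebra of operators on a plane contains a nilpotent operator of rank one
-/

set_option autoImplicit false

namespace Pool.Agent.W5h27.UN

open Module Pool.Agent.W522.U

section aux2

variable {K : Type} [Field K] {V : Type} [AddCommGroup V] [Module K V] [FiniteDimensional K V]

theorem basis_two (h2 : finrank K V = 2) {e f : V} (he : e ≠ 0) (hf : ∀ a : K, a • e ≠ f) :
    ∃ b : Basis (Fin 2) K V, b 0 = e ∧ b 1 = f := by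
  have hli : LinearIndependent K ![e, f] := (LinearIndependent.pair_iff' he).2 hf
  refine ⟨basisOfLinearIndependentOfCardEqFinrank hli (by rw [h2]; rfl), ?_, ?_⟩
  · simp
  · simp

theorem exists_notin (h2 : finrank K V = 2) (e : V) : ∃ f : V, ∀ a : K, a • e ≠ f := by
  by_contra hcon
  push Not at hcon
  have h1 : finrank K V ≤ 1 := finrank_le_one e hcon
  omega

theorem exp_two (b : Basis (Fin 2) K V) (v : V) : ∃ x y : K, v = x • b 0 + y • b 1 := by
  refine ⟨b.repr v 0, b.repr v 1, ?_⟩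
  conv_lhs => rw [← b.sum_repr v]
  rw [Fin.sum_univ_two]

theorem trace_two (b : Basis (Fin 2) K V) {Z : Module.End K V} {p q s t : K}
    (h0 : Z (b 0) = p • b 0 + q • b 1) (h1 : Z (b 1) = s • b 0 + t • b 1) :
    LinearMap.trace K V Z = p + t := by
  rw [LinearMap.trace_eq_matrix_trace K b, Matrix.trace_fin_two, LinearMap.toMatrix_apply,
    LinearMap.toMatrix_apply, h0, h1]
  simp

end aux2

theorem one_of_two {K : Type} [Field K] [CharZero K] [IsAlgClosed K] {V : Type} [AddCommGroup V]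
    [Module K V] [FiniteDimensional K V] {G : Type} [Group G] (r : Representation K G V)
    (hirr : Irr r) (𝔥 : Submodule K (Module.End K V))
    (hbr : ∀ X ∈ 𝔥, ∀ Y ∈ 𝔥, X * Y - Y * X ∈ 𝔥)
    (hconj : ∀ s : G, ∀ X ∈ 𝔥, r s * X * r s⁻¹ ∈ 𝔥)
    (hns : ∃ Y ∈ 𝔥, ¬∃ a : K, ∀ u, Y u = a • u) (h2 : finrank K V = 2) :
    ∃ (u : V) (ψ : Dual K V), u ≠ 0 ∧ ψ ≠ 0 ∧ ψ u = 0 ∧
      (ψ.smulRight u : Module.End K V) ∈ 𝔥 := by
  classical
  have hntV : Nontrivial V := Module.nontrivial_of_finrank_pos (R := K) (by omega)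
  have hnt : (⊤ : Submodule K V) ≠ ⊥ := top_ne_bot
  have hSI : SI r (⊤ : Submodule K V) := by
    refine ⟨hnt, pot_top, fun W _ hW => ?_⟩
    obtain ⟨Δ, hΔ, h1⟩ := hW
    exact hirr Δ hΔ W h1
  have hce : ∀ d : V, d ≠ 0 → (∀ Y ∈ 𝔥, ∃ a : K, Y d = a • d) → False := by
    intro d hd hde
    obtain ⟨Y, hY, hYn⟩ := hns
    obtain ⟨a, ha⟩ := Pool.Agent.TH118.CR.scalar_of_vector hSI 𝔥 hconj (Submodule.mem_top) hd hde Y hY
    exact hYn ⟨a, fun u => ha u Submodule.mem_top⟩
  obtain ⟨X, hX, Y, hY, hXY⟩ : ∃ X ∈ 𝔥, ∃ Y ∈ 𝔥, X * Y ≠ Y * X := by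
    by_contra hcon
    push Not at hcon
    obtain ⟨d, -, hd0, hde⟩ := common_eig 𝔥 hcon _ ⊤ rfl hnt (fun _ _ _ _ => trivial)
    exact hce d hd0 hde
  obtain ⟨Z, hZ⟩ : ∃ Z : Module.End K V, Z = X * Y - Y * X := ⟨_, rfl⟩
  have hZ𝔥 : Z ∈ 𝔥 := hZ ▸ hbr X hX Y hY
  have hZ0 : Z ≠ 0 := by rw [hZ]; exact sub_ne_zero.2 hXY
  have htr : LinearMap.trace K V Z = 0 := by
    rw [hZ, map_sub, LinearMap.trace_mul_comm, sub_self]
  obtain ⟨a, ha⟩ := Module.End.exists_eigenvalue Z
  obtain ⟨e, he'⟩ := ha.exists_hasEigenvector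
  have he0 : e ≠ 0 := he'.2
  have he : Z e = a • e := he'.apply_eq_smul
  obtain ⟨f, hf⟩ := exists_notin (K := K) h2 e
  obtain ⟨b, hb0, hb1⟩ := basis_two h2 he0 hf
  obtain ⟨β, d, hβ⟩ := exp_two b (Z f)
  rw [hb0, hb1] at hβ
  have hd : a + d = 0 := by
    rw [← htr]
    symm
    apply trace_two b (q := 0) (s := β)
    · rw [hb0, he, zero_smul, add_zero]
    · rw [hb0, hb1, hβ]
  have hd' : d = -a := by linear_combination hd
  subst hd'
  by_cases ha0 : a = 0
  · subst ha0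
    have hZf : Z f = β • e := by rw [hβ, neg_zero, zero_smul, add_zero]
    have hβ0 : β ≠ 0 := by
      rintro rfl
      apply hZ0
      apply b.ext
      intro i
      fin_cases i
      · change Z (b 0) = 0
        rw [hb0, he, zero_smul]
      · change Z (b 1) = 0
        rw [hb1, hZf, zero_smul]
    refine ⟨β • e, b.coord 1, smul_ne_zero hβ0 he0, ?_, ?_, ?_⟩
    · intro h
      have h1 : b.coord 1 (b 1) = 0 := by rw [h]; rfl
      simp at h1
    · rw [map_smul, ← hb0]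
      simp
    · have h1 : ((b.coord 1).smulRight (β • e) : Module.End K V) = Z := by
        apply b.ext
        intro i
        fin_cases i
        · change (b.coord 1).smulRight (β • e) (b 0) = Z (b 0)
          rw [LinearMap.smulRight_apply, hb0, he, ← hb0]
          simp
        · change (b.coord 1).smulRight (β • e) (b 1) = Z (b 1)
          rw [LinearMap.smulRight_apply, hb1, hZf, ← hb1]
          simp
      rw [h1]
      exact hZ𝔥
  -- the semisimple case
  obtain ⟨g, hg⟩ : ∃ g : V, g = f - (β / (2 * a)) • e := ⟨_, rfl⟩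
  have h2a : (2 * a : K) ≠ 0 := mul_ne_zero two_ne_zero ha0
  have hZg : Z g = -a • g := by
    rw [hg, map_sub, map_smul, he, hβ]
    have h1 : β = (β / (2 * a)) * (2 * a) := (div_mul_cancel₀ _ h2a).symm
    generalize β / (2 * a) = γ at h1
    subst h1
    module
  have hg' : ∀ c : K, c • e ≠ g := by
    intro c hc
    apply hf (c + β / (2 * a))
    rw [add_smul, hc, hg, sub_add_cancel]
  obtain ⟨b', hb0', hb1'⟩ := basis_two h2 he0 hg'
  obtain ⟨W, hW, hWe⟩ : ∃ W ∈ 𝔥, ∀ c : K, W e ≠ c • e := by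
    by_contra hcon
    push Not at hcon
    exact hce e he0 hcon
  obtain ⟨x, y, hxy⟩ := exp_two b' (W e)
  obtain ⟨x', y', hxy'⟩ := exp_two b' (W g)
  rw [hb0', hb1'] at hxy hxy'
  have hy : y ≠ 0 := by
    rintro rfl
    apply hWe x
    rw [hxy, zero_smul, add_zero]
  obtain ⟨B, hB⟩ : ∃ B : Module.End K V, B = Z * W - W * Z := ⟨_, rfl⟩
  have hB𝔥 : B ∈ 𝔥 := hB ▸ hbr Z hZ𝔥 W hW
  have hBe : B e = (-2 * a * y) • g := by
    rw [hB, LinearMap.sub_apply, Module.End.mul_apply, Module.End.mul_apply, he, map_smul, hxy,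
      map_add, map_smul, map_smul, he, hZg]
    module
  have hBg : B g = (2 * a * x') • e := by
    rw [hB, LinearMap.sub_apply, Module.End.mul_apply, Module.End.mul_apply, hZg, map_smul, hxy',
      map_add, map_smul, map_smul, he, hZg]
    module
  obtain ⟨T, hT⟩ : ∃ T : Module.End K V, T = (Z * B - B * Z) - (2 * a) • B := ⟨_, rfl⟩
  have hT𝔥 : T ∈ 𝔥 := by
    rw [hT]
    exact 𝔥.sub_mem (hbr Z hZ𝔥 B hB𝔥) (𝔥.smul_mem _ hB𝔥)
  have hTe : T e = (8 * a ^ 2 * y) • g := by
    rw [hT, LinearMap.sub_apply, LinearMap.sub_apply, LinearMap.smul_apply, Module.End.mul_apply,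
      Module.End.mul_apply, he, map_smul, hBe, map_smul, hZg]
    module
  have hTg : T g = 0 := by
    rw [hT, LinearMap.sub_apply, LinearMap.sub_apply, LinearMap.smul_apply, Module.End.mul_apply,
      Module.End.mul_apply, hZg, map_smul, hBg, map_smul, he]
    module
  have hg0 : g ≠ 0 := by
    intro h
    exact hg' 0 (by rw [zero_smul, h])
  have h8 : (8 * a ^ 2 * y : K) ≠ 0 := by
    refine mul_ne_zero (mul_ne_zero ?_ (pow_ne_zero _ ha0)) hy
    norm_num
  refine ⟨(8 * a ^ 2 * y) • g, b'.coord 0, smul_ne_zero h8 hg0, ?_, ?_, ?_⟩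
  · intro h
    have h1 : b'.coord 0 (b' 0) = 0 := by rw [h]; rfl
    simp at h1
  · rw [map_smul, ← hb1']
    simp
  · have h1 : ((b'.coord 0).smulRight ((8 * a ^ 2 * y) • g) : Module.End K V) = T := by
      apply b'.ext
      intro i
      fin_cases i
      · change (b'.coord 0).smulRight ((8 * a ^ 2 * y) • g) (b' 0) = T (b' 0)
        rw [LinearMap.smulRight_apply, hb0', hTe, ← hb0']
        simp
      · change (b'.coord 0).smulRight ((8 * a ^ 2 * y) • g) (b' 1) = T (b' 1)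
        rw [LinearMap.smulRight_apply, hb1', hTg, ← hb1']
        simp
    rw [h1]
    exact hT𝔥

end Pool.Agent.W5h27.UN
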