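import Mathlib
import Pool.Agent.Y144.MT.Core
import Pool.Agent.W5h27.UN.TwoDim
import Pool.Agent.W5h27.BR.FinalS
import Pool.Agent.W5h27.UN.Dich
import Pool.Agent.W5h27.UN.Sl
import Pool.Agent.W5h27.UN.Ref
import Pool.Agent.W5h27.UN.Gou

/-!
# Tate classes and pseudo-reflections
-/

set_option autoImplicit false
set_option linter.unusedSectionVars false

namespace Pool.Agent.W5h27.UN

open Module Pool.Agent.H204R3.SP Pool.Agent.H204R3.GP Pool.Agent.W522.U Pool.Agent.TH118.WC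
open Pool.Agent.TH118.CR Pool.Agent.TH118.CU Pool.Agent.W529.Ta Pool.Agent.W528.Odd
open Pool.Agent.W5h27.BR

/-- An irreducible Lie algebra with an operator of rank one and square zero has a simple core. -/
theorem exists_core {K : Type} [Field K] [CharZero K] {V : Type} [AddCommGroup V] [Module K V]
    [FiniteDimensional K V] {G : Type} [Group G] (r : Representation K G V) (hirr : Irr r)
    (𝔥 : Submodule K (Module.End K V)) (hbr : ∀ X ∈ 𝔥, ∀ Y ∈ 𝔥, X * Y - Y * X ∈ 𝔥)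
    (hconj : ∀ s : G, ∀ X ∈ 𝔥, r s * X * r s⁻¹ ∈ 𝔥)
    (hN : ∃ (u : V) (φ : Dual K V), u ≠ 0 ∧ φ ≠ 0 ∧ φ u = 0 ∧
      (φ.smulRight u : Module.End K V) ∈ 𝔥) : ∃ 𝔰, IsCore 𝔥 𝔰 := by
  rcases dich r hirr 𝔥 hbr hconj hN with ⟨h1, h2⟩ | ⟨om, h1, h2, h3, h4⟩
  · exact core_sl h1.le 𝔥 h2
  · obtain ⟨u, -, hu, -⟩ := hN
    exact core_sp om h1 h2 ⟨u, hu⟩ 𝔥 h3 h4

/-- The element `γ` of the group acts on `U` as a scalar `c` times a transformation `t` of `U`, the
square of which is not the identity. -/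
def ActsAs {K : Type} [Field K] {X : Type} [AddCommGroup X] [Module K X]
    {Γ : Type} [Group Γ] (R : Representation K Γ X) (U : Submodule K X) (γ : Γ) (c : K)
    (t : Module.End K X) : Prop :=
  (∀ u ∈ U, t u ∈ U ∧ R γ u = c • t u) ∧ ∃ u ∈ U, t (t u) ≠ u

/-- Either the dimension of `U` is two, or some element of the group acts on `U` as a scalar times a
pseudo-reflection or transvection `t` (`t - 1` has rank one), or the form is not zero on `U` and some
element of the group acts on `U` as a scalar times a symplectic transformation `t` with `t - 1` of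
rank at most two; `t ^ 2` is not the identity, and if `t ^ 3` is the identity in the last case
then the dimension of `U` is at least five. -/
def HasReflection {K : Type} [Field K] {X : Type} [AddCommGroup X] [Module K X]
    {Γ : Type} [Group Γ] (R : Representation K Γ X) (χ : Γ →* K) (ω : X →ₗ[K] X →ₗ[K] K)
    (U : Submodule K X) : Prop :=
  finrank K U = 2 ∨
  (∃ (γ : Γ) (c : K) (t : Module.End K X), ActsAs R U γ c t ∧ finrank K (U.map (t - 1)) = 1) ∨
  ((∃ u ∈ U, ∃ v ∈ U, ω u v ≠ 0) ∧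
    ∃ (γ : Γ) (c : K) (t : Module.End K X), ActsAs R U γ c t ∧ c ^ 2 = χ γ ∧
      finrank K (U.map (t - 1)) ≤ 2 ∧ ((∀ u ∈ U, t (t (t u)) = u) → 5 ≤ finrank K U))

variable {K : Type} [Field K] [CharZero K] {X : Type} [AddCommGroup X]
  [Module K X] [FiniteDimensional K X] {Γ : Type} [Group Γ] {R : Representation K Γ X}
  {χ : Γ →* K}

/-- An element with `t - 1` of rank one. -/
theorem refl_of_rank {U : Submodule K X} {γ : Γ} {c : K} {t : Module.End K X}
    (h : ActsAs R U γ c t) (hrk : finrank K (U.map (t - 1)) = 1) :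
    ∃ (v : U) (φ : Dual K U), (∀ u : U, R γ u = c • ((u + φ u • v : U) : X)) ∧
      v ≠ 0 ∧ φ ≠ 0 ∧ φ v ≠ -2 := by
  obtain ⟨ht, u0, hu0, hne⟩ := h
  obtain ⟨⟨v, hv⟩, hv0, hspan⟩ := finrank_eq_one_iff'.1 hrk
  have hsub : ∀ u ∈ U, (t - 1) u ∈ U := by
    intro u hu
    rw [LinearMap.sub_apply, Module.End.one_apply]
    exact U.sub_mem (ht u hu).1 hu
  have hvU : v ∈ U := by
    obtain ⟨x, hx, hxv⟩ := hv
    rw [← hxv]
    exact hsub x hx
  have hv0' : (⟨v, hvU⟩ : U) ≠ 0 := by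
    intro h
    apply hv0
    have h3 : v = 0 := congrArg (fun w : U => (w : X)) h
    exact Subtype.ext h3
  obtain ⟨f, hf⟩ : ∃ f : Dual K U, f ⟨v, hvU⟩ = 1 := by
    obtain ⟨f, hf⟩ : ∃ f : Dual K U, f ⟨v, hvU⟩ ≠ 0 := by
      by_contra h
      push Not at h
      exact hv0' ((Module.forall_dual_apply_eq_zero_iff K _).1 h)
    exact ⟨(f ⟨v, hvU⟩)⁻¹ • f, by
      rw [LinearMap.smul_apply, smul_eq_mul, inv_mul_cancel₀ hf]⟩
  let N : Module.End K U := (t - 1).restrict hsub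
  have hN : ∀ y : U, N y = f (N y) • (⟨v, hvU⟩ : U) := by
    intro y
    obtain ⟨c', hc'⟩ := hspan ⟨(t - 1) y, Submodule.mem_map_of_mem y.2⟩
    have h6 : c' • v = (t - 1) (y : X) := congrArg Subtype.val hc'
    have h7 : N y = c' • ⟨v, hvU⟩ := Subtype.ext h6.symm
    rw [h7, map_smul, hf, smul_eq_mul, mul_one]
  have hNt : ∀ u : U, ((u + N u : U) : X) = t u := by
    intro u
    have h4 : ((N u : U) : X) = t u - u := rfl
    rw [Submodule.coe_add, h4]
    abel
  have hN' : ∀ u : U, u + (f.comp N) u • (⟨v, hvU⟩ : U) = u + N u := by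
    intro u
    rw [LinearMap.comp_apply, ← hN]
  have key : ∀ u : U, t (t u) = ((u + ((f.comp N) u * (2 + (f.comp N) ⟨v, hvU⟩)) •
      (⟨v, hvU⟩ : U) : U) : X) := by
    intro u
    rw [← hNt u, ← hNt, ← hN', ← hN', map_add, map_smul, smul_eq_mul]
    congr 1
    module
  refine ⟨⟨v, hvU⟩, f.comp N, fun u => ?_, hv0', fun h => ?_, fun h => ?_⟩
  · rw [hN', hNt]
    exact (ht u u.2).2
  · apply hne
    have h3 := key ⟨u0, hu0⟩
    rw [h, LinearMap.zero_apply, zero_mul, zero_smul, add_zero] at h3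
    exact h3
  · apply hne
    have h3 := key ⟨u0, hu0⟩
    rw [h, add_neg_cancel, mul_zero, zero_smul, add_zero] at h3
    exact h3


theorem stb_st (R : Representation K Γ X) (U : Submodule K X) :
    ∀ g ∈ stb R U, ∀ u ∈ U, R g u ∈ U := fun _ hg => hg

section main

variable [IsAlgClosed K] (ω : X →ₗ[K] X →ₗ[K] K) (halt : ∀ v, ω v v = 0)
  (hnd : ∀ u, (∀ v, ω u v = 0) → u = 0)
  (hωR : ∀ g u v, ω (R g u) (R g v) = χ g * ω u v) (hss : HasProj R)

include hnd hωR hss in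
/-- The restrictions of the Lie algebra. -/
theorem img_data {U : Submodule K X} (hU : SI R U) :
    (∀ Z ∈ img (lieT R χ) U, ∀ Z' ∈ img (lieT R χ) U, Z * Z' - Z' * Z ∈ img (lieT R χ) U) ∧
    (∀ s : stb R U, ∀ Z ∈ img (lieT R χ) U, resR R (stb R U) U (stb_st R U) s * Z *
      resR R (stb R U) U (stb_st R U) s⁻¹ ∈ img (lieT R χ) U) ∧
    Irr (resR R (stb R U) U (stb_st R U)) ∧
    ((∃ Y ∈ lieT R χ, ¬∃ a : K, ∀ u ∈ U, Y u = a • u) →
      ∃ Z ∈ img (lieT R χ) U, ¬∃ a : K, ∀ u, Z u = a • u) := by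
  have hst : ∀ Y ∈ lieT R χ, ∀ u ∈ U, Y u ∈ U := fun Y hY => lieT_stable ω hnd hωR hss hU.2.1 hY
  obtain ⟨D, hD, hDU⟩ := id hU.2.1
  have hΔ : (stb R U).FiniteIndex :=
    Subgroup.finiteIndex_of_le (H := D) (fun g hg => hDU g hg)
  refine ⟨?_, ?_, sIrr_res hU _ hΔ _, ?_⟩
  · rintro Z ⟨Y, hY, hYZ⟩ Z' ⟨Y', hY', hYZ'⟩
    refine ⟨Y * Y' - Y' * Y, lieT_bracket R χ hY hY', fun x => ?_⟩
    rw [LinearMap.sub_apply, Module.End.mul_apply, Module.End.mul_apply, Submodule.coe_sub, hYZ,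
      hYZ', hYZ', hYZ]
    rfl
  · rintro s Z ⟨Y, hY, hYZ⟩
    refine ⟨R s * Y * R s⁻¹, lieT_conj R χ s.1 hY, fun x => ?_⟩
    rw [Module.End.mul_apply, Module.End.mul_apply, resR_apply, hYZ, resR_apply]
    rfl
  · rintro ⟨Y, hY, hna⟩
    refine ⟨Y.restrict (hst Y hY), ⟨Y, hY, fun x => rfl⟩, ?_⟩
    rintro ⟨a, ha⟩
    apply hna
    refine ⟨a, fun u hu => ?_⟩
    have h3 := congrArg Subtype.val (ha ⟨u, hu⟩)
    exact h3

include halt hnd hωR hss in
/-- The Lie algebra contains an operator which has rank one and square zero on `U`. -/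
theorem one_all {U : Submodule K X} (hU : SI R U) (h2 : 2 ≤ finrank K U)
    (hns0 : ∃ Y ∈ lieT R χ, ¬∃ a : K, ∀ u ∈ U, Y u = a • u) (hr : HasReflection R χ ω U) :
    ∃ (u : U) (ψ : Dual K U), u ≠ 0 ∧ ψ ≠ 0 ∧ ψ u = 0 ∧
      (ψ.smulRight u : Module.End K U) ∈ img (lieT R χ) U := by
  obtain ⟨hbr, hconj, hirr, hns⟩ := img_data ω hnd hωR hss hU
  have key : ∀ (γ : Γ) (c : K) (v : U) (φ : Dual K U),
      (∀ u : U, R γ u = c • ((u + φ u • v : U) : X)) → v ≠ 0 → φ ≠ 0 → φ v ≠ -2 →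
      ∃ (u : U) (ψ : Dual K U), u ≠ 0 ∧ ψ ≠ 0 ∧ ψ u = 0 ∧
        (ψ.smulRight u : Module.End K U) ∈ img (lieT R χ) U := by
    intro γ c v φ h3 h4 h5 h6
    have hγ : γ ∈ stb R U := by
      intro u hu
      have h7 := h3 ⟨u, hu⟩
      change R γ u ∈ U
      rw [h7]
      exact U.smul_mem _ (SetLike.coe_mem _)
    exact one_of_refl (resR R (stb R U) U (stb_st R U)) hirr (img (lieT R χ) U) hbr hconj
      (hns hns0) (γ := ⟨γ, hγ⟩) (c := c) (v := v) (φ := φ) (fun u => Subtype.ext (h3 u)) h4 h5 h6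
  rcases hr with hr | ⟨γ, c, t, h, hrk⟩ | ⟨h0, γ, c, t, ⟨ht, ht2⟩, hc, hrk, h5⟩
  · exact one_of_two (resR R (stb R U) U (stb_st R U)) hirr (img (lieT R χ) U) hbr hconj
      (hns hns0) hr
  · obtain ⟨v, φ, h3, h4, h5, h6⟩ := refl_of_rank h hrk
    exact key γ c v φ h3 h4 h5 h6
  · obtain ⟨-, hfull⟩ := full_resS ω halt hnd hωR hss hU h2 h0
      (fun _ => ⟨γ, c, t, hc, ht, hrk, ht2, h5⟩) hns0
    obtain ⟨u, hu, v, hv, huv⟩ := h0
    obtain ⟨N, hN, hNx⟩ := hfull u hu u hu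
    refine ⟨⟨u, hu⟩, (2 : K) • (ω u).comp U.subtype, ?_, ?_, ?_, N, hN, fun x => ?_⟩
    · intro h
      apply huv
      have h3 : u = 0 := congrArg Subtype.val h
      rw [h3, map_zero, LinearMap.zero_apply]
    · intro h
      apply huv
      have h3 := congrArg (fun f : Dual K U => f ⟨v, hv⟩) h
      simp only [LinearMap.smul_apply, LinearMap.comp_apply, Submodule.coe_subtype,
        LinearMap.zero_apply, smul_eq_mul] at h3
      exact (mul_eq_zero.1 h3).resolve_left two_ne_zero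
    · simp only [LinearMap.smul_apply, LinearMap.comp_apply, Submodule.coe_subtype, halt,
        smul_zero]
    · rw [hNx x x.2, LinearMap.smulRight_apply, Submodule.coe_smul]
      simp only [LinearMap.smul_apply, LinearMap.comp_apply, Submodule.coe_subtype, smul_eq_mul]
      module

variable {I : Type} {E : I → Submodule K X}

/-- Every strongly irreducible subspace is potentially isomorphic to a given one. -/
theorem exists_isoU (hss : HasProj R) (hE : ∀ i, SI R (E i)) (hEs : ⨆ i, E i = ⊤)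
    {U : Submodule K X} (hU : SI R U) : ∃ i, Tw R (fun _ => 1) U (E i) := by
  obtain ⟨Δ, hΔ, hst⟩ := hU.2.1
  obtain ⟨p, hp1, hp2, hp3⟩ := hss Δ hΔ U hst
  by_contra hcon
  push Not at hcon
  have h0 : ∀ i, ∀ u ∈ E i, p u = 0 := by
    intro i
    by_contra h1
    push Not at h1
    obtain ⟨u, hu, hu0⟩ := h1
    refine hcon i (Tw.symm1 (hE i) hU ⟨Δ, hΔ, p, fun u _ => hp1 u, ⟨u, hu, hu0⟩, ?_⟩)
    intro g hg u _
    rw [one_smul]
    exact hp3 g hg u
  have h1 : (⊤ : Submodule K X) ≤ LinearMap.ker p := by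
    rw [← hEs, iSup_le_iff]
    exact fun i u hu => h0 i u hu
  obtain ⟨u, hu, hu0⟩ := Submodule.exists_mem_ne_zero_of_ne_bot hU.1
  apply hu0
  rw [← hp2 u hu]
  exact h1 Submodule.mem_top

end main

end Pool.Agent.W5h27.UN
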