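import Mathlib

/-!
# A reflection in the group gives an invariant form
-/

set_option autoImplicit false

namespace Pool.Agent.W5h27.UN

open Module

namespace Form

section form

variable {K : Type} [Field K] {V : Type} [AddCommGroup V] [Module K V]

/-- The operator `φ ⊗ w + α ⊗ v`. -/
def TT (φ : Dual K V) (v w : V) (α : Dual K V) : Module.End K V :=
  φ.smulRight w + α.smulRight v

theorem TT_apply (φ : Dual K V) (v w : V) (α : Dual K V) (u : V) :
    TT φ v w α u = φ u • w + α u • v := rfl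

/-- The pairs `(w, α)` for which the operator `φ ⊗ w + α ⊗ v` lies in `𝔥`. -/
structure Mem (𝔥 : Submodule K (Module.End K V)) (φ : Dual K V) (v w : V) (α : Dual K V) :
    Prop where
  h1 : φ w = 0
  h2 : α v = 0
  h3 : TT φ v w α ∈ 𝔥

variable {𝔥 : Submodule K (Module.End K V)} {φ : Dual K V} {v : V}

theorem Mem.add {w w' : V} {α α' : Dual K V} (h : Mem 𝔥 φ v w α) (h' : Mem 𝔥 φ v w' α') :
    Mem 𝔥 φ v (w + w') (α + α') := by
  refine ⟨by rw [map_add, h.h1, h'.h1, add_zero], by rw [LinearMap.add_apply, h.h2, h'.h2,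
    add_zero], ?_⟩
  have e : TT φ v (w + w') (α + α') = TT φ v w α + TT φ v w' α' := by
    ext u
    rw [LinearMap.add_apply, TT_apply, TT_apply, TT_apply, LinearMap.add_apply]
    module
  rw [e]
  exact 𝔥.add_mem h.h3 h'.h3

theorem Mem.smul {w : V} {α : Dual K V} (a : K) (h : Mem 𝔥 φ v w α) :
    Mem 𝔥 φ v (a • w) (a • α) := by
  refine ⟨by rw [map_smul, h.h1, smul_zero], by rw [LinearMap.smul_apply, h.h2, smul_zero], ?_⟩
  have e : TT φ v (a • w) (a • α) = a • TT φ v w α := by
    ext u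
    rw [LinearMap.smul_apply, TT_apply, TT_apply, LinearMap.smul_apply, smul_eq_mul]
    module
  rw [e]
  exact 𝔥.smul_mem a h.h3

theorem Mem.sub {w w' : V} {α α' : Dual K V} (h : Mem 𝔥 φ v w α) (h' : Mem 𝔥 φ v w' α') :
    Mem 𝔥 φ v (w - w') (α - α') := by
  have h1 := h.add (h'.smul (-1))
  have e1 : w + (-1 : K) • w' = w - w' := by module
  have e2 : α + (-1 : K) • α' = α - α' := by
    ext u
    rw [LinearMap.add_apply, LinearMap.smul_apply, LinearMap.sub_apply, smul_eq_mul]
    ring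
  rw [e1, e2] at h1
  exact h1

variable (hno : ¬∃ (u : V) (ψ : Dual K V), u ≠ 0 ∧ ψ ≠ 0 ∧ ψ u = 0 ∧
  (ψ.smulRight u : Module.End K V) ∈ 𝔥) (hφv : φ v = 1)

include hφv in
theorem v_ne : v ≠ 0 := by
  rintro rfl
  rw [map_zero] at hφv
  exact zero_ne_one hφv

include hφv in
theorem φ_ne : φ ≠ 0 := by
  rintro rfl
  rw [LinearMap.zero_apply] at hφv
  exact zero_ne_one hφv

include hno hφv in
theorem Mem.left {α : Dual K V} (h : Mem 𝔥 φ v 0 α) : α = 0 := by
  by_contra hα
  refine hno ⟨v, α, v_ne hφv, hα, h.h2, ?_⟩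
  have e : TT φ v 0 α = α.smulRight v := by
    ext u
    rw [TT_apply, smul_zero, zero_add, LinearMap.smulRight_apply]
  rw [← e]
  exact h.h3

include hno hφv in
theorem Mem.right {w : V} (h : Mem 𝔥 φ v w 0) : w = 0 := by
  by_contra hw
  refine hno ⟨w, φ, hw, φ_ne hφv, h.h1, ?_⟩
  have e : TT φ v w 0 = φ.smulRight w := by
    ext u
    rw [TT_apply, LinearMap.zero_apply, zero_smul, add_zero, LinearMap.smulRight_apply]
  rw [← e]
  exact h.h3

include hno hφv in
theorem Mem.uniq {w : V} {α α' : Dual K V} (h : Mem 𝔥 φ v w α) (h' : Mem 𝔥 φ v w α') :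
    α = α' := by
  have h1 := h.sub h'
  rw [sub_self] at h1
  exact sub_eq_zero.1 (h1.left hno hφv)

/-- The bracket with an operator which preserves `v` and `φ` up to the same scalar. -/
theorem Mem.br (hbr : ∀ X ∈ 𝔥, ∀ Y ∈ 𝔥, X * Y - Y * X ∈ 𝔥) {w : V} {α : Dual K V}
    (h : Mem 𝔥 φ v w α) {X : Module.End K V} (hX : X ∈ 𝔥) {a : K} (hXv : X v = a • v)
    (hXφ : ∀ u, φ (X u) = a * φ u) : Mem 𝔥 φ v (X w - a • w) (a • α - α.comp X) := by
  refine ⟨?_, ?_, ?_⟩
  · rw [map_sub, hXφ, map_smul, h.h1, smul_zero, mul_zero, sub_zero]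
  · rw [LinearMap.sub_apply, LinearMap.smul_apply, LinearMap.comp_apply, hXv, map_smul, h.h2,
      smul_zero, sub_zero]
  · have e : TT φ v (X w - a • w) (a • α - α.comp X) = X * TT φ v w α - TT φ v w α * X := by
      ext u
      rw [LinearMap.sub_apply, Module.End.mul_apply, Module.End.mul_apply, TT_apply, TT_apply,
        TT_apply, LinearMap.sub_apply, LinearMap.smul_apply, LinearMap.comp_apply, map_add,
        map_smul, map_smul, hXv, hXφ, smul_eq_mul]
      module
    rw [e]
    exact hbr _ hX _ h.h3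

variable (hs : ∀ X ∈ 𝔥, Mem 𝔥 φ v (X v - φ (X v) • v) (φ.comp X - φ (X v) • φ))

/-- The even part of an operator. -/
def ev (φ : Dual K V) (v : V) (X : Module.End K V) : Module.End K V :=
  X - TT φ v (X v - φ (X v) • v) (φ.comp X - φ (X v) • φ)

include hs in
theorem ev_mem {X : Module.End K V} (hX : X ∈ 𝔥) : ev φ v X ∈ 𝔥 := 𝔥.sub_mem hX (hs X hX).h3

include hφv in
theorem ev_v (X : Module.End K V) : ev φ v X v = φ (X v) • v := by
  unfold ev
  rw [LinearMap.sub_apply, TT_apply, LinearMap.sub_apply, LinearMap.comp_apply,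
    LinearMap.smul_apply, hφv, smul_eq_mul]
  module

include hφv in
theorem ev_φ (X : Module.End K V) (u : V) : φ (ev φ v X u) = φ (X v) * φ u := by
  unfold ev
  rw [LinearMap.sub_apply, TT_apply, map_sub, map_add, map_smul, map_smul, map_sub, map_smul,
    LinearMap.sub_apply, LinearMap.comp_apply, LinearMap.smul_apply, hφv, smul_eq_mul,
    smul_eq_mul, smul_eq_mul, smul_eq_mul]
  ring

variable (hbr : ∀ X ∈ 𝔥, ∀ Y ∈ 𝔥, X * Y - Y * X ∈ 𝔥)
  (hirr : ∀ W : Submodule K V, (∀ X ∈ 𝔥, ∀ w ∈ W, X w ∈ W) → W = ⊥ ∨ W = ⊤)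

include hφv hs hbr hirr in
/-- All elements of the kernel of `φ` occur. -/
theorem all {w : V} (hw : φ w = 0) : ∃ α, Mem 𝔥 φ v w α := by
  let W : Submodule K V :=
    { carrier := {x | ∃ α, Mem 𝔥 φ v (x - φ x • v) α}
      zero_mem' := ⟨0, by
        refine ⟨by simp, rfl, ?_⟩
        have e : TT φ v (0 - φ 0 • v) 0 = 0 := by
          ext u
          rw [TT_apply, map_zero, zero_smul, sub_zero, smul_zero, LinearMap.zero_apply,
            zero_smul, add_zero, LinearMap.zero_apply]
        rw [e]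
        exact 𝔥.zero_mem⟩
      add_mem' := by
        rintro x y ⟨α, hα⟩ ⟨β, hβ⟩
        refine ⟨α + β, ?_⟩
        have e : x + y - φ (x + y) • v = (x - φ x • v) + (y - φ y • v) := by
          rw [map_add]
          module
        rw [e]
        exact hα.add hβ
      smul_mem' := by
        rintro a x ⟨α, hα⟩
        refine ⟨a • α, ?_⟩
        have e : a • x - φ (a • x) • v = a • (x - φ x • v) := by
          rw [map_smul, smul_eq_mul]
          module
        rw [e]
        exact hα.smul a }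
  have hmem : ∀ x, x ∈ W ↔ ∃ α, Mem 𝔥 φ v (x - φ x • v) α := fun x => Iff.rfl
  have hvW : v ∈ W := by
    rw [hmem]
    refine ⟨0, ?_⟩
    have h0 := W.zero_mem
    refine ⟨by rw [map_sub, map_smul, hφv, smul_eq_mul, mul_one, sub_self], rfl, ?_⟩
    have e : TT φ v (v - φ v • v) 0 = 0 := by
      ext u
      rw [TT_apply, hφv, one_smul, sub_self, smul_zero, LinearMap.zero_apply,
        zero_smul, add_zero, LinearMap.zero_apply]
    rw [e]
    exact 𝔥.zero_mem
  have hst : ∀ X ∈ 𝔥, ∀ x ∈ W, X x ∈ W := by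
    rintro X hX x ⟨α, hα⟩
    set w := x - φ x • v with hw
    have hx : x = φ x • v + w := by rw [hw]; abel
    -- the vector `X v`
    have hXv : X v ∈ W := by
      rw [hmem]
      exact ⟨_, hs X hX⟩
    -- the vector `ev X w`
    have h1 := hα.br hbr (ev_mem hs hX) (ev_v hφv X) (ev_φ hφv X)
    have hXw0 : ev φ v X w ∈ W := by
      have h2 : ev φ v X w - φ (X v) • w ∈ W := by
        rw [hmem]
        refine ⟨φ (X v) • α - α.comp (ev φ v X), ?_⟩
        rw [h1.h1, zero_smul, sub_zero]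
        exact h1
      have h3 : w ∈ W := by
        rw [hmem]
        refine ⟨α, ?_⟩
        rw [hα.h1, zero_smul, sub_zero]
        exact hα
      have h4 := W.add_mem h2 (W.smul_mem (φ (X v)) h3)
      rwa [sub_add_cancel] at h4
    have hXw : X w ∈ W := by
      have e : X w = ev φ v X w + TT φ v (X v - φ (X v) • v) (φ.comp X - φ (X v) • φ) w := by
        unfold ev
        rw [LinearMap.sub_apply, sub_add_cancel]
      rw [e, TT_apply, hα.h1, zero_smul, zero_add]
      exact W.add_mem hXw0 (W.smul_mem _ hvW)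
    rw [hx, map_add, map_smul]
    exact W.add_mem (W.smul_mem _ hXv) hXw
  rcases hirr W hst with h | h
  · exfalso
    rw [h, Submodule.mem_bot] at hvW
    exact v_ne hφv hvW
  · have h1 : w ∈ W := by rw [h]; trivial
    obtain ⟨α, hα⟩ := (hmem w).1 h1
    rw [hw, zero_smul, sub_zero] at hα
    exact ⟨α, hα⟩

include hno hφv hs hbr hirr in
theorem exists_J : ∃ J : V →ₗ[K] Dual K V, (∀ x, Mem 𝔥 φ v (x - φ x • v) (J x)) ∧ J v = 0 := by
  have h0 : ∀ x : V, φ (x - φ x • v) = 0 := by
    intro x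
    rw [map_sub, map_smul, hφv, smul_eq_mul, mul_one, sub_self]
  choose J hJ using fun x : V => all hφv hs hbr hirr (h0 x)
  refine ⟨{ toFun := J, map_add' := fun x y => ?_, map_smul' := fun a x => ?_ }, hJ, ?_⟩
  · have e : x + y - φ (x + y) • v = (x - φ x • v) + (y - φ y • v) := by
      rw [map_add]
      module
    have h1 := hJ (x + y)
    rw [e] at h1
    exact h1.uniq hno hφv ((hJ x).add (hJ y))
  · have e : a • x - φ (a • x) • v = a • (x - φ x • v) := by
      rw [map_smul, smul_eq_mul]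
      module
    have h1 := hJ (a • x)
    rw [e] at h1
    exact h1.uniq hno hφv ((hJ x).smul a)
  · have h1 := hJ v
    rw [hφv, one_smul, sub_self] at h1
    exact h1.left hno hφv

end form

section main

variable {K : Type} [Field K] [CharZero K] {V : Type} [AddCommGroup V] [Module K V]
  {𝔥 : Submodule K (Module.End K V)} {φ : Dual K V} {v : V}

/-- The form is symmetric, nondegenerate, and preserved up to scalars by `𝔥`. -/
theorem exists_Q (hno : ¬∃ (u : V) (ψ : Dual K V), u ≠ 0 ∧ ψ ≠ 0 ∧ ψ u = 0 ∧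
      (ψ.smulRight u : Module.End K V) ∈ 𝔥) (hφv : φ v = 1)
    (hs : ∀ X ∈ 𝔥, Mem 𝔥 φ v (X v - φ (X v) • v) (φ.comp X - φ (X v) • φ))
    (hbr : ∀ X ∈ 𝔥, ∀ Y ∈ 𝔥, X * Y - Y * X ∈ 𝔥)
    (hirr : ∀ W : Submodule K V, (∀ X ∈ 𝔥, ∀ w ∈ W, X w ∈ W) → W = ⊥ ∨ W = ⊤) :
    ∃ Q : V →ₗ[K] V →ₗ[K] K, (∀ x, (∀ y, Q x y = 0) → x = 0) ∧
      ∀ X ∈ 𝔥, ∀ x y, Q (X x) y + Q x (X y) = 2 * φ (X v) * Q x y := by
  obtain ⟨J, hJ, hJv⟩ := exists_J hno hφv hs hbr hirr
  have hJv' : ∀ x, J x v = 0 := fun x => (hJ x).h2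
  have hJker : ∀ w, φ w = 0 → Mem 𝔥 φ v w (J w) := by
    intro w hw
    have h1 := hJ w
    rwa [hw, zero_smul, sub_zero] at h1
  have huniq : ∀ w α, Mem 𝔥 φ v w α → J w = α := fun w α h => (hJker w h.h1).uniq hno hφv h
  have hJ0 : ∀ w, φ w = 0 → J w = 0 → w = 0 := by
    intro w hw h
    have h1 := hJker w hw
    rw [h] at h1
    exact h1.right hno hφv
  -- symmetry on the kernel
  have hsymk : ∀ w w', φ w = 0 → φ w' = 0 → J w w' = J w' w := by
    intro w w' hw hw'
    by_cases hw0 : w = 0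
    · rw [hw0, map_zero, map_zero, LinearMap.zero_apply]
    set b := J w w' - J w' w with hb
    set Z : Module.End K V := TT φ v w (J w) * TT φ v w' (J w') -
      TT φ v w' (J w') * TT φ v w (J w) with hZ
    have hZmem : Z ∈ 𝔥 := hbr _ (hJker w hw).h3 _ (hJker w' hw').h3
    have hZa : ∀ u, Z u = (b * φ u) • v + J w' u • w - J w u • w' := by
      intro u
      rw [hZ, LinearMap.sub_apply, Module.End.mul_apply, Module.End.mul_apply, TT_apply, TT_apply,
        TT_apply, TT_apply]
      simp only [map_add, map_smul, smul_eq_mul, hw, hw', hφv, hJv', mul_zero, mul_one, zero_add,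
        add_zero]
      rw [hb]
      module
    have hZv : Z v = b • v := by
      rw [hZa, hφv, hJv', hJv', mul_one, zero_smul, zero_smul, add_zero, sub_zero]
    have hZφ : ∀ u, φ (Z u) = b * φ u := by
      intro u
      rw [hZa, map_sub, map_add, map_smul, map_smul, map_smul, hφv, hw, hw', smul_zero, smul_zero,
        add_zero, sub_zero, smul_eq_mul, mul_one]
    have h1 := huniq _ _ ((hJker w hw).br hbr hZmem hZv hZφ)
    -- evaluate
    have h2 : Z w = J w' w • w - J w w • w' := by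
      rw [hZa, hw, mul_zero, zero_smul, zero_add]
    rw [h2, map_sub, map_sub, map_smul, map_smul, map_smul] at h1
    have h3 : ∀ u, 3 * b * J w u = 0 := by
      intro u
      have h4 := congrArg (fun f : Dual K V => f u) h1
      simp only [LinearMap.sub_apply, LinearMap.smul_apply, LinearMap.comp_apply, hZa, map_sub,
        map_add, map_smul, smul_eq_mul, hJv', mul_zero, zero_add] at h4
      rw [hb] at h4 ⊢
      linear_combination -h4
    have h5 : b = 0 := by
      by_contra hb0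
      apply hw0
      apply hJ0 w hw
      ext u
      have h6 := h3 u
      have h7 : (3 : K) * b ≠ 0 := mul_ne_zero three_ne_zero hb0
      exact (mul_eq_zero.1 h6).resolve_left h7
    exact sub_eq_zero.1 h5
  have hJP : ∀ x, J (x - φ x • v) = J x := by
    intro x
    rw [map_sub, map_smul, hJv, smul_zero, sub_zero]
  have hJP' : ∀ x y, J x (y - φ y • v) = J x y := by
    intro x y
    rw [map_sub, map_smul, hJv', smul_zero, sub_zero]
  have hPφ : ∀ x : V, φ (x - φ x • v) = 0 := by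
    intro x
    rw [map_sub, map_smul, hφv, smul_eq_mul, mul_one, sub_self]
  have hsym : ∀ x y, J x y = J y x := by
    intro x y
    have h1 := hsymk _ _ (hPφ x) (hPφ y)
    rwa [hJP, hJP, hJP', hJP'] at h1
  let Q : V →ₗ[K] V →ₗ[K] K := J - φ.smulRight φ
  have hQ : ∀ x y, Q x y = J x y - φ x * φ y := fun x y => rfl
  refine ⟨Q, ?_, ?_⟩
  · intro x hx
    have h1 := hx v
    rw [hQ, hJv', hφv, mul_one, zero_sub, neg_eq_zero] at h1
    apply hJ0 x h1
    ext y
    have h2 := hx y
    rwa [hQ, h1, zero_mul, sub_zero] at h2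
  · intro X hX x y
    set a := φ (X v) with ha
    set w := X v - a • v with hw
    have hM : Mem 𝔥 φ v w (φ.comp X - a • φ) := hs X hX
    have hJw : J w = φ.comp X - a • φ := huniq _ _ hM
    have hXdec : ∀ u, X u = ev φ v X u + (φ u • w + J w u • v) := by
      intro u
      have h1 : X u = ev φ v X u + TT φ v w (φ.comp X - a • φ) u := by
        unfold ev
        rw [LinearMap.sub_apply, sub_add_cancel]
      rw [h1, TT_apply, hJw]
    have hev : ∀ u, J (ev φ v X u) = (2 * a) • J u - (J u).comp (ev φ v X) := by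
      intro u
      have h1 := huniq _ _ ((hJ u).br hbr (ev_mem hs hX) (ev_v hφv X) (ev_φ hφv X))
      have key : ev φ v X (u - φ u • v) = ev φ v X u - φ u • (a • v) := by
        rw [map_sub, map_smul, ev_v hφv]
      rw [key] at h1
      simp only [map_sub, map_smul, hJv, smul_zero, sub_zero] at h1
      have h3 : J (ev φ v X u) = a • J u - (J u).comp (ev φ v X) + a • J u := by
        rw [← h1, sub_add_cancel]
      rw [h3]
      module
    have hφw : φ w = 0 := hM.h1
    have e1 : Q (X x) y = 2 * a * J x y - J x (ev φ v X y) + φ x * J w y -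
        (a * φ x + J w x) * φ y := by
      rw [hQ, hXdec x, map_add, map_add, map_smul, map_smul, hJv, smul_zero, add_zero, map_add,
        map_add, map_smul, map_smul, hφw, hφv, hev, ev_φ hφv]
      simp only [LinearMap.add_apply, LinearMap.sub_apply, LinearMap.smul_apply,
        LinearMap.comp_apply, smul_eq_mul]
      ring
    have e2 : Q x (X y) = J x (ev φ v X y) + φ y * J x w - φ x * (a * φ y + J w y) := by
      rw [hQ, hXdec y, map_add, map_add, map_smul, map_smul, hJv', smul_zero, add_zero, map_add,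
        map_add, map_smul, map_smul, hφw, hφv, ev_φ hφv]
      simp only [smul_eq_mul]
      ring
    rw [e1, e2, hQ, hsym x w]
    ring

/-- From the invariance under `𝔥` to the invariance under the group. -/
theorem similitude [IsAlgClosed K] [FiniteDimensional K V] {G : Type} [Group G]
    (r : Representation K G V) (hv : v ≠ 0)
    (hconj : ∀ s : G, ∀ X ∈ 𝔥, r s * X * r s⁻¹ ∈ 𝔥)
    (hirr : ∀ W : Submodule K V, (∀ X ∈ 𝔥, ∀ w ∈ W, X w ∈ W) → W = ⊥ ∨ W = ⊤)
    (Q : V →ₗ[K] V →ₗ[K] K) (hQ0 : ∀ x, (∀ y, Q x y = 0) → x = 0)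
    (hQ : ∀ X ∈ 𝔥, ∀ x y, Q (X x) y + Q x (X y) = 2 * φ (X v) * Q x y) (g : G) :
    ∃ c : K, ∀ x y, Q (r g x) (r g y) = c * Q x y := by
  have hnt : Nontrivial V := ⟨⟨v, 0, hv⟩⟩
  have hinj : Function.Injective Q := by
    rw [← LinearMap.ker_eq_bot, LinearMap.ker_eq_bot']
    intro x hx
    exact hQ0 x fun y => by rw [hx, LinearMap.zero_apply]
  let Qe : V ≃ₗ[K] Dual K V := LinearEquiv.ofInjectiveOfFinrankEq Q hinj
    (Subspace.dual_finrank_eq (K := K) (V := V)).symm
  have hQe : ∀ x, Qe x = Q x := fun x => rfl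
  have hrr : ∀ x, r g⁻¹ (r g x) = x := by
    intro x
    rw [← Module.End.mul_apply, ← map_mul, inv_mul_cancel, map_one]
    rfl
  have hrr' : ∀ x, r g (r g⁻¹ x) = x := by
    intro x
    rw [← Module.End.mul_apply, ← map_mul, mul_inv_cancel, map_one]
    rfl
  let Qg : V →ₗ[K] Dual K V := (r g).dualMap.comp (Q.comp (r g))
  have hQg : ∀ x y, Qg x y = Q (r g x) (r g y) := fun x y => rfl
  let D : Module.End K V := Qe.symm.toLinearMap.comp Qg
  have hD : ∀ x y, Q (D x) y = Q (r g x) (r g y) := by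
    intro x y
    rw [← hQg, ← hQe]
    show Qe (Qe.symm (Qg x)) y = _
    rw [LinearEquiv.apply_symm_apply]
  have hDinj : Function.Injective D := by
    rw [← LinearMap.ker_eq_bot, LinearMap.ker_eq_bot']
    intro x hx
    have h1 : r g x = 0 := by
      apply hQ0
      intro y
      rw [← hrr' y, ← hD, hx, map_zero, LinearMap.zero_apply]
    rw [← hrr x, h1, map_zero]
  have hDX : ∀ X ∈ 𝔥, ∃ κ : K, D * X - X * D = κ • D := by
    intro X hX
    set X' : Module.End K V := r g * X * r g⁻¹ with hX'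
    have hX'mem : X' ∈ 𝔥 := hconj g X hX
    have hX'a : ∀ x, X' (r g x) = r g (X x) := by
      intro x
      rw [hX', Module.End.mul_apply, Module.End.mul_apply, hrr]
    refine ⟨2 * φ (X' v) - 2 * φ (X v), ?_⟩
    ext x
    apply hinj
    ext y
    rw [LinearMap.sub_apply, Module.End.mul_apply, Module.End.mul_apply, map_sub,
      LinearMap.sub_apply, LinearMap.smul_apply, map_smul, LinearMap.smul_apply, smul_eq_mul]
    have h1 := hQ X' hX'mem (r g x) (r g y)
    rw [hX'a, hX'a, ← hD, ← hD, ← hD] at h1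
    have h2 := hQ X hX (D x) y
    linear_combination h1 - h2
  -- the trace
  have hcomm : ∀ X ∈ 𝔥, D * X = X * D := by
    intro X hX
    obtain ⟨κ, hκ⟩ := hDX X hX
    let De : V ≃ₗ[K] V := LinearEquiv.ofInjectiveEndo D hDinj
    have hDe : ∀ x, De x = D x := fun x => rfl
    let D' : Module.End K V := De.symm.toLinearMap
    have hDD' : D * D' = 1 := by
      ext x
      show D (De.symm x) = x
      rw [← hDe, LinearEquiv.apply_symm_apply]
    have hD'D : D' * D = 1 := by
      ext x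
      show De.symm (D x) = x
      rw [← hDe, LinearEquiv.symm_apply_apply]
    have h1 : D * X * D' - X = κ • (1 : Module.End K V) := by
      have h2 := congrArg (fun Y : Module.End K V => Y * D') hκ
      simp only [sub_mul, smul_mul_assoc] at h2
      rwa [mul_assoc X, hDD', mul_one] at h2
    have h2 := congrArg (LinearMap.trace K V) h1
    rw [map_sub, map_smul, LinearMap.trace_one, mul_assoc, LinearMap.trace_mul_comm, mul_assoc,
      hD'D, mul_one, sub_self, smul_eq_mul] at h2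
    have h3 : (finrank K V : K) ≠ 0 := Nat.cast_ne_zero.2 (finrank_pos (R := K) (M := V)).ne'
    have h4 : κ = 0 := (mul_eq_zero.1 h2.symm).resolve_right h3
    rw [h4, zero_smul] at hκ
    exact sub_eq_zero.1 hκ
  obtain ⟨μ, hμ⟩ := Module.End.exists_eigenvalue D
  obtain ⟨w, hw⟩ := hμ.exists_hasEigenvector
  have hall : ∀ x, D x = μ • x := by
    let W : Submodule K V := LinearMap.ker (D - μ • (1 : Module.End K V))
    have hmem : ∀ x, x ∈ W ↔ D x = μ • x := by
      intro x
      rw [LinearMap.mem_ker, LinearMap.sub_apply, sub_eq_zero]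
      rfl
    have hst : ∀ X ∈ 𝔥, ∀ x ∈ W, X x ∈ W := by
      intro X hX x hx
      rw [hmem] at hx ⊢
      have h1 := congrArg (fun f : Module.End K V => f x) (hcomm X hX)
      have h2 : D (X x) = X (D x) := h1
      rw [h2, hx, map_smul]
    rcases hirr W hst with h | h
    · exfalso
      have h1 : w ∈ W := (hmem w).2 hw.apply_eq_smul
      rw [h, Submodule.mem_bot] at h1
      exact hw.2 h1
    · intro x
      have h1 : x ∈ W := by rw [h]; trivial
      exact (hmem x).1 h1
  refine ⟨μ, fun x y => ?_⟩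
  rw [← hD, hall, map_smul, LinearMap.smul_apply, smul_eq_mul]

end main

end Form

open Form

theorem form_of_refl {K : Type} [Field K] [CharZero K] [IsAlgClosed K] {V : Type} [AddCommGroup V]
    [Module K V] [FiniteDimensional K V] {G : Type} [Group G] (r : Representation K G V)
    (𝔥 : Submodule K (Module.End K V)) (hbr : ∀ X ∈ 𝔥, ∀ Y ∈ 𝔥, X * Y - Y * X ∈ 𝔥)
    (hconj : ∀ s : G, ∀ X ∈ 𝔥, r s * X * r s⁻¹ ∈ 𝔥)
    (hirr : ∀ W : Submodule K V, (∀ X ∈ 𝔥, ∀ w ∈ W, X w ∈ W) → W = ⊥ ∨ W = ⊤)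
    {γ : G} {c : K} {v : V} {φ : Dual K V} (hγ : ∀ u, r γ u = c • (u + φ u • v))
    (hφv : φ v = -2) (hno : ¬∃ (u : V) (ψ : Dual K V), u ≠ 0 ∧ ψ ≠ 0 ∧ ψ u = 0 ∧
      (ψ.smulRight u : Module.End K V) ∈ 𝔥) :
    ∃ (Q : V →ₗ[K] V →ₗ[K] K) (ψ : G → K), (∀ u, (∀ w, Q u w = 0) → u = 0) ∧
      ∀ g u w, Q (r g u) (r g w) = ψ g * Q u w := by
  obtain ⟨φ', hφ'a⟩ : ∃ φ' : Dual K V, ∀ u, φ u = -2 * φ' u := by
    refine ⟨(-(1 / 2) : K) • φ, fun u => ?_⟩
    rw [LinearMap.smul_apply, smul_eq_mul]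
    ring
  have h1 : φ' v = 1 := by
    have h2 := hφ'a v
    rw [hφv] at h2
    have h3 : (-2 : K) ≠ 0 := neg_ne_zero.2 two_ne_zero
    exact (mul_left_cancel₀ h3 (by rw [mul_one]; exact h2)).symm
  have hv : v ≠ 0 := v_ne h1
  have hrr : ∀ x, r γ⁻¹ (r γ x) = x := by
    intro x
    rw [← Module.End.mul_apply, ← map_mul, inv_mul_cancel, map_one]
    rfl
  have hc : c ≠ 0 := by
    rintro rfl
    apply hv
    rw [← hrr v, hγ, zero_smul, map_zero]
  have hinv : ∀ u, r γ⁻¹ u = c⁻¹ • (u - (2 * φ' u) • v) := by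
    intro u
    have h2 : r γ (c⁻¹ • (u - (2 * φ' u) • v)) = u := by
      rw [hγ, hφ'a, map_smul, map_sub, map_smul, h1, smul_add, smul_smul, mul_inv_cancel₀ hc,
        one_smul, smul_smul]
      have e1 : c * (-2 * (c⁻¹ • (φ' u - (2 * φ' u) • (1 : K)))) = 2 * φ' u := by
        rw [smul_eq_mul, smul_eq_mul]
        field_simp
        ring
      rw [e1, sub_add_cancel]
    conv_lhs => rw [← h2]
    exact hrr _
  have hs : ∀ X ∈ 𝔥, Mem 𝔥 φ' v (X v - φ' (X v) • v) (φ'.comp X - φ' (X v) • φ') := by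
    intro X hX
    refine ⟨?_, ?_, ?_⟩
    · rw [map_sub, map_smul, h1, smul_eq_mul, mul_one, sub_self]
    · rw [LinearMap.sub_apply, LinearMap.comp_apply, LinearMap.smul_apply, h1, smul_eq_mul,
        mul_one, sub_self]
    · have h2 : (1 / 2 : K) • (X - r γ * X * r γ⁻¹) ∈ 𝔥 :=
        𝔥.smul_mem _ (𝔥.sub_mem hX (hconj γ X hX))
      have h3 : TT φ' v (X v - φ' (X v) • v) (φ'.comp X - φ' (X v) • φ') =
          (1 / 2 : K) • (X - r γ * X * r γ⁻¹) := by
        ext u
        have h4 : (X - r γ * X * r γ⁻¹) u = X u - r γ (X (r γ⁻¹ u)) := rfl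
        rw [TT_apply, LinearMap.smul_apply, h4, hinv, map_smul, hγ, hφ'a, map_smul, map_sub,
          map_sub, map_smul, map_smul, smul_add, smul_smul c c⁻¹, mul_inv_cancel₀ hc, one_smul,
          smul_smul c, LinearMap.sub_apply, LinearMap.comp_apply, LinearMap.smul_apply]
        simp only [smul_eq_mul]
        have e1 : c * (-2 * (c⁻¹ * (φ' (X u) - 2 * φ' u * φ' (X v)))) =
            -2 * (φ' (X u) - 2 * φ' u * φ' (X v)) := by
          field_simp
        rw [e1]
        module
      rw [h3]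
      exact h2
  obtain ⟨Q, hQ0, hQ⟩ := exists_Q hno h1 hs hbr hirr
  choose ψ hψ using similitude r hv hconj hirr Q hQ0 hQ
  exact ⟨Q, ψ, hQ0, fun g u w => hψ g u w⟩

end Pool.Agent.W5h27.UN
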