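import Pool.Agent.TH118.CR.Irr
import Pool.Agent.W522.U.A1

/-!
# Irreducibility of a normalised space of operators in the presence of a reflection
-/

set_option autoImplicit false

namespace Pool.Agent.W5h27.UN

open Module Pool.Agent.W522.U

section irr

variable {K : Type} [Field K] {V : Type} [AddCommGroup V] [Module K V]
  {G : Type} [Group G] (r : Representation K G V) (𝔥 : Submodule K (Module.End K V))

/-- stable subspaces -/
def Stb (W : Submodule K V) : Prop := ∀ X ∈ 𝔥, W ≤ W.comap X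

/-- minimal stable subspaces -/
def Mn (W : Submodule K V) : Prop := W ≠ ⊥ ∧ Stb 𝔥 W ∧ ∀ W' ≤ W, Stb 𝔥 W' → W' = ⊥ ∨ W' = W

variable {r 𝔥}

theorem Stb.inf {W W' : Submodule K V} (h : Stb 𝔥 W) (h' : Stb 𝔥 W') : Stb 𝔥 (W ⊓ W') :=
  fun X hX _ hx => ⟨h X hX hx.1, h' X hX hx.2⟩

theorem Stb.sSup {S : Set (Submodule K V)} (h : ∀ W ∈ S, Stb 𝔥 W) : Stb 𝔥 (sSup S) := by
  intro X hX
  refine sSup_le fun W hW => (h W hW X hX).trans ?_
  exact Submodule.comap_mono (le_sSup hW)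

theorem tr_tr (g h : G) (W : Submodule K V) : (W.map (r h)).map (r g) = W.map (r (g * h)) := by
  rw [← Submodule.map_comp, map_mul]
  rfl

theorem tr_one (W : Submodule K V) : W.map (r 1) = W := by
  rw [map_one]
  exact Submodule.map_id W

theorem tr_inv (g : G) (W : Submodule K V) : (W.map (r g⁻¹)).map (r g) = W := by
  rw [tr_tr, mul_inv_cancel, tr_one]

theorem tr_inv' (g : G) (W : Submodule K V) : (W.map (r g)).map (r g⁻¹) = W := by
  rw [tr_tr, inv_mul_cancel, tr_one]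

theorem tr_bot {g : G} {W : Submodule K V} (h : W.map (r g) = ⊥) : W = ⊥ := by
  rw [← tr_inv' (r := r) g W, h, Submodule.map_bot]

theorem Stb.tr (hconj : ∀ s : G, ∀ X ∈ 𝔥, r s * X * r s⁻¹ ∈ 𝔥) {W : Submodule K V} (h : Stb 𝔥 W) (g : G) :
    Stb 𝔥 (W.map (r g)) := by
  rintro X hX _ ⟨w, hw, rfl⟩
  have h1 := hconj g⁻¹ X hX
  rw [inv_inv] at h1
  refine ⟨(r g⁻¹ * X * r g) w, h _ h1 hw, ?_⟩
  show r g (r g⁻¹ (X (r g w))) = X (r g w)
  exact Rinv' (R := r) g _

theorem Mn.tr (hconj : ∀ s : G, ∀ X ∈ 𝔥, r s * X * r s⁻¹ ∈ 𝔥) {W : Submodule K V} (h : Mn 𝔥 W) (g : G) :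
    Mn 𝔥 (W.map (r g)) := by
  refine ⟨fun h1 => h.1 (tr_bot h1), h.2.1.tr hconj g, fun W' hW' hs => ?_⟩
  have h3 : W'.map (r g⁻¹) ≤ W := by
    rw [← tr_inv' (r := r) g W]
    exact Submodule.map_mono hW'
  rcases h.2.2 (W'.map (r g⁻¹)) h3 (hs.tr hconj g⁻¹) with h1 | h1
  · exact Or.inl (tr_bot h1)
  · right
    rw [← h1, tr_inv]

variable [FiniteDimensional K V]

theorem exists_mn {W0 : Submodule K V} (h0 : W0 ≠ ⊥) (hs : Stb 𝔥 W0) : ∃ W ≤ W0, Mn 𝔥 W := by
  classical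
  have hex : ∃ n, ∃ W ≤ W0, W ≠ ⊥ ∧ Stb 𝔥 W ∧ finrank K W = n := ⟨_, W0, le_rfl, h0, hs, rfl⟩
  obtain ⟨W, h1, h2, h3, h4⟩ := Nat.find_spec hex
  refine ⟨W, h1, h2, h3, fun W' hW' hs' => ?_⟩
  by_cases h5 : W' = ⊥
  · exact Or.inl h5
  · right
    refine Submodule.eq_of_le_of_finrank_le hW' ?_
    rw [h4]
    exact Nat.find_min' hex ⟨W', hW'.trans h1, h5, hs', rfl⟩

variable [CharZero K]

theorem two_le (hirr : Irr r) (hconj : ∀ s : G, ∀ X ∈ 𝔥, r s * X * r s⁻¹ ∈ 𝔥)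
    (hns : ∃ Y ∈ 𝔥, ¬∃ a : K, ∀ u, Y u = a • u) {W : Submodule K V} (h : Mn 𝔥 W) : 2 ≤ finrank K W := by
  by_contra hlt
  push Not at hlt
  obtain ⟨d, hd⟩ := finrank_le_one_iff.1 (Nat.lt_succ_iff.1 hlt)
  have hd0 : (d : V) ≠ 0 := by
    intro h0
    apply h.1
    rw [Submodule.eq_bot_iff]
    intro x hx
    obtain ⟨c, hc⟩ := hd ⟨x, hx⟩
    have := congrArg Subtype.val hc
    simp only [Submodule.coe_smul, h0, smul_zero] at this
    exact this.symm
  have heig : ∀ Y ∈ 𝔥, ∃ a : K, Y (d : V) = a • (d : V) := by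
    intro Y hY
    obtain ⟨c, hc⟩ := hd ⟨Y d, h.2.1 Y hY d.2⟩
    refine ⟨c, ?_⟩
    have := congrArg Subtype.val hc
    simpa using this.symm
  have hSI : SI r (⊤ : Submodule K V) := by
    refine ⟨fun hb => hd0 ?_, pot_top, fun W' _ hp => ?_⟩
    · have : (d : V) ∈ (⊤ : Submodule K V) := trivial
      rw [hb] at this
      exact (Submodule.mem_bot K).1 this
    · obtain ⟨Δ, hΔ, hst⟩ := hp
      exact hirr Δ hΔ W' hst
  obtain ⟨Y, hY, hYn⟩ := hns
  obtain ⟨a, ha⟩ := Pool.Agent.TH118.CR.scalar_of_vector hSI 𝔥 hconj (d := (d : V)) trivial hd0 heig Y hY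
  exact hYn ⟨a, fun u => ha u trivial⟩

theorem v_or_ker (hirr : Irr r) (hconj : ∀ s : G, ∀ X ∈ 𝔥, r s * X * r s⁻¹ ∈ 𝔥)
    (hns : ∃ Y ∈ 𝔥, ¬∃ a : K, ∀ u, Y u = a • u) {γ : G} {c : K} {v : V} {φ : Dual K V}
    (hγ : ∀ u, r γ u = c • (u + φ u • v)) {W : Submodule K V} (h : Mn 𝔥 W) : v ∈ W ∨ W ≤ LinearMap.ker φ := by
  have h2 := two_le hirr hconj hns h
  have hc : c ≠ 0 := by
    rintro rfl
    obtain ⟨x, hx, hx0⟩ := (Submodule.ne_bot_iff _).1 h.1
    have h3 : r γ x = 0 := by rw [hγ, zero_smul]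
    exact Rne (R := r) γ hx0 h3
  obtain ⟨x, hxW, hx0, hφx⟩ : ∃ x ∈ W, x ≠ 0 ∧ φ x = 0 := by
    by_contra hcon
    push Not at hcon
    have hinj : Function.Injective (φ.domRestrict W) := by
      rw [← LinearMap.ker_eq_bot, LinearMap.ker_eq_bot']
      intro x hx
      by_contra hx0
      exact hcon x.1 x.2 (fun h => hx0 (Subtype.ext h)) hx
    have := LinearMap.finrank_le_finrank_of_injective hinj
    rw [finrank_self] at this
    omega
  have hxγ : x ∈ W.map (r γ) := by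
    refine ⟨c⁻¹ • x, W.smul_mem _ hxW, ?_⟩
    rw [map_smul, hγ, hφx, zero_smul, add_zero, smul_smul, inv_mul_cancel₀ hc, one_smul]
  have hW : W ≤ W.map (r γ) := by
    rcases h.2.2 (W ⊓ W.map (r γ)) inf_le_left (h.2.1.inf (h.2.1.tr hconj γ)) with h3 | h3
    · exfalso
      have h4 : x ∈ W ⊓ W.map (r γ) := ⟨hxW, hxγ⟩
      rw [h3] at h4
      exact hx0 ((Submodule.mem_bot K).1 h4)
    · exact inf_eq_left.1 h3
  have hW' : W = W.map (r γ) :=
    Submodule.eq_of_le_of_finrank_le hW (Submodule.finrank_map_le _ _)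
  by_cases hk : W ≤ LinearMap.ker φ
  · exact Or.inr hk
  · left
    obtain ⟨y, hy, hyk⟩ := SetLike.not_le_iff_exists.1 hk
    have h3 : φ y ≠ 0 := fun h => hyk (LinearMap.mem_ker.2 h)
    have h4 : r γ y ∈ W := by
      rw [hW']
      exact ⟨y, hy, rfl⟩
    have h5 : (c * φ y) • v ∈ W := by
      have h6 : (c * φ y) • v = r γ y - c • y := by
        rw [hγ, smul_add, smul_smul]
        abel
      rw [h6]
      exact W.sub_mem h4 (W.smul_mem _ hy)
    have h7 := W.smul_mem (c * φ y)⁻¹ h5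
    rwa [smul_smul, inv_mul_cancel₀ (mul_ne_zero hc h3), one_smul] at h7

end irr

/-- **Irreducibility.** -/
theorem irr_of_refl {K : Type} [Field K] [CharZero K] {V : Type} [AddCommGroup V] [Module K V]
    [FiniteDimensional K V] {G : Type} [Group G] (r : Representation K G V) (hirr : Irr r)
    (𝔥 : Submodule K (Module.End K V)) (hconj : ∀ s : G, ∀ X ∈ 𝔥, r s * X * r s⁻¹ ∈ 𝔥)
    (hns : ∃ Y ∈ 𝔥, ¬∃ a : K, ∀ u, Y u = a • u) {γ : G} {c : K} {v : V} {φ : Dual K V}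
    (hγ : ∀ u, r γ u = c • (u + φ u • v)) (hφv : φ v ≠ 0) :
    ∀ W : Submodule K V, (∀ X ∈ 𝔥, ∀ w ∈ W, X w ∈ W) → W = ⊥ ∨ W = ⊤ := by
  intro W0 hW0
  by_cases h0 : W0 = ⊥
  · exact Or.inl h0
  right
  obtain ⟨W1, hle, h1⟩ := exists_mn (𝔥 := 𝔥) h0 (fun X hX w hw => hW0 X hX w hw)
  set S : Set (Submodule K V) := Set.range (fun g : G => W1.map (r g)) with hS
  have hSm : ∀ W ∈ S, Mn 𝔥 W := by
    rintro _ ⟨g, rfl⟩
    exact h1.tr hconj g
  have hStr : ∀ W ∈ S, ∀ g : G, W.map (r g) ∈ S := by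
    rintro _ ⟨h, rfl⟩ g
    exact ⟨g * h, (tr_tr g h W1).symm⟩
  have hv0 : v ≠ 0 := by
    rintro rfl
    exact hφv (map_zero φ)
  have htop : sSup S = ⊤ := by
    have h2 : ∀ s ∈ (⊤ : Subgroup G), ∀ u ∈ sSup S, r s u ∈ sSup S := by
      intro s _
      have h3 : sSup S ≤ (sSup S).comap (r s) := by
        refine sSup_le fun W hW => ?_
        rw [← Submodule.map_le_iff_le_comap]
        exact le_sSup (hStr W hW s)
      exact fun u hu => h3 hu
    rcases hirr ⊤ inferInstance _ h2 with h3 | h3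
    · exfalso
      apply h1.1
      rw [eq_bot_iff, ← h3]
      exact le_sSup ⟨1, tr_one W1⟩
    · exact h3
  obtain ⟨W, hWS, hWk⟩ : ∃ W ∈ S, ¬ W ≤ LinearMap.ker φ := by
    by_contra hcon
    push Not at hcon
    have h2 : sSup S ≤ LinearMap.ker φ := sSup_le hcon
    rw [htop] at h2
    exact hφv (LinearMap.mem_ker.1 (h2 (show v ∈ (⊤ : Submodule K V) from trivial)))
  have hvW : v ∈ W := (v_or_ker hirr hconj hns hγ (hSm W hWS)).resolve_right hWk
  have hother : sSup (S \ {W}) ≤ LinearMap.ker φ := by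
    refine sSup_le fun W' hW' => ?_
    refine (v_or_ker hirr hconj hns hγ (hSm W' hW'.1)).resolve_left fun hv' => hW'.2 ?_
    have h2 := hSm W hWS
    have h3 := hSm W' hW'.1
    have hne : W ⊓ W' ≠ ⊥ := by
      intro hb
      have : v ∈ W ⊓ W' := ⟨hvW, hv'⟩
      rw [hb] at this
      exact hv0 ((Submodule.mem_bot K).1 this)
    have h4 := (h2.2.2 _ inf_le_left (h2.2.1.inf h3.2.1)).resolve_left hne
    have h5 := (h3.2.2 _ inf_le_right (h2.2.1.inf h3.2.1)).resolve_left hne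
    exact h5.symm.trans h4
  have hdis : Disjoint W (sSup (S \ {W})) := by
    rw [disjoint_iff]
    have h2 := hSm W hWS
    refine (h2.2.2 _ inf_le_left (h2.2.1.inf (Stb.sSup fun W' hW' => (hSm W' hW'.1).2.1))).resolve_right ?_
    intro h3
    have h4 : v ∈ W ⊓ sSup (S \ {W}) := by
      rw [h3]
      exact hvW
    exact hφv (LinearMap.mem_ker.1 (hother h4.2))
  have hind : sSupIndep S := by
    intro a ha
    obtain ⟨g, hg⟩ : ∃ g : G, a = W.map (r g) := by
      obtain ⟨g1, rfl⟩ := hWS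
      obtain ⟨g2, rfl⟩ := ha
      refine ⟨g2 * g1⁻¹, ?_⟩
      show W1.map (r g2) = (W1.map (r g1)).map (r (g2 * g1⁻¹))
      rw [tr_tr, inv_mul_cancel_right]
    have h2 : sSup (S \ {a}) ≤ (sSup (S \ {W})).map (r g) := by
      refine sSup_le fun b hb => ?_
      have h3 : b.map (r g⁻¹) ∈ S \ {W} := by
        refine ⟨hStr b hb.1 _, fun h4 => hb.2 ?_⟩
        have h4 : b.map (r g⁻¹) = W := h4
        show b = a
        rw [hg, ← h4, tr_inv]
      rw [← tr_inv (r := r) g b]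
      exact Submodule.map_mono (le_sSup h3)
    refine Disjoint.mono_right h2 ?_
    rw [hg, Submodule.disjoint_def]
    rintro _ ⟨w, hw, rfl⟩ ⟨t, ht, htw⟩
    have h3 : t = w := by
      have := congrArg (r g⁻¹) htw
      rwa [r_inv, r_inv] at this
    rw [h3] at ht
    have h4 : w = 0 := (Submodule.disjoint_def.1 hdis) w hw ht
    rw [h4, map_zero]
  have hfin : S.Finite := WellFoundedGT.finite_of_sSupIndep hind
  have : Finite S := hfin
  let H : Subgroup G :=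
    { carrier := {g | W.map (r g) = W}
      one_mem' := tr_one W
      mul_mem' := by
        intro g h hg hh
        show W.map (r (g * h)) = W
        have hg : W.map (r g) = W := hg
        have hh : W.map (r h) = W := hh
        rw [← tr_tr, hh, hg]
      inv_mem' := by
        intro g hg
        have hg : W.map (r g) = W := hg
        show W.map (r g⁻¹) = W
        conv_lhs => rw [← hg]
        exact tr_inv' g W }
  have hH : H.FiniteIndex := by
    refine Pool.Agent.TH118.CR.fi_of_map H (T := S) (fun g => ⟨W.map (r g), hStr W hWS g⟩) fun g g' hgg => ?_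
    have h2 : W.map (r g) = W.map (r g') := congrArg Subtype.val hgg
    show W.map (r (g⁻¹ * g')) = W
    rw [← tr_tr, ← h2, tr_inv']
  have hWtop : W = ⊤ := by
    refine (hirr H hH W fun s hs u hu => ?_).resolve_left (hSm W hWS).1
    have hs : W.map (r s) = W := hs
    rw [← hs]
    exact ⟨u, hu, rfl⟩
  rw [eq_top_iff]
  intro x _
  apply hle
  obtain ⟨g1, hg1⟩ := hWS
  have h2 : r g1 x ∈ W1.map (r g1) := by
    have hg1 : W1.map (r g1) = W := hg1
    rw [hg1, hWtop]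
    trivial
  obtain ⟨y, hy, hyx⟩ := h2
  have h3 : y = x := by
    have := congrArg (r g1⁻¹) hyx
    rwa [r_inv, r_inv] at this
  rw [← h3]
  exact hy

end Pool.Agent.W5h27.UN
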