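import Pool.Agent.TH118.CR.Nil

set_option autoImplicit false

/-!
# No invariant form up to a function
-/

namespace Pool.Agent.W5h27.UN

open Module Pool.Agent.H204R3.SP Pool.Agent.H204R3.GP Pool.Agent.W522.U

/-- A strongly irreducible subspace which is not self-dual, and whose twists are isomorphic to it,
carries no nondegenerate form on which a subgroup of finite index acts by a function. -/
theorem no_form {K : Type} [Field K] [CharZero K] {X : Type} [AddCommGroup X] [Module K X]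
    [FiniteDimensional K X] {Γ : Type} [Group Γ] {R : Representation K Γ X} {χ : Γ →* K}
    (ω : X →ₗ[K] X →ₗ[K] K) (hnd : ∀ u, (∀ v, ω u v = 0) → u = 0)
    (hωR : ∀ g u v, ω (R g u) (R g v) = χ g * ω u v) (hss : HasProj R) {U : Submodule K X}
    (hU : SI R U) (hdu : ¬Du R χ U U)
    (htw : ∀ U', SI R U' → ∀ ψ : Γ → K, Tw R ψ U U' → Tw R (fun _ => 1) U U')
    {Δ : Subgroup Γ} (hΔ : Δ.FiniteIndex) (hUΔ : ∀ g ∈ Δ, ∀ u ∈ U, R g u ∈ U)
    (Q : U →ₗ[K] U →ₗ[K] K) (hQ : ∀ u, (∀ w, Q u w = 0) → u = 0) (ψ : Δ → K)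
    (hQψ : ∀ g u w, Q (resR R Δ U hUΔ g u) (resR R Δ U hUΔ g w) = ψ g * Q u w) : False := by
  classical
  obtain ⟨u₀, hu₀, hu₀0⟩ := Submodule.exists_mem_ne_zero_of_ne_bot hU.1
  obtain ⟨V, hV, v₀, hv₀, huv⟩ := exists_ne_on hss (ω u₀) (fun h => hu₀0 (hnd u₀ fun v => by
    rw [h, LinearMap.zero_apply]))
  have h0 : ∃ u ∈ U, ∃ v ∈ V, ω u v ≠ 0 := ⟨u₀, hu₀, v₀, hv₀, huv⟩
  have hB : ∀ g ∈ (⊤ : Subgroup Γ), ∀ u ∈ U, ∀ v ∈ V, ω (R g u) (R g v) = χ g * ω u v :=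
    fun g _ u _ v _ => hωR g u v
  have hDu : Du R χ U V := ⟨⊤, inferInstance, ω, h0, hB⟩
  obtain ⟨Δ2, hΔ2, h2⟩ := id hV.2.1
  have hr := du_right hU.2.1 hV (inferInstance : (⊤ : Subgroup Γ).FiniteIndex) h0 hB
  have hfin := (du_bij hU hV (inferInstance : (⊤ : Subgroup Γ).FiniteIndex) ω h0 hB).1
  let β : V →ₗ[K] Dual K U := (ω.compl₁₂ U.subtype V.subtype).flip
  have hβ : ∀ (v : V) (u : U), β v u = ω u v := fun _ _ => rfl
  have hinj : Function.Injective β := by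
    rw [injective_iff_map_eq_zero]
    intro v hv
    refine Subtype.ext (hr v v.2 fun u hu => ?_)
    exact congrArg (fun f : Dual K U => f ⟨u, hu⟩) hv
  have hfin' : finrank K V = finrank K (Dual K U) := by
    rw [Subspace.dual_finrank_eq, hfin]
  have hbij : Function.Bijective β :=
    ⟨hinj, (LinearMap.injective_iff_surjective_of_finrank_eq_finrank hfin').1 hinj⟩
  let e := LinearEquiv.ofBijective β hbij
  obtain ⟨p, hp⟩ := exists_pr U
  let Q' : U →ₗ[K] Dual K U := Q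
  let T : X →ₗ[K] X := V.subtype.comp (e.symm.toLinearMap.comp (Q'.comp p))
  have hTV : ∀ v, T v ∈ V := fun v => SetLike.coe_mem _
  have hT : ∀ (u x : U), ω x (T u) = Q u x := by
    intro u x
    have h4 : e (e.symm (Q' u)) = Q' u := e.apply_symm_apply _
    have h5 : (e (e.symm (Q' u))) x = Q' u x := congrArg (fun f : Dual K U => f x) h4
    have h7 : (T u) = ((e.symm (Q' u) : V) : X) := by
      change ((e.symm (Q' (p u)) : V) : X) = _
      rw [hp u]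
    rw [h7]
    exact h5
  let ψ' : Γ → K := fun g => if h : g ∈ Δ then ψ ⟨g, h⟩ / χ g else 1
  have hTw : Tw R ψ' U V := by
    refine ⟨Δ ⊓ Δ2, inferInstance, T, fun u _ => hTV u, ?_, ?_⟩
    · refine ⟨u₀, hu₀, fun h => hu₀0 ?_⟩
      have h1 : (⟨u₀, hu₀⟩ : U) = 0 := hQ ⟨u₀, hu₀⟩ fun w => by
        rw [← hT ⟨u₀, hu₀⟩ w]
        change ω w (T u₀) = 0
        rw [h, map_zero]
      exact congrArg Subtype.val h1
    · intro g hg u hu
      have hψ' : ψ' g = ψ ⟨g, hg.1⟩ / χ g := dif_pos hg.1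
      rw [hψ', ← sub_eq_zero]
      refine hr _ (V.sub_mem (hTV _) (V.smul_mem _ (h2 g hg.2 _ (hTV _)))) fun x hx => ?_
      have hx' : R g⁻¹ x ∈ U := hUΔ _ (Δ.inv_mem hg.1) x hx
      have h3 := hQψ ⟨g, hg.1⟩ ⟨u, hu⟩ ⟨R g⁻¹ x, hx'⟩
      rw [← hT, ← hT, resR_apply, resR_apply] at h3
      change ω (R g (R g⁻¹ x)) (T (R g u)) = ψ ⟨g, hg.1⟩ * ω (R g⁻¹ x) (T u) at h3
      have h4 := hωR g (R g⁻¹ x) (T u)
      rw [Rinv'] at h3 h4
      have hχ : χ g ≠ 0 := χne g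
      rw [map_sub, map_smul, smul_eq_mul, h3, h4]
      field_simp
      ring
  exact hdu ((htw V hV ψ' hTw).du hV hU hDu.symm)

end Pool.Agent.W5h27.UN
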