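import Mathlib
import Pool.Agent.TH118.CR.Irr
import Pool.Agent.W522.U.A1

/-!
# Components of a conjugation stable space of operators under an element with known eigenvalues
-/

set_option autoImplicit false

namespace Pool.Agent.W5h27.UN

open Module Pool.Agent.W522.U

section comp

variable {K : Type} [Field K] {V : Type} [AddCommGroup V] [Module K V] {G : Type} [Group G]
  {r : Representation K G V} {γ : G} {n : ℕ} {b : Basis (Fin n) K V} {a : Fin n → K}

theorem eig_ne (hb : ∀ k, r γ (b k) = a k • b k) (k : Fin n) : a k ≠ 0 := by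
  intro h
  have h1 := hb k
  rw [h, zero_smul] at h1
  have h2 : r γ⁻¹ (r γ (b k)) = b k := by
    rw [← Module.End.mul_apply, ← map_mul, inv_mul_cancel, map_one, Module.End.one_apply]
  rw [h1, map_zero] at h2
  exact b.ne_zero k h2.symm

theorem repr_eig (hb : ∀ k, r γ (b k) = a k • b k) (v : V) (j : Fin n) :
    b.repr (r γ v) j = a j * b.repr v j := by
  have h1 : (b.coord j).comp (r γ) = a j • b.coord j := by
    refine b.ext fun k => ?_
    rw [LinearMap.comp_apply, hb, map_smul, LinearMap.smul_apply, Basis.coord_apply,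
      Basis.repr_self, smul_eq_mul, smul_eq_mul]
    by_cases h : k = j
    · rw [h]
    · rw [Finsupp.single_eq_of_ne (fun h' => h h'.symm), mul_zero, mul_zero]
  exact congrArg (fun f : Dual K V => f v) h1

theorem inv_eig (hb : ∀ k, r γ (b k) = a k • b k) (k : Fin n) :
    r γ⁻¹ (b k) = (a k)⁻¹ • b k := by
  have h1 : r γ⁻¹ (r γ (b k)) = b k := by
    rw [← Module.End.mul_apply, ← map_mul, inv_mul_cancel, map_one, Module.End.one_apply]
  rw [hb, map_smul] at h1
  rw [← h1, smul_smul, inv_mul_cancel₀ (eig_ne hb k), one_smul, h1]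

theorem conj_entry (hb : ∀ k, r γ (b k) = a k • b k) (Y : Module.End K V) (j k : Fin n) :
    b.repr ((r γ * Y * r γ⁻¹) (b k)) j = a j / a k * b.repr (Y (b k)) j := by
  rw [Module.End.mul_apply, Module.End.mul_apply, repr_eig hb, inv_eig hb, map_smul, map_smul,
    Finsupp.smul_apply, smul_eq_mul]
  ring

end comp

open Classical in
/-- The component of the operator `X` in which the eigenvalues have the ratio `ρ`. -/
theorem comp_mem {K : Type} [Field K] {V : Type} [AddCommGroup V] [Module K V]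
    [FiniteDimensional K V] {G : Type} [Group G] (r : Representation K G V)
    (𝔥 : Submodule K (Module.End K V)) (hconj : ∀ s : G, ∀ X ∈ 𝔥, r s * X * r s⁻¹ ∈ 𝔥) {γ : G}
    {n : ℕ} (b : Basis (Fin n) K V) (a : Fin n → K) (hb : ∀ k, r γ (b k) = a k • b k) (ρ : K)
    {X : Module.End K V} (hX : X ∈ 𝔥) : ∃ Y ∈ 𝔥, ∀ j k, b.repr (Y (b k)) j =
      if a j = ρ * a k then b.repr (X (b k)) j else 0 := by
  classical
  have key : ∀ T : Finset K, ρ ∉ T → ∃ Y ∈ 𝔥, ∀ j k, b.repr (Y (b k)) j =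
      (∏ σ ∈ T, (a j / a k - σ) / (ρ - σ)) * b.repr (X (b k)) j := by
    intro T
    induction T using Finset.induction_on with
    | empty =>
      intro _
      exact ⟨X, hX, fun j k => by rw [Finset.prod_empty, one_mul]⟩
    | insert σ T hσ ih =>
      intro hρ
      rw [Finset.mem_insert, not_or] at hρ
      obtain ⟨Y, hY, hYx⟩ := ih hρ.2
      have hne : ρ - σ ≠ 0 := sub_ne_zero.2 hρ.1
      refine ⟨(ρ - σ)⁻¹ • (r γ * Y * r γ⁻¹ - σ • Y),
        𝔥.smul_mem _ (𝔥.sub_mem (hconj γ Y hY) (𝔥.smul_mem _ hY)), fun j k => ?_⟩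
      rw [LinearMap.smul_apply, LinearMap.sub_apply, LinearMap.smul_apply, map_smul, map_sub,
        map_smul, Finsupp.smul_apply, Finsupp.sub_apply, Finsupp.smul_apply, conj_entry hb, hYx,
        Finset.prod_insert hσ, smul_eq_mul, smul_eq_mul]
      field_simp
  obtain ⟨Y, hY, hYx⟩ := key ((Finset.univ.image fun p : Fin n × Fin n => a p.1 / a p.2).erase ρ)
    (Finset.notMem_erase _ _)
  refine ⟨Y, hY, fun j k => ?_⟩
  rw [hYx]
  have hk := eig_ne hb k
  by_cases h : a j = ρ * a k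
  · rw [if_pos h]
    have h1 : a j / a k = ρ := by rw [h, mul_div_cancel_right₀ _ hk]
    rw [h1, Finset.prod_eq_one, one_mul]
    intro σ hσ
    exact div_self (sub_ne_zero.2 (Finset.ne_of_mem_erase hσ).symm)
  · rw [if_neg h, Finset.prod_eq_zero (i := a j / a k), zero_mul]
    · rw [Finset.mem_erase]
      refine ⟨fun h1 => h ?_, Finset.mem_image.2 ⟨(j, k), Finset.mem_univ _, rfl⟩⟩
      rw [← h1, div_mul_cancel₀ _ hk]
    · rw [sub_self, zero_div]

theorem one_of_ratio {K : Type} [Field K] [CharZero K] {V : Type} [AddCommGroup V] [Module K V]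
    [FiniteDimensional K V] {G : Type} [Group G] (r : Representation K G V) (hirr : Irr r)
    (𝔥 : Submodule K (Module.End K V)) (hconj : ∀ s : G, ∀ X ∈ 𝔥, r s * X * r s⁻¹ ∈ 𝔥)
    (hns : ∃ Y ∈ 𝔥, ¬∃ a : K, ∀ u, Y u = a • u) {γ : G} {n : ℕ} (b : Basis (Fin n) K V)
    (a : Fin n → K) (hb : ∀ k, r γ (b k) = a k • b k) (k0 : Fin n)
    (hsimple : ∀ k, a k = a k0 → k = k0)
    (hrat : ∀ i j k, a i ≠ a k0 → a j ≠ a k0 → a i * a j ≠ a k0 * a k) :
    ∃ (u : V) (ψ : Dual K V), u ≠ 0 ∧ ψ ≠ 0 ∧ ψ u = 0 ∧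
      (ψ.smulRight u : Module.End K V) ∈ 𝔥 := by
  classical
  have hnt : (⊤ : Submodule K V) ≠ ⊥ := by
    intro h
    have h1 : b k0 ∈ (⊤ : Submodule K V) := trivial
    rw [h, Submodule.mem_bot] at h1
    exact b.ne_zero k0 h1
  have hSI : SI r (⊤ : Submodule K V) := by
    refine ⟨hnt, pot_top, fun W _ hW => ?_⟩
    obtain ⟨Δ, hΔ, h1⟩ := hW
    exact hirr Δ hΔ W h1
  -- an operator which moves the line of `b k0`
  obtain ⟨X, hX, i, hi0, hi⟩ : ∃ X ∈ 𝔥, ∃ i, i ≠ k0 ∧ b.repr (X (b k0)) i ≠ 0 := by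
    by_contra hcon
    push Not at hcon
    obtain ⟨Y, hY, hYn⟩ := hns
    obtain ⟨c, hc⟩ := Pool.Agent.TH118.CR.scalar_of_vector hSI 𝔥 hconj (Submodule.mem_top)
      (b.ne_zero k0) (fun Y hY => ⟨b.repr (Y (b k0)) k0, by
        conv_lhs => rw [← b.sum_repr (Y (b k0))]
        rw [Finset.sum_eq_single k0]
        · intro i _ hi
          rw [hcon Y hY i hi, zero_smul]
        · intro h
          exact absurd (Finset.mem_univ _) h⟩) Y hY
    exact hYn ⟨c, fun u => hc u Submodule.mem_top⟩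
  have hai : a i ≠ a k0 := fun h => hi0 (hsimple i h)
  have hk0 := eig_ne hb k0
  obtain ⟨Y, hY, hYx⟩ := comp_mem r 𝔥 hconj b a hb (a i / a k0) hX
  have hYk : ∀ k, k ≠ k0 → Y (b k) = 0 := by
    intro k hk
    apply b.ext_elem
    intro j
    rw [hYx, map_zero, Finsupp.zero_apply, if_neg]
    intro h
    refine hrat i k j hai (fun h1 => hk (hsimple k h1)) ?_
    rw [h, ← mul_assoc, mul_div_cancel₀ _ hk0]
  refine ⟨Y (b k0), b.coord k0, ?_, ?_, ?_, ?_⟩
  · intro h
    have h1 := hYx i k0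
    have h2 : a i = a i / a k0 * a k0 := (div_mul_cancel₀ _ hk0).symm
    rw [h, map_zero, Finsupp.zero_apply, if_pos h2] at h1
    exact hi h1.symm
  · intro h
    have h1 := congrArg (fun f : Dual K V => f (b k0)) h
    simp at h1
  · rw [Basis.coord_apply, hYx, if_neg]
    rw [div_mul_cancel₀ _ hk0]
    exact fun h => hai h.symm
  · have h1 : (b.coord k0).smulRight (Y (b k0)) = Y := by
      refine b.ext fun k => ?_
      rw [LinearMap.smulRight_apply, Basis.coord_apply, Basis.repr_self]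
      by_cases hk : k = k0
      · rw [hk, Finsupp.single_eq_same, one_smul]
      · rw [Finsupp.single_eq_of_ne (fun h' => hk h'.symm), zero_smul, hYk k hk]
    rw [h1]
    exact hY

end Pool.Agent.W5h27.UN
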