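import Mathlib
import Pool.Agent.W5h27.UN.Ratio
import Pool.Agent.TH118.CR.Irr
import Pool.Agent.TH118.CU.CoreNil
import Pool.Agent.H204R3.SP.Full
import Pool.Agent.W522.U.A1

/-!
# The symplectic case: a simple eigenvalue with few relations gives all of `sp`

A conjugation stable Lie subspace `𝔥` of `sp(om)` for a strongly irreducible similitude
representation, which contains an operator that is not a scalar, contains the whole symplectic
space `sp(om)`, as soon as some element of the group is diagonalizable, has a simple eigenvalue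
`a k0` and the only relations `a i * a j = a k0 * a k` with `a i, a j ≠ a k0` are those with
`a i * a j = χ γ`.
-/

set_option autoImplicit false

namespace Pool.Agent.W5h27.UN

open Module Pool.Agent.H204R3.SP Pool.Agent.H204R3.GP Pool.Agent.W522.U Pool.Agent.W529.Ta

theorem sp_of_ratio {K : Type} [Field K] [CharZero K] [IsAlgClosed K] {V : Type}
    [AddCommGroup V] [Module K V] [FiniteDimensional K V] {G : Type} [Group G]
    (r : Representation K G V) (χ : G →* K) {om : V →ₗ[K] V →ₗ[K] K} (halt : ∀ v, om v v = 0)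
    (hnd : ∀ u, (∀ v, om v u = 0) → u = 0)
    (hsim : ∀ s u v, om (r s u) (r s v) = χ s * om u v) (hirr : Irr r)
    {𝔥 : Submodule K (Module.End K V)} (hbr : ∀ X ∈ 𝔥, ∀ Y ∈ 𝔥, X * Y - Y * X ∈ 𝔥)
    (hconj : ∀ s : G, ∀ X ∈ 𝔥, r s * X * r s⁻¹ ∈ 𝔥)
    (hsp : ∀ X ∈ 𝔥, ∀ u w, om (X u) w + om u (X w) = 0)
    (hns : ∃ Y ∈ 𝔥, ¬∃ a : K, ∀ u, Y u = a • u) {γ : G} {n : ℕ} (b : Basis (Fin n) K V)
    (a : Fin n → K) (hb : ∀ k, r γ (b k) = a k • b k) (k0 : Fin n)
    (hsimple : ∀ k, a k = a k0 → k = k0)
    (hrat : ∀ i j k, a i ≠ a k0 → a j ≠ a k0 → a i * a j = a k0 * a k → a i * a j = χ γ) :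
    ∀ u v, SS om u v ∈ 𝔥 := by
  classical
  have hb0 : b k0 ≠ 0 := b.ne_zero k0
  have ha0 : ∀ k, a k ≠ 0 := by
    intro k h
    apply Rne (R := r) γ (b.ne_zero k)
    rw [hb, h, zero_smul]
  have hanti : ∀ u v, om u v = -om v u := by
    intro u v
    have h1 := halt (u + v)
    simp only [map_add, LinearMap.add_apply, halt, zero_add, add_zero] at h1
    linear_combination h1
  have hnd' : ∀ u, (∀ k, om u (b k) = 0) → u = 0 := by
    intro u hu
    apply hnd
    intro v
    have h1 : om u = 0 := b.ext fun k => by rw [hu, LinearMap.zero_apply]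
    rw [hanti, h1, LinearMap.zero_apply, neg_zero]
  set c : K := χ γ with hc
  have hc0 : c ≠ 0 := by
    intro h
    have h1 : χ γ * χ γ⁻¹ = 1 := by rw [← map_mul, mul_inv_cancel, map_one]
    rw [← hc, h, zero_mul] at h1
    exact zero_ne_one h1
  -- eigenvectors which pair nontrivially
  have hpair : ∀ (x y : V) (s t : K), r γ x = s • x → r γ y = t • y → om x y ≠ 0 → s * t = c := by
    intro x y s t hx hy hxy
    have h1 := hsim γ x y
    rw [hx, hy, map_smul, map_smul, LinearMap.smul_apply, smul_eq_mul, smul_eq_mul] at h1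
    have h2 : (s * t - c) * om x y = 0 := by
      rw [hc]
      linear_combination h1
    exact sub_eq_zero.1 ((mul_eq_zero.1 h2).resolve_right hxy)
  -- the vector `e`
  obtain ⟨k', hk'⟩ : ∃ k', om (b k') (b k0) ≠ 0 := by
    by_contra hcon
    push Not at hcon
    apply hb0
    apply hnd' (b k0)
    intro k
    rw [hanti, hcon, neg_zero]
  have hk'a : a k' * a k0 = c := hpair _ _ _ _ (hb k') (hb k0) hk'
  set e : V := (om (b k') (b k0))⁻¹ • b k' with he
  have he1 : om e (b k0) = 1 := by
    rw [he, map_smul, LinearMap.smul_apply, smul_eq_mul, inv_mul_cancel₀ hk']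
  have heγ : r γ e = a k' • e := by
    rw [he, map_smul, hb, smul_comm]
  -- its eigenspace
  have hesp : ∀ x, r γ x = a k' • x → x = om x (b k0) • e := by
    intro x hx
    rw [← sub_eq_zero]
    apply hnd'
    intro k
    by_contra hne
    have h1 : r γ (x - om x (b k0) • e) = a k' • (x - om x (b k0) • e) := by
      rw [map_sub, map_smul, hx, heγ, smul_sub, smul_comm]
    have h2 := hpair _ _ _ _ h1 (hb k) hne
    have h3 : a k = a k0 := by
      apply mul_left_cancel₀ (ha0 k')
      rw [h2, hk'a]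
    have h4 := hsimple k h3
    apply hne
    rw [h4, map_sub, map_smul, LinearMap.sub_apply, LinearMap.smul_apply, he1, smul_eq_mul,
      mul_one, sub_self]
  -- an element which moves `b k0`
  have hSI : SI r (⊤ : Submodule K V) := by
    refine ⟨?_, pot_top, fun W _ hW => ?_⟩
    · intro h
      have h1 : b k0 ∈ (⊤ : Submodule K V) := trivial
      rw [h, Submodule.mem_bot] at h1
      exact hb0 h1
    · obtain ⟨Δ, hΔ, h1⟩ := hW
      exact hirr Δ hΔ W h1
  obtain ⟨X, hX, i, hi, hXi⟩ : ∃ X ∈ 𝔥, ∃ i, i ≠ k0 ∧ b.repr (X (b k0)) i ≠ 0 := by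
    by_contra hcon
    push Not at hcon
    obtain ⟨Y, hY, hYn⟩ := hns
    obtain ⟨s, hs⟩ := Pool.Agent.TH118.CR.scalar_of_vector hSI 𝔥 hconj
      (Submodule.mem_top (x := b k0)) hb0 (fun Y hY => ⟨b.repr (Y (b k0)) k0, by
        apply b.repr.injective
        ext k
        rw [map_smul, Finsupp.smul_apply, b.repr_self, smul_eq_mul]
        by_cases hk : k = k0
        · rw [hk, Finsupp.single_eq_same, mul_one]
        · rw [hcon Y hY k hk, Finsupp.single_eq_of_ne hk, mul_zero]⟩) Y hY
    exact hYn ⟨s, fun u => hs u Submodule.mem_top⟩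
  have hai : a i ≠ a k0 := fun h => hi (hsimple i h)
  obtain ⟨Y, hY, hYe⟩ := comp_mem r 𝔥 hconj b a hb (a i / a k0) hX
  set w : V := Y (b k0) with hw
  have hrho : ∀ k, a i / a k0 * a k = a i * a k / a k0 := fun k => by ring
  have hwi : b.repr w i ≠ 0 := by
    rw [hw, hYe, if_pos (by rw [div_mul_cancel₀ _ (ha0 k0)])]
    exact hXi
  have hw0 : w ≠ 0 := by
    intro h
    rw [h, map_zero] at hwi
    exact hwi rfl
  have heig : ∀ (x : V) (s : K), (∀ j, b.repr x j ≠ 0 → a j = s) → r γ x = s • x := by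
    intro x s hx
    rw [← b.sum_repr x, map_sum, Finset.smul_sum]
    refine Finset.sum_congr rfl fun j _ => ?_
    rw [map_smul, hb]
    by_cases hj : b.repr x j = 0
    · rw [hj, zero_smul, zero_smul, smul_zero]
    · rw [hx j hj, smul_comm]
  have hwγ : r γ w = a i • w := by
    apply heig
    intro j hj
    rw [hw, hYe] at hj
    by_contra hne
    apply hj
    rw [if_neg]
    rwa [div_mul_cancel₀ _ (ha0 k0)]
  -- the values of `Y`
  have hYk : ∀ k, k ≠ k0 → Y (b k) = om w (b k) • e := by
    intro k hk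
    have hak : a k ≠ a k0 := fun h => hk (hsimple k h)
    have h1 : r γ (Y (b k)) = a k' • Y (b k) := by
      apply heig
      intro j hj
      rw [hYe] at hj
      by_cases hjk : a j = a i / a k0 * a k
      · have h2 : a i * a k = a k0 * a j := by
          rw [hjk, div_mul_eq_mul_div, mul_div_cancel₀ _ (ha0 k0)]
        have h3 := hrat i k j hai hak h2
        rw [h2] at h3
        apply mul_left_cancel₀ (ha0 k0)
        rw [h3, ← hk'a, mul_comm]
      · rw [if_neg hjk] at hj
        exact absurd rfl hj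
    have h2 := hesp _ h1
    have h3 := hsp Y hY (b k) (b k0)
    rw [← hw] at h3
    have h4 : om (Y (b k)) (b k0) = om w (b k) := by
      rw [hanti w (b k)]
      linear_combination h3
    rw [h4] at h2
    exact h2
  have hek : ∀ k, k ≠ k0 → om e (b k) = 0 := by
    intro k hk
    by_contra hne
    have h1 := hpair _ _ _ _ heγ (hb k) hne
    apply hk
    apply hsimple
    apply mul_left_cancel₀ (ha0 k')
    rw [h1, hk'a]
  have hew : om e w = 0 := by
    by_contra hne
    have h1 := hpair _ _ _ _ heγ hwγ hne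
    apply hai
    apply mul_left_cancel₀ (ha0 k')
    rw [h1, hk'a]
  obtain ⟨t, ht, hSS⟩ : ∃ t : K, t ≠ 0 ∧ SS om e w = t • Y := by
    by_cases hmu : om w (b k0) = 0
    · refine ⟨1, one_ne_zero, b.ext fun k => ?_⟩
      rw [one_smul, SS_apply]
      by_cases hk : k = k0
      · rw [hk, he1, hmu, one_smul, zero_smul, add_zero]
      · rw [hek k hk, zero_smul, zero_add, hYk k hk]
    · have h1 := hpair _ _ _ _ hwγ (hb k0) hmu
      have h2 : a i = a k' := by
        apply mul_right_cancel₀ (ha0 k0)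
        rw [h1, hk'a]
      rw [h2] at hwγ
      have h3 := hesp w hwγ
      refine ⟨2, two_ne_zero, b.ext fun k => ?_⟩
      rw [SS_apply, LinearMap.smul_apply]
      by_cases hk : k = k0
      · rw [hk, he1, one_smul, ← h3, ← hw, two_smul]
      · rw [hek k hk, zero_smul, zero_add, hYk k hk]
        have h4 : om w (b k) = 0 := by
          rw [h3, map_smul, LinearMap.smul_apply, hek k hk, smul_zero]
        rw [h4, zero_smul, smul_zero]
  have hN : SS om e w ≠ 0 := by
    rw [hSS]
    refine smul_ne_zero ht fun h => hw0 ?_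
    rw [hw, h, LinearMap.zero_apply]
  have hmem : SS om e w ∈ 𝔥 := by
    rw [hSS]
    exact 𝔥.smul_mem t hY
  exact Pool.Agent.TH118.CU.nrm_core om 𝔥 r χ halt hnd hsim hirr hbr hconj hsp hew hN hmem

end Pool.Agent.W5h27.UN
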