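import Mathlib
import Pool.Agent.W5h27.UN.Cond
import Pool.Agent.W5h27.UN.Irr
import Pool.Agent.W5h27.UN.Form
import Pool.Agent.W5h27.UN.NoForm
import Pool.Agent.W5h27.UN.RatioSp

/-!
# Tate classes and pseudo-reflections of any order
-/

set_option autoImplicit false
set_option linter.unusedSectionVars false

namespace Pool.Agent.W5h27.UN

open Module Pool.Agent.H204R3.SP Pool.Agent.H204R3.GP Pool.Agent.W522.U Pool.Agent.TH118.WC
open Pool.Agent.TH118.CR Pool.Agent.TH118.CU Pool.Agent.W529.Ta Pool.Agent.W528.Odd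
open Pool.Agent.W5h27.BR

/-- The dimension of `U` is two, or one of the following three conditions holds.

(1) Some element `γ` of the group is diagonalizable on `U`, with a simple eigenvalue `λ`, and products
of two eigenvalues `μ`, `ν` different from `λ` are equal to products of `λ` and an eigenvalue only if
the form is not zero on `U` and `μ ν = χ γ`.

(2) Some element of the group acts on `U` as a scalar times a transformation `t` with `t - 1` of
rank one, where `t ^ 2` is not the identity or `U` is not self-dual.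

(3) The form is not zero on `U` and some element of the group acts on `U` as a scalar times a symplectic
transformation `t` with `t - 1` of rank at most two, `t ^ 2` is not the identity, and if
`t ^ 3` is the identity then the dimension of `U` is at least five. -/
def HasElt {K : Type} [Field K] {X : Type} [AddCommGroup X] [Module K X]
    {Γ : Type} [Group Γ] (R : Representation K Γ X) (χ : Γ →* K) (ω : X →ₗ[K] X →ₗ[K] K)
    (U : Submodule K X) : Prop :=
  finrank K U = 2 ∨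
  (∃ (γ : Γ) (n : ℕ) (b : Basis (Fin n) K U) (a : Fin n → K) (k₀ : Fin n),
    (∀ k, R γ (b k : X) = a k • (b k : X)) ∧ (∀ k, a k = a k₀ → k = k₀) ∧
    ∀ i j k, a i ≠ a k₀ → a j ≠ a k₀ → a i * a j = a k₀ * a k →
      (∃ u ∈ U, ∃ v ∈ U, ω u v ≠ 0) ∧ a i * a j = χ γ) ∨
  (∃ (γ : Γ) (c : K) (t : Module.End K X), (∀ u ∈ U, t u ∈ U ∧ R γ u = c • t u) ∧
    finrank K (U.map (t - 1)) = 1 ∧ ((∃ u ∈ U, t (t u) ≠ u) ∨ ¬Du R χ U U)) ∨
  ((∃ u ∈ U, ∃ v ∈ U, ω u v ≠ 0) ∧
    ∃ (γ : Γ) (c : K) (t : Module.End K X), (∀ u ∈ U, t u ∈ U ∧ R γ u = c • t u) ∧ c ^ 2 = χ γ ∧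
      finrank K (U.map (t - 1)) ≤ 2 ∧ (∃ u ∈ U, t (t u) ≠ u) ∧
      ((∀ u ∈ U, t (t (t u)) = u) → 5 ≤ finrank K U))

/-- The element `γ` of the group maps `U` to `U` and `U'` to `U'`, and its restriction to `U` is not
conjugate to a scalar multiple of its restriction to `U'`. -/
def Distinguishes {K : Type} [Field K] {X : Type} [AddCommGroup X] [Module K X]
    {Γ : Type} [Group Γ] (R : Representation K Γ X) (γ : Γ) (U U' : Submodule K X) : Prop :=
  (∀ u ∈ U, R γ u ∈ U) ∧ (∀ u ∈ U', R γ u ∈ U') ∧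
    ¬∃ (T : X →ₗ[K] X) (a : K), U.map T = U' ∧ (∀ u ∈ U, T u = 0 → u = 0) ∧
      ∀ u ∈ U, T (R γ u) = a • R γ (T u)

variable {K : Type} [Field K] [CharZero K] {X : Type} [AddCommGroup X]
  [Module K X] [FiniteDimensional K X] {Γ : Type} [Group Γ] {R : Representation K Γ X}
  {χ : Γ →* K}

/-- An element with `t - 1` of rank one. -/
theorem refl_of_rank1 {U : Submodule K X} {γ : Γ} {c : K} {t : Module.End K X}
    (ht : ∀ u ∈ U, t u ∈ U ∧ R γ u = c • t u) (hrk : finrank K (U.map (t - 1)) = 1) :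
    ∃ (v : U) (φ : Dual K U), (∀ u : U, R γ u = c • ((u + φ u • v : U) : X)) ∧
      v ≠ 0 ∧ φ ≠ 0 := by
  obtain ⟨⟨v, hv⟩, hv0, hspan⟩ := finrank_eq_one_iff'.1 hrk
  have hsub : ∀ u ∈ U, (t - 1) u ∈ U := by
    intro u hu
    rw [LinearMap.sub_apply, Module.End.one_apply]
    exact U.sub_mem (ht u hu).1 hu
  have hvU : v ∈ U := by
    obtain ⟨x, hx, hxv⟩ := hv
    rw [← hxv]
    exact hsub x hx
  have hv0' : (⟨v, hvU⟩ : U) ≠ 0 := by
    intro h
    apply hv0
    have h3 : v = 0 := congrArg (fun w : U => (w : X)) h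
    exact Subtype.ext h3
  obtain ⟨f, hf⟩ : ∃ f : Dual K U, f ⟨v, hvU⟩ = 1 := by
    obtain ⟨f, hf⟩ : ∃ f : Dual K U, f ⟨v, hvU⟩ ≠ 0 := by
      by_contra h
      push Not at h
      exact hv0' ((Module.forall_dual_apply_eq_zero_iff K _).1 h)
    exact ⟨(f ⟨v, hvU⟩)⁻¹ • f, by
      rw [LinearMap.smul_apply, smul_eq_mul, inv_mul_cancel₀ hf]⟩
  let N : Module.End K U := (t - 1).restrict hsub
  have hN : ∀ y : U, N y = f (N y) • (⟨v, hvU⟩ : U) := by
    intro y
    obtain ⟨c', hc'⟩ := hspan ⟨(t - 1) y, Submodule.mem_map_of_mem y.2⟩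
    have h6 : c' • v = (t - 1) (y : X) := congrArg Subtype.val hc'
    have h7 : N y = c' • ⟨v, hvU⟩ := Subtype.ext h6.symm
    rw [h7, map_smul, hf, smul_eq_mul, mul_one]
  have hNt : ∀ u : U, ((u + N u : U) : X) = t u := by
    intro u
    have h4 : ((N u : U) : X) = t u - u := rfl
    rw [Submodule.coe_add, h4]
    abel
  have hN' : ∀ u : U, u + (f.comp N) u • (⟨v, hvU⟩ : U) = u + N u := by
    intro u
    rw [LinearMap.comp_apply, ← hN]
  refine ⟨⟨v, hvU⟩, f.comp N, fun u => ?_, hv0', fun h => ?_⟩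
  · rw [hN', hNt]
    exact (ht u u.2).2
  · obtain ⟨x, hx, hxv⟩ := hv
    have h8 : N ⟨x, hx⟩ = ⟨v, hvU⟩ := Subtype.ext hxv
    have h9 := congrArg (fun g : Dual K U => g ⟨x, hx⟩) h
    rw [LinearMap.comp_apply, h8, hf, LinearMap.zero_apply] at h9
    exact one_ne_zero h9

section main

variable [IsAlgClosed K] (ω : X →ₗ[K] X →ₗ[K] K) (halt : ∀ v, ω v v = 0)
  (hnd : ∀ u, (∀ v, ω u v = 0) → u = 0)
  (hωR : ∀ g u v, ω (R g u) (R g v) = χ g * ω u v) (hss : HasProj R)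
  (htw : ∀ U U', SI R U → SI R U' → 2 ≤ finrank K U → ¬Du R χ U U → ∀ ψ : Γ → K, Tw R ψ U U' →
    Tw R (fun _ => 1) U U')

include halt hnd hωR hss in
/-- From the full symplectic Lie algebra. -/
theorem one_of_full {U : Submodule K X} (h0 : ∃ u ∈ U, ∃ v ∈ U, ω u v ≠ 0)
    (hfull : ∀ u ∈ U, ∀ v ∈ U, ∃ N ∈ lieT R χ, ∀ x ∈ U, N x = ω u x • v + ω v x • u) :
    ∃ (u : U) (ψ : Dual K U), u ≠ 0 ∧ ψ ≠ 0 ∧ ψ u = 0 ∧
      (ψ.smulRight u : Module.End K U) ∈ img (lieT R χ) U := by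
  obtain ⟨u, hu, v, hv, huv⟩ := h0
  obtain ⟨N, hN, hNx⟩ := hfull u hu u hu
  refine ⟨⟨u, hu⟩, (2 : K) • (ω u).comp U.subtype, ?_, ?_, ?_, N, hN, fun x => ?_⟩
  · intro h
    apply huv
    have h3 : u = 0 := congrArg Subtype.val h
    rw [h3, map_zero, LinearMap.zero_apply]
  · intro h
    apply huv
    have h3 := congrArg (fun f : Dual K U => f ⟨v, hv⟩) h
    simp only [LinearMap.smul_apply, LinearMap.comp_apply, Submodule.coe_subtype,
      LinearMap.zero_apply, smul_eq_mul] at h3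
    exact (mul_eq_zero.1 h3).resolve_left two_ne_zero
  · simp only [LinearMap.smul_apply, LinearMap.comp_apply, Submodule.coe_subtype, halt,
      smul_zero]
  · rw [hNx x x.2, LinearMap.smulRight_apply, Submodule.coe_smul]
    simp only [LinearMap.smul_apply, LinearMap.comp_apply, Submodule.coe_subtype, smul_eq_mul]
    module

include halt hnd hωR hss in
/-- A diagonalizable element with an isolated eigenvalue. -/
theorem one_of_diag {U : Submodule K X} (hU : SI R U)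
    (hns0 : ∃ Y ∈ lieT R χ, ¬∃ a : K, ∀ u ∈ U, Y u = a • u) {γ : Γ} {n : ℕ}
    (b : Basis (Fin n) K U) (a : Fin n → K) (k₀ : Fin n)
    (hb : ∀ k, R γ (b k : X) = a k • (b k : X)) (hs : ∀ k, a k = a k₀ → k = k₀)
    (hrat : ∀ i j k, a i ≠ a k₀ → a j ≠ a k₀ → a i * a j = a k₀ * a k →
      (∃ u ∈ U, ∃ v ∈ U, ω u v ≠ 0) ∧ a i * a j = χ γ) :
    ∃ (u : U) (ψ : Dual K U), u ≠ 0 ∧ ψ ≠ 0 ∧ ψ u = 0 ∧
      (ψ.smulRight u : Module.End K U) ∈ img (lieT R χ) U := by
  obtain ⟨hbr, hconj, hirr, hns⟩ := img_data ω hnd hωR hss hU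
  have hγ : γ ∈ stb R U := by
    have h1 : (⊤ : Submodule K U).map U.subtype ≤ U.comap (R γ) := by
      rw [← b.span_eq, Submodule.map_span, Submodule.span_le]
      rintro _ ⟨_, ⟨k, rfl⟩, rfl⟩
      change R γ (b k : X) ∈ U
      rw [hb]
      exact U.smul_mem _ (b k).2
    intro u hu
    exact h1 ⟨⟨u, hu⟩, trivial, rfl⟩
  have hb' : ∀ k, resR R (stb R U) U (stb_st R U) ⟨γ, hγ⟩ (b k) = a k • b k :=
    fun k => Subtype.ext (hb k)
  by_cases h0 : ∃ u ∈ U, ∃ v ∈ U, ω u v ≠ 0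
  · have hanti := alt_anti halt
    have hleft := du_left (R := R) (χ := χ) (B := ω) (Δ := ⊤) hU hU.2.1 inferInstance
      h0 (fun g _ u _ v _ => hωR g u v)
    have hndU : ∀ u : U, (∀ v : U, rom ω U v u = 0) → u = 0 := by
      intro u hu
      apply Subtype.ext
      refine hleft u u.2 fun v hv => ?_
      rw [hanti]
      exact neg_eq_zero.2 (hu ⟨v, hv⟩)
    have hfull := sp_of_ratio (resR R (stb R U) U (stb_st R U)) (χ.comp (stb R U).subtype)
      (om := rom ω U) (fun v => halt v) hndU (fun s u v => hωR s.1 u v) hirr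
      (𝔥 := img (lieT R χ) U) hbr hconj (by
        rintro Z ⟨Y, hY, hYZ⟩ u w
        rw [rom_apply, rom_apply, hYZ, hYZ]
        exact lieT_sp R χ ω hωR hY u w) (hns hns0) (γ := ⟨γ, hγ⟩) b a hb' k₀ hs
      (fun i j k h1 h2 h3 => (hrat i j k h1 h2 h3).2)
    refine one_of_full ω halt hnd hωR hss h0 fun u hu v hv => ?_
    obtain ⟨N, hN, hNx⟩ := hfull ⟨u, hu⟩ ⟨v, hv⟩
    refine ⟨N, hN, fun x hx => ?_⟩
    rw [← hNx ⟨x, hx⟩]
    rfl
  · exact one_of_ratio (resR R (stb R U) U (stb_st R U)) hirr (img (lieT R χ) U) hconj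
      (hns hns0) (γ := ⟨γ, hγ⟩) b a hb' k₀ hs fun i j k h1 h2 h3 => h0 (hrat i j k h1 h2 h3).1

include halt hnd hωR hss htw in
/-- The Lie algebra contains an operator which has rank one and square zero on `U`. -/
theorem one_all2 {U : Submodule K X} (hU : SI R U) (h2 : 2 ≤ finrank K U)
    (hns0 : ∃ Y ∈ lieT R χ, ¬∃ a : K, ∀ u ∈ U, Y u = a • u) (hr : HasElt R χ ω U) :
    ∃ (u : U) (ψ : Dual K U), u ≠ 0 ∧ ψ ≠ 0 ∧ ψ u = 0 ∧
      (ψ.smulRight u : Module.End K U) ∈ img (lieT R χ) U := by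
  rcases hr with hr | ⟨γ, n, b, a, k₀, hb, hs, hrat⟩ | ⟨γ, c, t, ht, hrk, h⟩ |
    ⟨h0, γ, c, t, ht, hc, hrk, ht2, h5⟩
  · exact one_all ω halt hnd hωR hss hU h2 hns0 (Or.inl hr)
  · exact one_of_diag ω halt hnd hωR hss hU hns0 b a k₀ hb hs hrat
  · by_cases ht2 : ∃ u ∈ U, t (t u) ≠ u
    · exact one_all ω halt hnd hωR hss hU h2 hns0 (Or.inr (Or.inl ⟨γ, c, t, ⟨ht, ht2⟩, hrk⟩))
    have hdu : ¬Du R χ U U := h.resolve_left ht2
    by_contra hno
    obtain ⟨hbr, hconj, hirr, hns⟩ := img_data ω hnd hωR hss hU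
    obtain ⟨v, φ, h3, hv, hφ⟩ := refl_of_rank1 ht hrk
    have hφv : φ v = -2 := by
      push Not at ht2
      have key : ∀ u : U, t u = ((u + φ u • v : U) : X) := by
        intro u
        have h4 := h3 u
        rw [(ht u u.2).2] at h4
        have hc0 : c ≠ 0 := by
          rintro rfl
          have h5 := (ht v v.2).2
          rw [zero_smul] at h5
          exact Rne γ (fun h6 => hv (Subtype.ext h6)) h5
        exact smul_right_injective _ hc0 h4
      obtain ⟨x, hx⟩ : ∃ x, φ x ≠ 0 := by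
        by_contra hcon
        push Not at hcon
        exact hφ (LinearMap.ext hcon)
      have h4 := ht2 x x.2
      rw [key x, key, map_add, map_smul, smul_eq_mul] at h4
      have h5 : x + φ x • v + (φ x + φ x * φ v) • v = x := Subtype.ext h4
      have h6 : (φ x * (2 + φ v)) • v = 0 := by
        have h7 : (φ x * (2 + φ v)) • v = x + φ x • v + (φ x + φ x * φ v) • v - x := by module
        rw [h7, h5, sub_self]
      have h7 := (mul_eq_zero.1 ((smul_eq_zero.1 h6).resolve_right hv)).resolve_left hx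
      linear_combination h7
    have hγ : γ ∈ stb R U := by
      intro u hu
      have h7 := h3 ⟨u, hu⟩
      change R γ u ∈ U
      rw [h7]
      exact U.smul_mem _ (SetLike.coe_mem _)
    have hγ' : ∀ u : U, resR R (stb R U) U (stb_st R U) ⟨γ, hγ⟩ u = c • (u + φ u • v) :=
      fun u => Subtype.ext (h3 u)
    have hirr' := irr_of_refl (resR R (stb R U) U (stb_st R U)) hirr (img (lieT R χ) U) hconj
      (hns hns0) hγ' (by rw [hφv]; norm_num)
    obtain ⟨Q, ψ, hQ, hQψ⟩ := form_of_refl (resR R (stb R U) U (stb_st R U)) (img (lieT R χ) U)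
      hbr hconj hirr' hγ' hφv hno
    obtain ⟨D, hD, hDU⟩ := id hU.2.1
    have hΔ : (stb R U).FiniteIndex :=
      Subgroup.finiteIndex_of_le (H := D) (fun g hg => hDU g hg)
    exact no_form ω hnd hωR hss hU hdu (fun U' hU' ψ hψ => htw U U' hU hU' h2 hdu ψ hψ) hΔ
      (stb_st R U) Q hQ ψ hQψ
  · exact one_all ω halt hnd hωR hss hU h2 hns0 (Or.inr (Or.inr ⟨h0, γ, c, t, ⟨ht, ht2⟩, hc, hrk, h5⟩))

variable {I : Type} {E : I → Submodule K X}

include halt hnd hωR hss htw in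
/-- **Square-zero elements of rank one.** -/
theorem one_pt2 (hE : ∀ i, SI R (E i)) (hEs : ⨆ i, E i = ⊤)
    (hns : ∀ i, 2 ≤ finrank K (E i) → ∃ Y ∈ lieT R χ, ¬∃ a : K, ∀ u ∈ E i, Y u = a • u)
    (hr : ∀ i, 2 ≤ finrank K (E i) → HasElt R χ ω (E i)) {U : Submodule K X}
    (hU : SI R U) (h2 : 2 ≤ finrank K U) :
    ∃ e ∈ lieT R χ, e * e = 0 ∧ finrank K (U.map e) = 1 := by
  have hst : ∀ j, ∀ Y ∈ lieT R χ, ∀ u ∈ E j, Y u ∈ E j := fun j Y hY =>
    lieT_stable ω hnd hωR hss (hE j).2.1 hY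
  obtain ⟨i, hi⟩ := exists_isoU hss hE hEs hU
  have hdim : finrank K U = finrank K (E i) := by
    obtain ⟨Δ, hΔ, T, hTU, h0, hT⟩ := hi
    obtain ⟨e, -⟩ := tw_equiv hU (hE i) hΔ hTU h0 hT
    exact e.finrank_eq
  obtain ⟨N, hN, hN2, hN1⟩ := exists_rank_one (E := E) (L := lieT R χ) hst
    (fun Y hY Z hZ => lieT_bracket R χ hY hZ) (fun j hj => by
      obtain ⟨hbr, hconj, hirr, -⟩ := img_data ω hnd hωR hss (hE j)
      exact exists_core _ hirr _ hbr hconj
        (one_all2 ω halt hnd hωR hss htw (hE j) hj (hns j hj) (hr j hj))) hEs i (hdim ▸ h2)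
  refine ⟨N, hN, hN2, ?_⟩
  rw [← rank_transfer ω hnd hωR hss hU (hE i) hi hN]
  exact hN1

/-- A group element tells subspaces apart, also up to twist. -/
theorem not_tw {U U' : Submodule K X} (hU : SI R U) (hU' : SI R U') {γ : Γ}
    (h : Distinguishes R γ U U') (ψ : Γ → K) : ¬Tw R ψ U U' := by
  rintro ⟨Δ, hΔ, T, hTU, h0, hT⟩
  obtain ⟨hγU, hγU1, hno⟩ := h
  have hγU' : ∀ u ∈ U', R γ⁻¹ u ∈ U' := fun u hu => (stb R U').inv_mem hγU1 u hu
  have hinj := tw_inj hU hΔ h0 hT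
  obtain ⟨a, ha, haT⟩ := twist_unique hU hU' hΔ
    (Δ' := Δ.comap (MulAut.conj γ).toMonoidHom) ⟨by
      rw [Subgroup.index_comap_of_surjective _ (MulAut.conj γ).surjective]
      exact hΔ.index_ne_zero⟩ (T := T) (T' := (R γ⁻¹).comp (T.comp (R γ))) hTU
    (fun u hu => hγU' _ (hTU _ (hγU u hu))) h0 (by
      obtain ⟨u, hu, hu0⟩ := h0
      refine ⟨u, hu, ?_⟩
      rw [LinearMap.comp_apply, LinearMap.comp_apply]
      refine Rne _ fun h1 => ?_
      have h2 := hinj _ (hγU u hu) h1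
      have h4 : u = 0 := by
        by_contra h5
        exact Rne γ h5 h2
      rw [h4, map_zero] at hu0
      exact hu0 rfl) (ψ := ψ) (ψ' := fun g => ψ (γ * g * γ⁻¹)) hT (by
      intro g hg u hu
      have h1 : γ * g * γ⁻¹ ∈ Δ := hg
      have h2 : R γ (R g u) = R (γ * g * γ⁻¹) (R γ u) := by
        rw [← Module.End.mul_apply, ← Module.End.mul_apply, ← map_mul, ← map_mul]
        congr 2
        group
      have h4 : ∀ w, R γ⁻¹ (R (γ * g * γ⁻¹) w) = R g (R γ⁻¹ w) := by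
        intro w
        rw [← Module.End.mul_apply, ← Module.End.mul_apply, ← map_mul, ← map_mul]
        congr 2
        group
      rw [LinearMap.comp_apply, LinearMap.comp_apply, LinearMap.comp_apply, LinearMap.comp_apply,
        h2, hT _ h1 _ (hγU u hu), map_smul, h4])
  refine hno ⟨T, a, tw_map hU hU' hΔ hTU h0 hT, hinj, fun u hu => ?_⟩
  have h1 := haT u hu
  rw [LinearMap.comp_apply, LinearMap.comp_apply] at h1
  rw [← map_smul, ← h1, Rinv']

/-- It is enough to know the twists among the given subspaces. -/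
theorem noTwists {I : Type} {E : I → Submodule K X} (hss : HasProj R) (hE : ∀ i, SI R (E i))
    (hEs : ⨆ i, E i = ⊤)
    (htw : ∀ i j, 2 ≤ finrank K (E i) → ¬Du R χ (E i) (E i) →
      Tw R (fun _ => 1) (E i) (E j) ∨ (∀ ψ : Γ → K, ¬Tw R ψ (E i) (E j)) ∨
        ∃ γ, Distinguishes R γ (E i) (E j)) :
    ∀ U U', SI R U → SI R U' → 2 ≤ finrank K U → ¬Du R χ U U → ∀ ψ : Γ → K, Tw R ψ U U' →
      Tw R (fun _ => 1) U U' := by
  intro U U' hU hU' h2 hdu ψ hψ
  obtain ⟨i, hi⟩ := exists_isoU hss hE hEs hU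
  obtain ⟨j, hj⟩ := exists_isoU hss hE hEs hU'
  have h3 := ((hi.symm1 hU (hE i)).trans hU hψ).trans hU' hj
  have hd : finrank K U = finrank K (E i) := by
    obtain ⟨Δ, hΔ, T, hTU, h0, hT⟩ := hi
    obtain ⟨e, -⟩ := tw_equiv hU (hE i) hΔ hTU h0 hT
    exact e.finrank_eq
  have hdi : ¬Du R χ (E i) (E i) := by
    intro h4
    have h5 : Du R χ U (E i) := Tw.du (hE i) hU hi h4
    exact hdu (Tw.du (hE i) hU hi h5.symm)
  have h4 : Tw R (fun _ => 1) (E i) (E j) := by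
    rcases htw i j (hd ▸ h2) hdi with h | h | ⟨γ, h⟩
    · exact h
    · exact absurd h3 (h _)
    · exact absurd h3 (not_tw (hE i) (hE j) h _)
  exact hi.trans1 (hE i) (h4.trans1 (hE j) (hj.symm1 hU' (hE j)))

/-- It is enough to know the lines among the given subspaces. -/
theorem noLines {I : Type} {E : I → Submodule K X} (hss : HasProj R) (hE : ∀ i, SI R (E i))
    (hEs : ⨆ i, E i = ⊤) (hl : ∀ i, finrank K (E i) = 1 → ¬Du R χ (E i) (E i)) :
    ∀ U, SI R U → finrank K U = 1 → ¬Du R χ U U := by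
  intro U hU h1 hdu
  obtain ⟨i, hi⟩ := exists_isoU hss hE hEs hU
  have hd : finrank K U = finrank K (E i) := by
    obtain ⟨Δ, hΔ, T, hTU, h0, hT⟩ := hi
    obtain ⟨e, -⟩ := tw_equiv hU (hE i) hΔ hTU h0 hT
    exact e.finrank_eq
  have hi' := hi.symm1 hU (hE i)
  have h5 : Du R χ (E i) U := Tw.du hU (hE i) hi' hdu
  exact hl i (hd ▸ h1) (Tw.du hU (hE i) hi' h5.symm)

/-- Symplectic parts. -/
theorem sympl_all {I : Type} {E : I → Submodule K X} (hss : HasProj R) (hE : ∀ i, SI R (E i))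
    (hEs : ⨆ i, E i = ⊤) (hsym : ∀ i, Pool.Agent.Y126.Notions.IsSymplectic R χ (E i)) :
    ∀ U, SI R U → Pool.Agent.Y126.Notions.IsSymplectic R χ U := by
  intro U hU
  obtain ⟨i, Δ, hΔ, T, hTU, h0, hT⟩ := exists_isoU hss hE hEs hU
  have hmap := tw_map hU (hE i) hΔ hTU h0 hT
  obtain ⟨Δ', hΔ', B, ⟨u, hu, v, hv, huv⟩, hB1, hB⟩ := hsym i
  rw [← hmap] at hu hv
  obtain ⟨u', hu', rfl⟩ := hu
  obtain ⟨v', hv', rfl⟩ := hv
  refine ⟨Δ ⊓ Δ', inferInstance, B.compl₁₂ T T, ⟨u', hu', v', hv', huv⟩, fun w hw => ?_,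
    fun g hg w hw w' hw' => ?_⟩
  · rw [LinearMap.compl₁₂_apply]
    exact hB1 _ (hTU w hw)
  · rw [LinearMap.compl₁₂_apply, LinearMap.compl₁₂_apply, hT g hg.1 w hw, hT g hg.1 w' hw',
      one_smul, one_smul, hB g hg.2 _ (hTU w hw) _ (hTU w' hw')]

end main

end Pool.Agent.W5h27.UN
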