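import Mathlib
import Pool.Agent.R913.Adj.Weight
import Pool.Agent.W5h27.UN.Main
import Pool.Agent.TH118.MT.Main

/-!
# Self-dual parts have even dimension
-/

set_option autoImplicit false

namespace Pool.Agent.W5h27.UN

open Module TensorProduct Pool.Agent.Y126.Notions
open Pool.Agent.H204R3.SP Pool.Agent.H204R3.GP Pool.Agent.W522.U Pool.Agent.TH118.WC
open Pool.Agent.TH118.MT

/-- The matrix form of the argument. -/
theorem parity_matrix {n d : ℕ} {F : Type} [Field F] [CharZero F] (M : Matrix (Fin n) (Fin n) F)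
    (hM : M * M = -1) (A : Matrix (Fin n) (Fin d) F) (P : Matrix (Fin d) (Fin n) F)
    (hPA : P * A = 1) (G : Matrix (Fin d) (Fin d) F) (hG : G.det ≠ 0)
    (h : M.transpose * (P.transpose * G * P) * M = P.transpose * G * P) : Even d := by
  have h1 : M.transpose * (P.transpose * G * P) = -(P.transpose * G * P * M) := by
    have h2 := congrArg (fun Z => Z * M) h
    rw [Matrix.mul_assoc, hM, Matrix.mul_neg, Matrix.mul_one] at h2
    rw [← h2, neg_neg]
  have hAP : A.transpose * P.transpose = 1 := by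
    rw [← Matrix.transpose_mul, hPA, Matrix.transpose_one]
  -- `Jᵀ G P = - G P M`
  have h3 : (P * M * A).transpose * G * P = -(G * P * M) := by
    calc (P * M * A).transpose * G * P
        = A.transpose * (M.transpose * (P.transpose * G * P)) := by
          rw [Matrix.transpose_mul, Matrix.transpose_mul]
          simp only [Matrix.mul_assoc]
      _ = A.transpose * -(P.transpose * G * P * M) := by rw [h1]
      _ = -((A.transpose * P.transpose) * G * P * M) := by
          rw [Matrix.mul_neg]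
          simp only [Matrix.mul_assoc]
      _ = -(G * P * M) := by rw [hAP, Matrix.one_mul]
  have h4 : (P * M * A).transpose * G = -(G * (P * M * A)) := by
    have h5 := congrArg (fun Z => Z * A) h3
    rw [Matrix.mul_assoc _ P A, hPA, Matrix.mul_one] at h5
    rw [h5, Matrix.neg_mul]
    simp only [Matrix.mul_assoc]
  -- `P M = J P`
  have h6 : P * M = P * M * A * P := by
    have h7 : G * (P * M) = G * (P * M * A * P) := by
      have h8 : -(G * P * M) = -(G * (P * M * A)) * P := by rw [← h3, h4]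
      rw [Matrix.neg_mul] at h8
      have h9 := neg_injective h8
      rw [Matrix.mul_assoc] at h9
      rw [h9]
      simp only [Matrix.mul_assoc]
    have hu : IsUnit G.det := isUnit_iff_ne_zero.2 hG
    have h10 := congrArg (fun Z => G⁻¹ * Z) h7
    rwa [← Matrix.mul_assoc, Matrix.nonsing_inv_mul _ hu, Matrix.one_mul, ← Matrix.mul_assoc,
      Matrix.nonsing_inv_mul _ hu, Matrix.one_mul] at h10
  have hJ : (P * M * A) * (P * M * A) = -1 := by
    calc (P * M * A) * (P * M * A) = (P * M * A * P) * M * A := by simp only [Matrix.mul_assoc]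
      _ = P * (M * M) * A := by
          rw [← h6]
          simp only [Matrix.mul_assoc]
      _ = -1 := by rw [hM, Matrix.mul_neg, Matrix.mul_one, Matrix.neg_mul, hPA]
  have hJd : (P * M * A).det ≠ 0 := by
    intro h0
    have h11 := congrArg Matrix.det hJ
    rw [Matrix.det_mul, h0, zero_mul, Matrix.det_neg, Matrix.det_one, mul_one] at h11
    exact pow_ne_zero _ (neg_ne_zero.2 one_ne_zero) h11.symm
  have h12 := congrArg Matrix.det h4
  rw [Matrix.det_mul, Matrix.det_transpose, Matrix.det_neg, Matrix.det_mul, Fintype.card_fin] at h12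
  by_contra hodd
  rw [Nat.not_even_iff_odd] at hodd
  rw [hodd.neg_one_pow] at h12
  have h13 : (2 : F) * ((P * M * A).det * G.det) = 0 := by linear_combination h12
  exact mul_ne_zero two_ne_zero (mul_ne_zero hJd hG) h13

theorem exists_hom (ℓ : ℕ) [Fact ℓ.Prime] : Nonempty (AlgebraicClosure ℚ_[ℓ] →+* ℂ) := by
  obtain ⟨e⟩ := Pool.Agent.R913.Adj.exists_emb ℓ
  let _ : Algebra ℚ_[ℓ] ℂ := e.toAlgebra
  exact ⟨(IsAlgClosed.lift (R := ℚ_[ℓ]) (S := AlgebraicClosure ℚ_[ℓ]) (M := ℂ)).toRingHom⟩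

/-- multiplication by `i` on the tangent space -/
noncomputable def mulI (T : Type) [AddCommGroup T] [Module ℂ T] : T →ₗ[ℝ] T where
  toFun u := Complex.I • u
  map_add' u v := smul_add _ _ _
  map_smul' r u := smul_comm _ _ _

theorem mulI_apply {T : Type} [AddCommGroup T] [Module ℂ T] (u : T) :
    mulI T u = Complex.I • u := rfl

section

variable {W T : Type} [AddCommGroup W] [Module ℚ W] [FiniteDimensional ℚ W] [AddCommGroup T]
  [Module ℂ T] {per : W →+ T}

/-- A rational basis of `H_1` is a real basis of the tangent space. -/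
theorem exists_real_basis {ω₀ : W →ₗ[ℚ] W →ₗ[ℚ] ℚ} (hnondeg : ∀ u, (∀ v, ω₀ v u = 0) → u = 0)
    (hω₀ : IsHodgeBilinear per ω₀) (hspan : Submodule.span ℝ (Set.range per) = ⊤) {n : ℕ}
    (w : Basis (Fin n) ℚ W) : ∃ t : Basis (Fin n) ℝ T, ∀ j, t j = per (w j) := by
  obtain ⟨E, hE, -⟩ := hω₀
  have hG : (Matrix.of fun i j => ω₀ (w i) (w j)).det ≠ 0 := by
    intro h0
    obtain ⟨v, hv0, hv⟩ := Matrix.exists_mulVec_eq_zero_iff.2 h0
    apply hv0
    have h1 : ∑ j, v j • w j = 0 := by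
      apply hnondeg
      intro x
      have h2 : ∀ i, ω₀ (w i) (∑ j, v j • w j) = 0 := by
        intro i
        have h3 := congrFun hv i
        simp only [Matrix.mulVec, dotProduct, Matrix.of_apply, Pi.zero_apply] at h3
        rw [map_sum, ← h3]
        refine Finset.sum_congr rfl fun j _ => ?_
        rw [map_smul, smul_eq_mul, mul_comm]
      have h4 : ω₀.flip (∑ j, v j • w j) = 0 := by
        apply w.ext
        intro i
        rw [LinearMap.flip_apply, h2, LinearMap.zero_apply]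
      have h5 := congrArg (fun f : W →ₗ[ℚ] ℚ => f x) h4
      rwa [LinearMap.flip_apply, LinearMap.zero_apply] at h5
    funext j
    exact (Fintype.linearIndependent_iff.1 w.linearIndependent) v h1 j
  have hli : LinearIndependent ℝ fun j => per (w j) := by
    rw [Fintype.linearIndependent_iff]
    intro r hr
    have h1 : ((Matrix.of fun i j => ω₀ (w i) (w j)).map (fun q : ℚ => (q : ℝ))).mulVec r = 0 := by
      funext i
      simp only [Matrix.mulVec, dotProduct, Matrix.map_apply, Matrix.of_apply, Pi.zero_apply]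
      have h2 : E (per (w i)) (∑ j, r j • per (w j)) = 0 := by rw [hr, map_zero]
      rw [map_sum] at h2
      rw [← h2]
      refine Finset.sum_congr rfl fun j _ => ?_
      rw [map_smul, smul_eq_mul, hE, mul_comm]
    have h3 : ((Matrix.of fun i j => ω₀ (w i) (w j)).map (fun q : ℚ => (q : ℝ))).det ≠ 0 := by
      have h4 := RingHom.map_det (Rat.castHom ℝ) (Matrix.of fun i j => ω₀ (w i) (w j))
      intro h5
      have h6 : (Rat.castHom ℝ) (Matrix.of fun i j => ω₀ (w i) (w j)).det = 0 := by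
        rw [h4]
        exact h5
      exact hG ((map_eq_zero _).1 h6)
    have h7 := Matrix.eq_zero_of_mulVec_eq_zero h3 h1
    exact fun i => congrFun h7 i
  have hsp : ⊤ ≤ Submodule.span ℝ (Set.range fun j => per (w j)) := by
    rw [← hspan, Submodule.span_le]
    rintro _ ⟨x, rfl⟩
    rw [← w.sum_repr x, map_sum]
    refine Submodule.sum_mem _ fun j _ => ?_
    have h1 : per (w.repr x j • w j) = ((w.repr x j : ℚ) : ℝ) • per (w j) := by
      have h2 := map_ratCast_smul per ℚ ℝ (w.repr x j) (w j)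
      simpa using h2
    rw [h1]
    exact Submodule.smul_mem _ _ (Submodule.subset_span ⟨j, rfl⟩)
  exact ⟨Basis.mk hli hsp, fun j => Basis.mk_apply hli hsp j⟩

/-- The Gram matrix of a combination of Hodge forms is invariant under the complex structure. -/
theorem gram_inv {K : Type} [Field K] [CharZero K] {X : Type} [AddCommGroup X] [Module K X]
    (τ : K →+* ℂ) {comp : W →+ X} {n : ℕ} (w : Basis (Fin n) ℚ W) (t : Basis (Fin n) ℝ T)
    (ht : ∀ j, t j = per (w j)) {B : X →ₗ[K] X →ₗ[K] K}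
    (hB : B ∈ Submodule.span K (HB (k := K) per comp)) :
    ((LinearMap.toMatrix t t (mulI T)).map (fun r : ℝ => (r : ℂ))).transpose *
      (Matrix.of fun i j => τ (B (comp (w i)) (comp (w j)))) *
      (LinearMap.toMatrix t t (mulI T)).map (fun r : ℝ => (r : ℂ)) =
      Matrix.of fun i j => τ (B (comp (w i)) (comp (w j))) := by
  induction hB using Submodule.span_induction with
  | mem B₁ hB₁ =>
    obtain ⟨B₀, ⟨E, hE, hEi⟩, hBB⟩ := hB₁
    have h1 : (LinearMap.toMatrix t t (mulI T)).transpose *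
        (Matrix.of fun i j => ((B₀ (w i) (w j) : ℚ) : ℝ)) * LinearMap.toMatrix t t (mulI T) =
        Matrix.of fun i j => ((B₀ (w i) (w j) : ℚ) : ℝ) := by
      ext i j
      rw [Matrix.of_apply, ← hE, ← ht, ← ht, ← hEi Complex.I Complex.norm_I, ← mulI_apply,
        ← mulI_apply]
      have h2 : ∀ k, mulI T (t k) = ∑ l, (LinearMap.toMatrix t t (mulI T)) l k • t l := by
        intro k
        rw [← t.sum_repr (mulI T (t k))]
        refine Finset.sum_congr rfl fun l _ => ?_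
        rw [LinearMap.toMatrix_apply]
      conv_rhs => rw [h2 i, h2 j]
      simp only [map_sum, LinearMap.sum_apply, map_smul, LinearMap.smul_apply, smul_eq_mul,
        Matrix.mul_apply, Matrix.transpose_apply, Matrix.of_apply, Finset.sum_mul, Finset.mul_sum,
        ht, hE]
      refine Finset.sum_congr rfl fun l _ => Finset.sum_congr rfl fun k _ => ?_
      ring
    have h3 : (Matrix.of fun i j => τ (B₁ (comp (w i)) (comp (w j)))) =
        (Matrix.of fun i j => ((B₀ (w i) (w j) : ℚ) : ℝ)).map (fun r : ℝ => (r : ℂ)) := by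
      ext i j
      rw [Matrix.of_apply, Matrix.map_apply, Matrix.of_apply, hBB, map_ratCast]
      push_cast
      rfl
    rw [h3]
    have h4 := congrArg (fun Z : Matrix (Fin n) (Fin n) ℝ => Z.map Complex.ofRealHom) h1
    simp only [Matrix.map_mul] at h4
    exact h4
  | zero =>
    have h1 : (Matrix.of fun i j => τ ((0 : X →ₗ[K] X →ₗ[K] K) (comp (w i)) (comp (w j)))) =
        (0 : Matrix (Fin n) (Fin n) ℂ) := by
      ext i j
      simp
    rw [h1, Matrix.mul_zero, Matrix.zero_mul]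
  | add B₁ B₂ _ _ h1 h2 =>
    have h3 : (Matrix.of fun i j => τ ((B₁ + B₂) (comp (w i)) (comp (w j)))) =
        (Matrix.of fun i j => τ (B₁ (comp (w i)) (comp (w j)))) +
          (Matrix.of fun i j => τ (B₂ (comp (w i)) (comp (w j)))) := by
      ext i j
      simp
    rw [h3, Matrix.mul_add, Matrix.add_mul, h1, h2]
  | smul c B₁ _ h1 =>
    have h3 : (Matrix.of fun i j => τ ((c • B₁) (comp (w i)) (comp (w j)))) =
        τ c • (Matrix.of fun i j => τ (B₁ (comp (w i)) (comp (w j)))) := by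
      ext i j
      simp
    rw [h3, Matrix.mul_smul, Matrix.smul_mul, h1]

theorem mulI_sq {n : ℕ} (t : Basis (Fin n) ℝ T) :
    (LinearMap.toMatrix t t (mulI T)).map (fun r : ℝ => (r : ℂ)) *
      (LinearMap.toMatrix t t (mulI T)).map (fun r : ℝ => (r : ℂ)) = -1 := by
  have h1 : LinearMap.toMatrix t t (mulI T) * LinearMap.toMatrix t t (mulI T) = -1 := by
    rw [← LinearMap.toMatrix_comp]
    have h2 : (mulI T) ∘ₗ (mulI T) = -LinearMap.id := by
      ext u
      rw [LinearMap.comp_apply, mulI_apply, mulI_apply, smul_smul, Complex.I_mul_I]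
      simp
    rw [h2, map_neg, LinearMap.toMatrix_id]
  have h4 := congrArg (fun Z : Matrix (Fin n) (Fin n) ℝ => Z.map Complex.ofRealHom) h1
  simp only [Matrix.map_mul] at h4
  rw [show (fun r : ℝ => (r : ℂ)) = Complex.ofRealHom from rfl, h4]
  ext i j
  simp [Matrix.one_apply, apply_ite]

/-- **Self-dual strongly irreducible subspaces have even dimension.** -/
theorem even_of_du (ℓ : ℕ) [Fact ℓ.Prime] (ω₀ : W →ₗ[ℚ] W →ₗ[ℚ] ℚ) (halt : ∀ v, ω₀ v v = 0)
    (hnondeg : ∀ u, (∀ v, ω₀ v u = 0) → u = 0) (hω₀ : IsHodgeBilinear per ω₀)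
    (hspan : Submodule.span ℝ (Set.range per) = ⊤)
    {Γ : Type} [Group Γ] (ρ : Representation ℚ_[ℓ] Γ (ℚ_[ℓ] ⊗[ℚ] W)) (χ : Γ →* ℚ_[ℓ])
    (hω : ∀ s u v, bcb ℚ_[ℓ] ω₀ (ρ s u) (ρ s v) = χ s * bcb ℚ_[ℓ] ω₀ u v)
    (hss : FiniteIndexSemisimple ρ) (hF : FaltingsEnd per (incl ℚ_[ℓ] W) ρ)
    {U : Submodule (AlgebraicClosure ℚ_[ℓ]) (AlgebraicClosure ℚ_[ℓ] ⊗[ℚ_[ℓ]] (ℚ_[ℓ] ⊗[ℚ] W))}
    (hU : SI (bcr ρ (AlgebraicClosure ℚ_[ℓ])) U)
    (hdu : Du (bcr ρ (AlgebraicClosure ℚ_[ℓ])) (bcc χ (AlgebraicClosure ℚ_[ℓ])) U U) :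
    Even (finrank (AlgebraicClosure ℚ_[ℓ]) U) := by
  classical
  have hpr : HasProj (bcr ρ (AlgebraicClosure ℚ_[ℓ])) := hasProj_bcr ρ _ hss
  obtain ⟨τ⟩ := exists_hom ℓ
  obtain ⟨Δ, hΔ, B, h0, hB⟩ := hdu
  obtain ⟨Δ', hΔ', hst⟩ := id hU.2.1
  obtain ⟨p, hp1, hp2, hp3⟩ := hpr Δ' hΔ' U hst
  have hleft := du_left hU hU.2.1 hΔ h0 hB
  have hT2 : IsTate2 (bcr ρ (AlgebraicClosure ℚ_[ℓ])) (bcc χ (AlgebraicClosure ℚ_[ℓ]))
      (B.compl₁₂ p p) := by
    refine ⟨Δ ⊓ Δ', inferInstance, fun s hs u v => ?_⟩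
    rw [LinearMap.compl₁₂_apply, LinearMap.compl₁₂_apply, hp3 s hs.2, hp3 s hs.2,
      hB s hs.1 _ (hp1 u) _ (hp1 v)]
  have hmem := faltings_ext (K := AlgebraicClosure ℚ_[ℓ])
    (fun B hB => faltings_bil ω₀ halt hnondeg hω₀ hω hF B hB) _ hT2
  let w := finBasis ℚ W
  obtain ⟨t, ht⟩ := exists_real_basis hnondeg hω₀ hspan w
  have hgram := gram_inv τ w t ht hmem
  let x : Basis (Fin (finrank ℚ W)) (AlgebraicClosure ℚ_[ℓ])
    (AlgebraicClosure ℚ_[ℓ] ⊗[ℚ_[ℓ]] (ℚ_[ℓ] ⊗[ℚ] W)) :=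
    (w.baseChange ℚ_[ℓ]).baseChange (AlgebraicClosure ℚ_[ℓ])
  have hx : ∀ j, x j = extend (k := ℚ_[ℓ]) (AlgebraicClosure ℚ_[ℓ]) (incl ℚ_[ℓ] W) (w j) := by
    intro j
    rw [extend_apply, incl_apply]
    simp [x]
  let b := finBasis (AlgebraicClosure ℚ_[ℓ]) U
  let A : Matrix (Fin (finrank ℚ W)) (Fin (finrank (AlgebraicClosure ℚ_[ℓ]) U))
    (AlgebraicClosure ℚ_[ℓ]) := Matrix.of fun j a => x.repr (b a) j
  let P : Matrix (Fin (finrank (AlgebraicClosure ℚ_[ℓ]) U)) (Fin (finrank ℚ W))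
    (AlgebraicClosure ℚ_[ℓ]) := Matrix.of fun a j => b.repr ⟨p (x j), hp1 _⟩ a
  let G : Matrix (Fin (finrank (AlgebraicClosure ℚ_[ℓ]) U))
    (Fin (finrank (AlgebraicClosure ℚ_[ℓ]) U)) (AlgebraicClosure ℚ_[ℓ]) :=
    Matrix.of fun a c => B (b a) (b c)
  have hPA : P * A = 1 := by
    ext a c
    rw [Matrix.mul_apply, Matrix.one_apply]
    have h1 : (⟨p (b c : AlgebraicClosure ℚ_[ℓ] ⊗[ℚ_[ℓ]] (ℚ_[ℓ] ⊗[ℚ] W)), hp1 _⟩ : U) = b c :=
      Subtype.ext (hp2 _ (b c).2)
    have h2 : (⟨p (b c : AlgebraicClosure ℚ_[ℓ] ⊗[ℚ_[ℓ]] (ℚ_[ℓ] ⊗[ℚ] W)), hp1 _⟩ : U) =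
        ∑ j, A j c • (⟨p (x j), hp1 _⟩ : U) := by
      apply Subtype.ext
      rw [Submodule.coe_sum]
      change p (b c) = ∑ j, A j c • p (x j)
      conv_lhs => rw [← x.sum_repr (b c), map_sum]
      refine Finset.sum_congr rfl fun j _ => ?_
      rw [map_smul]
      rfl
    have h3 := congrArg (fun y : U => b.repr y a) (h2.symm.trans h1)
    simp only [map_sum, map_smul, Finsupp.coe_finsetSum, Finset.sum_apply, Finsupp.smul_apply,
      smul_eq_mul, Basis.repr_self] at h3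
    rw [Finsupp.single_apply] at h3
    have h4 : ∑ j, P a j * A j c = ∑ j, A j c * b.repr ⟨p (x j), hp1 _⟩ a :=
      Finset.sum_congr rfl fun j _ => mul_comm _ _
    rw [h4, h3]
    by_cases hac : a = c
    · rw [if_pos hac, if_pos hac.symm]
    · rw [if_neg hac, if_neg (Ne.symm hac)]
  have hGd : G.det ≠ 0 := by
    intro hd
    obtain ⟨v, hv0, hv⟩ := Matrix.exists_vecMul_eq_zero_iff.2 hd
    apply hv0
    have h1 : ((∑ a, v a • b a : U) : AlgebraicClosure ℚ_[ℓ] ⊗[ℚ_[ℓ]] (ℚ_[ℓ] ⊗[ℚ] W)) = 0 := by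
      refine hleft _ (Subtype.mem _) fun y hy => ?_
      have h2 : ∀ c, B ((∑ a, v a • b a : U) :
          AlgebraicClosure ℚ_[ℓ] ⊗[ℚ_[ℓ]] (ℚ_[ℓ] ⊗[ℚ] W)) (b c) = 0 := by
        intro c
        have h3 := congrFun hv c
        simp only [Matrix.vecMul, dotProduct, Pi.zero_apply] at h3
        rw [Submodule.coe_sum, map_sum, LinearMap.sum_apply, ← h3]
        refine Finset.sum_congr rfl fun a _ => ?_
        rw [Submodule.coe_smul, map_smul, LinearMap.smul_apply, smul_eq_mul]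
        rfl
      have h5 : y = ∑ c, b.repr ⟨y, hy⟩ c •
          (b c : AlgebraicClosure ℚ_[ℓ] ⊗[ℚ_[ℓ]] (ℚ_[ℓ] ⊗[ℚ] W)) := by
        have h6 := congrArg Subtype.val (b.sum_repr ⟨y, hy⟩)
        rw [Submodule.coe_sum] at h6
        exact h6.symm
      rw [h5, map_sum]
      refine Finset.sum_eq_zero fun c _ => ?_
      rw [map_smul, h2, smul_zero]
    have h7 : ∑ a, v a • b a = 0 := Subtype.ext h1
    funext a
    exact (Fintype.linearIndependent_iff.1 b.linearIndependent) v h7 a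
  have hPGP : (Matrix.of fun i j => τ ((B.compl₁₂ p p) (x i) (x j))) =
      (P.map τ).transpose * (G.map τ) * (P.map τ) := by
    rw [← Matrix.transpose_map, ← Matrix.map_mul, ← Matrix.map_mul]
    ext i j
    rw [Matrix.of_apply, Matrix.map_apply]
    congr 1
    have h1 : ∀ j, p (x j) = ∑ a, P a j •
        (b a : AlgebraicClosure ℚ_[ℓ] ⊗[ℚ_[ℓ]] (ℚ_[ℓ] ⊗[ℚ] W)) := by
      intro j
      have h6 := congrArg Subtype.val (b.sum_repr ⟨p (x j), hp1 _⟩)
      rw [Submodule.coe_sum] at h6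
      exact h6.symm
    rw [LinearMap.compl₁₂_apply, h1 i, h1 j]
    simp only [map_sum, LinearMap.sum_apply, map_smul, LinearMap.smul_apply, smul_eq_mul,
      Matrix.mul_apply, Matrix.transpose_apply, Finset.sum_mul, Finset.mul_sum]
    refine Finset.sum_congr rfl fun l _ => Finset.sum_congr rfl fun k _ => ?_
    change _ = P k i * B (b k) (b l) * P l j
    ring
  refine parity_matrix _ (mulI_sq t) (A.map τ) (P.map τ) ?_ (G.map τ) ?_ ?_
  · rw [← Matrix.map_mul, hPA]
    ext i j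
    simp [Matrix.one_apply, apply_ite]
  · intro h
    have h1 : (G.map τ).det = τ G.det := (RingHom.map_det τ G).symm
    rw [h1] at h
    exact hGd ((map_eq_zero τ).1 h)
  · rw [← hPGP]
    have h1 : (Matrix.of fun i j => τ ((B.compl₁₂ p p) (x i) (x j))) = Matrix.of fun i j =>
        τ ((B.compl₁₂ p p) (extend (k := ℚ_[ℓ]) (AlgebraicClosure ℚ_[ℓ]) (incl ℚ_[ℓ] W) (w i))
          (extend (k := ℚ_[ℓ]) (AlgebraicClosure ℚ_[ℓ]) (incl ℚ_[ℓ] W) (w j))) := by
      ext i j
      rw [Matrix.of_apply, Matrix.of_apply, hx, hx]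
    rw [h1]
    exact hgram

end

end Pool.Agent.W5h27.UN
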