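import Mathlib
import Pool.Agent.W5h27.UN.Ref

/-!
# A Lie algebra of operators on a space of dimension three without nilpotents of rank one
-/

set_option autoImplicit false

namespace Pool.Agent.W5h27.UN

open Module Pool.Agent.W522.U

section aux3

variable {K : Type} [Field K] {V : Type} [AddCommGroup V] [Module K V] [FiniteDimensional K V]

theorem nil_of_eig [IsAlgClosed K] (f : Module.End K V) (h : ∀ μ, f.HasEigenvalue μ → μ = 0) :
    IsNilpotent f := by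
  have h1 : f.maxGenEigenspace 0 = ⊤ := by
    rw [eq_top_iff, ← Module.End.iSup_maxGenEigenspace_eq_top f]
    refine iSup_le fun μ => ?_
    by_cases hμ : f.maxGenEigenspace μ = ⊥
    · rw [hμ]; exact bot_le
    · have h2 : f.HasUnifEigenvalue μ ⊤ := hμ
      have h3 : f.HasEigenvalue μ := h2.lt zero_lt_one
      rw [h μ h3]
  refine ⟨finrank K V, ?_⟩
  ext x
  have h2 : x ∈ f.maxGenEigenspace 0 := by rw [h1]; trivial
  rw [Module.End.maxGenEigenspace_eq_genEigenspace_finrank, Module.End.mem_genEigenspace_nat] at h2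
  simpa using h2

omit [FiniteDimensional K V] in
theorem brak_pow {x y : Module.End K V} {α : K} (h : x * y - y * x = α • y) (k : ℕ) :
    x * y ^ k - y ^ k * x = ((k : K) * α) • y ^ k := by
  induction k with
  | zero => simp
  | succ k ih =>
    have e : x * y ^ (k + 1) - y ^ (k + 1) * x = (x * y ^ k - y ^ k * x) * y +
        y ^ k * (x * y - y * x) := by
      rw [pow_succ]; noncomm_ring
    rw [e, ih, h, smul_mul_assoc, mul_smul_comm, ← pow_succ, ← add_smul]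
    congr 1
    push_cast; ring

theorem nil_of_brak [CharZero K] {x y : Module.End K V} {α : K} (hα : α ≠ 0)
    (h : x * y - y * x = α • y) : IsNilpotent y := by
  by_contra hn
  have hy : ∀ k, y ^ k ≠ 0 := fun k hk => hn ⟨k, hk⟩
  let A : Module.End K (Module.End K V) := LinearMap.mulLeft K x - LinearMap.mulRight K x
  have hA : ∀ z, A z = x * z - z * x := fun z => rfl
  have hinj : Function.Injective (fun k : ℕ => (k : K) * α) := by
    intro a b hab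
    have := mul_right_cancel₀ hα hab
    exact_mod_cast this
  have hfin := A.finite_hasEigenvalue
  refine Set.infinite_of_injective_forall_mem hinj (fun k => ?_) hfin
  change A.HasEigenvalue ((k : K) * α)
  refine Module.End.hasEigenvalue_of_hasEigenvector (x := y ^ k) ?_
  rw [Module.End.hasEigenvector_iff]
  refine ⟨?_, hy k⟩
  rw [Module.End.mem_eigenspace_iff, hA]
  exact brak_pow h k

theorem cube_zero (h3 : finrank K V = 3) {y : Module.End K V} (hy : IsNilpotent y) :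
    y * y * y = 0 := by
  have h1 := LinearMap.aeval_self_charpoly y
  rw [IsNilpotent.charpoly_eq_X_pow_finrank hy, h3] at h1
  simpa [pow_succ] using h1

theorem rank_one (h3 : finrank K V = 3) {y : Module.End K V} (hy : y ≠ 0) (hyy : y * y = 0) :
    ∃ (u : V) (ψ : Dual K V), u ≠ 0 ∧ ψ ≠ 0 ∧ ψ u = 0 ∧ y = ψ.smulRight u := by
  have hle : LinearMap.range y ≤ LinearMap.ker y := by
    rintro _ ⟨v, rfl⟩
    rw [LinearMap.mem_ker]
    exact congrArg (fun f : Module.End K V => f v) hyy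
  have h1 := LinearMap.finrank_range_add_finrank_ker y
  have h2 := Submodule.finrank_mono hle
  have h4 : finrank K (LinearMap.range y) ≤ 1 := by omega
  obtain ⟨⟨u, hu⟩, hu'⟩ := finrank_le_one_iff.1 h4
  have hsp : ∀ v, ∃ c : K, y v = c • u := by
    intro v
    obtain ⟨c, hc⟩ := hu' ⟨y v, v, rfl⟩
    exact ⟨c, (congrArg Subtype.val hc).symm⟩
  have hu0 : u ≠ 0 := by
    rintro rfl
    apply hy
    ext v
    obtain ⟨c, hc⟩ := hsp v
    rw [hc, smul_zero]; rfl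
  obtain ⟨f, hf⟩ : ∃ f : Dual K V, f u ≠ 0 := by
    by_contra hcon
    push Not at hcon
    exact hu0 ((Module.forall_dual_apply_eq_zero_iff K u).1 hcon)
  let ψ : Dual K V := (f u)⁻¹ • f.comp y
  have hψ : ∀ v, y v = ψ v • u := by
    intro v
    obtain ⟨c, hc⟩ := hsp v
    have e : ψ v = c := by
      change (f u)⁻¹ * f (y v) = c
      rw [hc, map_smul, smul_eq_mul]
      field_simp
    rw [e, hc]
  have hy' : y = ψ.smulRight u := by
    ext v
    rw [hψ, LinearMap.smulRight_apply]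
  refine ⟨u, ψ, hu0, ?_, ?_, hy'⟩
  · intro h
    apply hy
    rw [hy', h]
    ext v; simp
  · have h5 : y u = 0 := LinearMap.mem_ker.1 (hle hu)
    rw [hψ] at h5
    exact (smul_eq_zero.1 h5).resolve_right hu0

attribute [local instance 100] LieRing.ofAssociativeRing

theorem exists_nil [CharZero K] [IsAlgClosed K] [Nontrivial V] (𝔰 : Submodule K (Module.End K V))
    (hbr : ∀ X ∈ 𝔰, ∀ Y ∈ 𝔰, X * Y - Y * X ∈ 𝔰)
    (hce : ∀ d : V, d ≠ 0 → (∀ Y ∈ 𝔰, ∃ a : K, Y d = a • d) → False) :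
    ∃ y ∈ 𝔰, y ≠ 0 ∧ IsNilpotent y := by
  by_contra hcon
  push Not at hcon
  let L : LieSubalgebra K (Module.End K V) :=
    { 𝔰 with lie_mem' := fun {X Y} hX hY => hbr X hX Y hY }
  have hL : ∀ x : L, (x : Module.End K V) ∈ 𝔰 := fun x => x.2
  have hnil : ∀ x : L, IsNilpotent (LieAlgebra.ad K L x) := by
    intro x
    refine nil_of_eig _ fun μ hμ => ?_
    by_contra hμ0
    obtain ⟨y, hy⟩ := hμ.exists_hasEigenvector
    have h1 : LieAlgebra.ad K L x y = μ • y := hy.apply_eq_smul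
    have h2 : (x : Module.End K V) * y - y * x = μ • (y : Module.End K V) :=
      congrArg Subtype.val h1
    have h3 := nil_of_brak hμ0 h2
    exact hcon y (hL y) (fun h => hy.2 (Subtype.ext h)) h3
  have h1 : LieRing.IsNilpotent L := (LieAlgebra.isNilpotent_iff_forall (R := K)).2 hnil
  obtain ⟨χ, hχ⟩ := LieModule.exists_nontrivial_weightSpace_of_isSolvable K L V
  obtain ⟨⟨d, hd⟩, hd0⟩ := exists_ne (0 : LieModule.weightSpace V χ)
  rw [LieModule.mem_weightSpace] at hd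
  refine hce d (fun h => hd0 (Subtype.ext h)) fun Y hY => ?_
  exact ⟨χ ⟨Y, hY⟩, hd ⟨Y, hY⟩⟩

end aux3

theorem three_a {K : Type} [Field K] [CharZero K] [IsAlgClosed K] {V : Type} [AddCommGroup V]
    [Module K V] [FiniteDimensional K V] (h3 : finrank K V = 3) {G : Type} [Group G]
    (r : Representation K G V) (hirr : Irr r) (𝔥 : Submodule K (Module.End K V))
    (hbr : ∀ X ∈ 𝔥, ∀ Y ∈ 𝔥, X * Y - Y * X ∈ 𝔥)
    (hconj : ∀ s : G, ∀ X ∈ 𝔥, r s * X * r s⁻¹ ∈ 𝔥)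
    (hns : ∃ Y ∈ 𝔥, ¬∃ a : K, ∀ u, Y u = a • u)
    (hno : ¬∃ (u : V) (ψ : Dual K V), u ≠ 0 ∧ ψ ≠ 0 ∧ ψ u = 0 ∧
      (ψ.smulRight u : Module.End K V) ∈ 𝔥) :
    ∃ 𝔰 : Submodule K (Module.End K V), 𝔰 ≤ 𝔥 ∧ (∀ X ∈ 𝔰, ∀ Y ∈ 𝔰, X * Y - Y * X ∈ 𝔰) ∧
      (∀ s : G, ∀ X ∈ 𝔰, r s * X * r s⁻¹ ∈ 𝔰) ∧ (∀ X ∈ 𝔰, LinearMap.trace K V X = 0) ∧
      (∀ d : V, d ≠ 0 → (∀ Y ∈ 𝔰, ∃ a : K, Y d = a • d) → False) ∧
      ∃ e ∈ 𝔰, e * e ≠ 0 ∧ e * e * e = 0 := by
  classical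
  have hntV : Nontrivial V := Module.nontrivial_of_finrank_pos (R := K) (by omega)
  have hnt : (⊤ : Submodule K V) ≠ ⊥ := top_ne_bot
  have hSI : SI r (⊤ : Submodule K V) := by
    refine ⟨hnt, pot_top, fun W _ hW => ?_⟩
    obtain ⟨Δ, hΔ, h1⟩ := hW
    exact hirr Δ hΔ W h1
  -- an invariant space of operators with a non-scalar element has no common eigenvector
  have hce : ∀ 𝔱 : Submodule K (Module.End K V), (∀ s : G, ∀ X ∈ 𝔱, r s * X * r s⁻¹ ∈ 𝔱) →
      (∃ Y ∈ 𝔱, ¬∃ a : K, ∀ u, Y u = a • u) → ∀ d : V, d ≠ 0 →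
      (∀ Y ∈ 𝔱, ∃ a : K, Y d = a • d) → False := by
    intro 𝔱 hc hn d hd hde
    obtain ⟨Y, hY, hYn⟩ := hn
    obtain ⟨a, ha⟩ := Pool.Agent.TH118.CR.scalar_of_vector hSI 𝔱 hc (Submodule.mem_top) hd hde Y hY
    exact hYn ⟨a, fun u => ha u Submodule.mem_top⟩
  obtain ⟨X, hX, Y, hY, hXY⟩ : ∃ X ∈ 𝔥, ∃ Y ∈ 𝔥, X * Y ≠ Y * X := by
    by_contra hcon
    push Not at hcon
    obtain ⟨d, -, hd0, hde⟩ := common_eig 𝔥 hcon _ ⊤ rfl hnt (fun _ _ _ _ => trivial)
    exact hce 𝔥 hconj hns d hd0 hde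
  let 𝔰 : Submodule K (Module.End K V) := 𝔥 ⊓ LinearMap.ker (LinearMap.trace K V)
  have hmem : ∀ Z, Z ∈ 𝔰 ↔ Z ∈ 𝔥 ∧ LinearMap.trace K V Z = 0 := fun Z => by
    rw [Submodule.mem_inf, LinearMap.mem_ker]
  have hbr' : ∀ X ∈ 𝔥, ∀ Y ∈ 𝔥, X * Y - Y * X ∈ 𝔰 := by
    intro X hX Y hY
    refine (hmem _).2 ⟨hbr X hX Y hY, ?_⟩
    rw [map_sub, LinearMap.trace_mul_comm, sub_self]
  have hconj' : ∀ s : G, ∀ X ∈ 𝔰, r s * X * r s⁻¹ ∈ 𝔰 := by
    intro s X hX
    obtain ⟨h1, h2⟩ := (hmem X).1 hX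
    refine (hmem _).2 ⟨hconj s X h1, ?_⟩
    rw [LinearMap.trace_mul_comm, ← mul_assoc, ← map_mul, inv_mul_cancel, map_one, one_mul, h2]
  have hZ := hbr' X hX Y hY
  have hZ0 : X * Y - Y * X ≠ 0 := sub_ne_zero.2 hXY
  have hns' : ∃ Y ∈ 𝔰, ¬∃ a : K, ∀ u, Y u = a • u := by
    refine ⟨_, hZ, ?_⟩
    rintro ⟨a, ha⟩
    have e : X * Y - Y * X = a • (1 : Module.End K V) := by
      ext u
      rw [ha]
      rfl
    have h1 := ((hmem _).1 hZ).2
    rw [e, map_smul, LinearMap.trace_one, h3, smul_eq_mul] at h1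
    have h2 : a = 0 := by
      rcases mul_eq_zero.1 h1 with h | h
      · exact h
      · norm_num at h
    rw [h2, zero_smul] at e
    exact hZ0 e
  have hce' := hce 𝔰 hconj' hns'
  obtain ⟨y, hy, hy0, hyn⟩ := exists_nil 𝔰
    (fun X hX Y hY => hbr' X ((hmem X).1 hX).1 Y ((hmem Y).1 hY).1) hce'
  refine ⟨𝔰, inf_le_left, fun X hX Y hY => hbr' X ((hmem X).1 hX).1 Y ((hmem Y).1 hY).1, hconj',
    fun X hX => ((hmem X).1 hX).2, hce', y, hy, fun hyy => ?_, cube_zero h3 hyn⟩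
  obtain ⟨u, ψ, hu, hψ, hψu, he⟩ := rank_one h3 hy0 hyy
  exact hno ⟨u, ψ, hu, hψ, hψu, he ▸ ((hmem y).1 hy).1⟩

end Pool.Agent.W5h27.UN
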