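import Mathlib

set_option autoImplicit false

/-!
# A regular nilpotent operator in a Lie algebra of operators in dimension three
-/

namespace Pool.Agent.W5h27.UN

open Module

section

variable {K : Type} [Field K] [CharZero K] {V : Type} [AddCommGroup V] [Module K V]
  [FiniteDimensional K V]

omit [CharZero K] [FiniteDimensional K V] in
/-- A cyclic basis. -/
theorem basis_cyc (h3 : finrank K V = 3) {e : Module.End K V} (he3 : e * e * e = 0) {v : V}
    (hv : e (e v) ≠ 0) : ∃ b : Basis (Fin 3) K V, b 0 = e (e v) ∧ b 1 = e v ∧ b 2 = v := by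
  have h0 : ∀ x, e (e (e x)) = 0 := fun x => by
    have h1 := congrArg (fun g : Module.End K V => g x) he3
    exact h1
  have hli : LinearIndependent K ![e (e v), e v, v] := by
    rw [Fintype.linearIndependent_iff]
    intro g hg
    rw [Fin.sum_univ_three] at hg
    have hg0 : g 0 • e (e v) + g 1 • e v + g 2 • v = 0 := hg
    have h1 : g 2 = 0 := by
      have h2 := congrArg (fun x => e (e x)) hg0
      simp only [map_add, map_smul, h0, map_zero, smul_zero, zero_add] at h2
      exact (smul_eq_zero.1 h2).resolve_right hv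
    rw [h1, zero_smul, add_zero] at hg0
    have h4 : g 1 = 0 := by
      have h2 := congrArg (fun x => e x) hg0
      simp only [map_add, map_smul, h0, map_zero, smul_zero, zero_add] at h2
      exact (smul_eq_zero.1 h2).resolve_right hv
    rw [h4, zero_smul, add_zero] at hg0
    have h5 : g 0 = 0 := (smul_eq_zero.1 hg0).resolve_right hv
    intro i
    fin_cases i
    · exact h5
    · exact h4
    · exact h1
  refine ⟨basisOfLinearIndependentOfCardEqFinrank hli (by simp [h3]), ?_, ?_, ?_⟩ <;> simp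

omit [CharZero K] [FiniteDimensional K V] in
theorem exp_three (b : Basis (Fin 3) K V) (v : V) :
    ∃ x y z : K, v = x • b 0 + y • b 1 + z • b 2 :=
  ⟨b.repr v 0, b.repr v 1, b.repr v 2, by
    conv_lhs => rw [← b.sum_repr v]
    rw [Fin.sum_univ_three]⟩

omit [CharZero K] [FiniteDimensional K V] in
/-- the trace of an upper triangular operator -/
theorem trace_three (b : Basis (Fin 3) K V) {Z : Module.End K V} {x y z p q r : K}
    (h0 : Z (b 0) = x • b 0) (h1 : Z (b 1) = p • b 0 + y • b 1)
    (h2 : Z (b 2) = q • b 0 + r • b 1 + z • b 2) : LinearMap.trace K V Z = x + y + z := by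
  rw [LinearMap.trace_eq_matrix_trace K b Z, Matrix.trace_fin_three]
  simp only [LinearMap.toMatrix_apply, h0, h1, h2]
  simp

omit [CharZero K] [FiniteDimensional K V] in
/-- The square of `e` is not in the space. -/
theorem sq_notMem (h3 : finrank K V = 3) (𝔥 : Submodule K (Module.End K V))
    (hno : ¬∃ (u : V) (ψ : Dual K V), u ≠ 0 ∧ ψ ≠ 0 ∧ ψ u = 0 ∧
      (ψ.smulRight u : Module.End K V) ∈ 𝔥) {e : Module.End K V} (he2 : e * e ≠ 0)
    (he3 : e * e * e = 0) : e * e ∉ 𝔥 := by
  intro hmem
  obtain ⟨v, hv⟩ : ∃ v, e (e v) ≠ 0 := by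
    by_contra h
    push Not at h
    exact he2 (LinearMap.ext h)
  obtain ⟨b, hb0, hb1, hb2⟩ := basis_cyc h3 he3 hv
  have h0 : ∀ x, e (e (e x)) = 0 := fun x => by
    have h1 := congrArg (fun g : Module.End K V => g x) he3
    exact h1
  have e0 : e (b 0) = 0 := by rw [hb0, h0]
  have e1 : e (b 1) = b 0 := by rw [hb1, hb0]
  have e2 : e (b 2) = b 1 := by rw [hb2, hb1]
  apply hno
  refine ⟨b 0, b.coord 2, b.ne_zero 0, ?_, ?_, ?_⟩
  · intro h
    have h1 : b.coord 2 (b 2) = 0 := by rw [h]; rfl
    simp at h1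
  · simp
  · have h1 : ((b.coord 2).smulRight (b 0) : Module.End K V) = e * e := by
      apply b.ext
      intro i
      fin_cases i
      · change (b.coord 2).smulRight (b 0) (b 0) = e (e (b 0))
        rw [e0, map_zero e]
        simp
      · change (b.coord 2).smulRight (b 0) (b 1) = e (e (b 1))
        rw [e1, e0]
        simp
      · change (b.coord 2).smulRight (b 0) (b 2) = e (e (b 2))
        rw [e2, e1]
        simp
    rw [h1]
    exact hmem

theorem three_b (h3 : finrank K V = 3) (𝔰 : Submodule K (Module.End K V))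
    (hbr : ∀ X ∈ 𝔰, ∀ Y ∈ 𝔰, X * Y - Y * X ∈ 𝔰) (htr : ∀ X ∈ 𝔰, LinearMap.trace K V X = 0)
    (hce : ∀ d : V, d ≠ 0 → (∀ Y ∈ 𝔰, ∃ a : K, Y d = a • d) → False) {e : Module.End K V}
    (he : e ∈ 𝔰) (he2 : e * e ≠ 0) (he3 : e * e * e = 0) (hee : e * e ∉ 𝔰) :
    ∃ (b : Basis (Fin 3) K V) (h f : Module.End K V), h ∈ 𝔰 ∧ f ∈ 𝔰 ∧ e (b 0) = 0 ∧
      e (b 1) = b 0 ∧ e (b 2) = b 1 ∧ h (b 0) = (2 : K) • b 0 ∧ h (b 1) = 0 ∧
      h (b 2) = (-2 : K) • b 2 ∧ f (b 0) = (2 : K) • b 1 ∧ f (b 1) = (2 : K) • b 2 ∧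
      f (b 2) = 0 := by
  classical
  have h0 : ∀ x, e (e (e x)) = 0 := fun x => by
    have h1 := congrArg (fun g : Module.End K V => g x) he3
    exact h1
  obtain ⟨v, hv⟩ : ∃ v, e (e v) ≠ 0 := by
    by_contra h
    push Not at h
    exact he2 (LinearMap.ext h)
  obtain ⟨b, hb0, hb1, hb2⟩ := basis_cyc h3 he3 hv
  have e0 : e (b 0) = 0 := by rw [hb0, h0]
  have e1 : e (b 1) = b 0 := by rw [hb1, hb0]
  have e2 : e (b 2) = b 1 := by rw [hb2, hb1]
  -- the centralizer of `e`
  have hker : ∀ Y ∈ 𝔰, e * Y = Y * e → ∃ c : K, Y = c • e := by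
    intro Y hY hc
    have hc' : ∀ x, Y (e x) = e (Y x) := fun x => by
      have h1 := congrArg (fun g : Module.End K V => g x) hc
      exact h1.symm
    obtain ⟨x, y, z, hxyz⟩ := exp_three b (Y (b 2))
    have hY1 : Y (b 1) = y • b 0 + z • b 1 := by
      rw [← e2, hc', hxyz]
      simp only [map_add, map_smul, e0, e1, e2, smul_zero, zero_add]
    have hY0 : Y (b 0) = z • b 0 := by
      rw [← e1, hc', hY1]
      simp only [map_add, map_smul, e0, e1, smul_zero, zero_add]
    have hz : z = 0 := by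
      have h1 := trace_three b hY0 hY1 hxyz
      rw [htr Y hY] at h1
      have h2 : (3 : K) * z = 0 := by linear_combination -h1
      exact (mul_eq_zero.1 h2).resolve_left (by norm_num)
    subst hz
    have hYe : Y - y • e = x • (e * e) := by
      apply b.ext
      intro i
      fin_cases i
      · change Y (b 0) - y • e (b 0) = x • e (e (b 0))
        rw [hY0, e0, map_zero e, smul_zero, smul_zero, zero_smul, sub_zero]
      · change Y (b 1) - y • e (b 1) = x • e (e (b 1))
        rw [hY1, e1, e0, smul_zero, zero_smul, add_zero, sub_self]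
      · change Y (b 2) - y • e (b 2) = x • e (e (b 2))
        rw [hxyz, e2, e1, zero_smul, add_zero, add_sub_cancel_right]
    have hx : x = 0 := by
      by_contra hx
      apply hee
      have h1 : x • (e * e) ∈ 𝔰 := hYe ▸ 𝔰.sub_mem hY (𝔰.smul_mem y he)
      have h2 := 𝔰.smul_mem x⁻¹ h1
      rwa [smul_smul, inv_mul_cancel₀ hx, one_smul] at h2
    rw [hx, zero_smul] at hYe
    exact ⟨y, sub_eq_zero.1 hYe⟩
  -- the operator `ad e`
  let ad : Module.End K (Module.End K V) := LinearMap.mulLeft K e - LinearMap.mulRight K e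
  have had : ∀ Y, ad Y = e * Y - Y * e := fun Y => rfl
  have hadm : ∀ Y ∈ 𝔰, ad Y ∈ 𝔰 := fun Y hY => hbr e he Y hY
  have hnil : IsNilpotent ad := by
    have hen : IsNilpotent e := ⟨3, by rw [pow_succ, pow_succ, pow_one, he3]⟩
    have hl : IsNilpotent (LinearMap.mulLeft K e) := by rwa [LinearMap.isNilpotent_mulLeft_iff]
    have hr : IsNilpotent (LinearMap.mulRight K e) := by rwa [LinearMap.isNilpotent_mulRight_iff]
    exact (LinearMap.commute_mulLeft_right e e).isNilpotent_sub hl hr
  have hpm : ∀ (k : ℕ) (Y : Module.End K V), Y ∈ 𝔰 → (ad ^ k) Y ∈ 𝔰 := by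
    intro k
    induction k with
    | zero => intro Y hY; exact hY
    | succ k ih =>
      intro Y hY
      rw [pow_succ, Module.End.mul_apply]
      exact ih _ (hadm Y hY)
  obtain ⟨Y, hY, hYn⟩ : ∃ Y ∈ 𝔰, ∀ c : K, ad Y ≠ c • e := by
    by_contra hcon
    push Not at hcon
    refine hce (b 0) (b.ne_zero 0) fun Y hY => ?_
    obtain ⟨c, hc⟩ := hcon Y hY
    obtain ⟨x, y, z, hxyz⟩ := exp_three b (Y (b 0))
    have h1 : e (Y (b 0)) = 0 := by
      have h2 := congrArg (fun g : Module.End K V => g (b 0)) hc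
      have h4 : e (Y (b 0)) - Y (e (b 0)) = c • e (b 0) := h2
      rwa [e0, map_zero Y, sub_zero, smul_zero] at h4
    rw [hxyz] at h1
    simp only [map_add, map_smul, e0, e1, e2, smul_zero, zero_add] at h1
    have hli := b.linearIndependent
    have hz : z = 0 := by
      have h5 := congrArg (fun w => b.repr w 1) h1
      simpa using h5
    have hy : y = 0 := by
      have h5 := congrArg (fun w => b.repr w 0) h1
      simpa using h5
    exact ⟨x, by rw [hxyz, hy, hz, zero_smul, zero_smul, add_zero, add_zero]⟩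
  obtain ⟨F, hF, hF2⟩ : ∃ F ∈ 𝔰, ad (ad F) = (-2 : K) • e := by
    have hex : ∃ n, (ad ^ n) Y = 0 := by
      obtain ⟨n, hn⟩ := hnil
      exact ⟨n, by rw [hn]; rfl⟩
    have hn2 : 3 ≤ Nat.find hex := by
      by_contra hlt
      have h1 : Nat.find hex ≤ 2 := by omega
      have h2 : (ad ^ 2) Y = 0 := by
        have h4 := Nat.find_spec hex
        rw [← Nat.sub_add_cancel h1, pow_add, Module.End.mul_apply, h4, map_zero]
      have h5 : ad (ad Y) = 0 := by
        rw [pow_two, Module.End.mul_apply] at h2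
        exact h2
      obtain ⟨c, hc⟩ := hker _ (hadm Y hY) (sub_eq_zero.1 h5)
      exact hYn c hc
    obtain ⟨k, hk⟩ : ∃ k, Nat.find hex = k + 3 := ⟨Nat.find hex - 3, by omega⟩
    have h1 : (ad ^ (k + 2)) Y ≠ 0 := Nat.find_min hex (by omega)
    have h2 : (ad ^ (k + 3)) Y = 0 := by rw [← hk]; exact Nat.find_spec hex
    have h4 : ad ((ad ^ (k + 2)) Y) = 0 := by
      rw [← Module.End.mul_apply, ← pow_succ']
      exact h2
    obtain ⟨c, hc⟩ := hker _ (hpm _ Y hY) (sub_eq_zero.1 h4)
    have hc0 : c ≠ 0 := by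
      rintro rfl
      exact h1 (by rw [hc, zero_smul])
    refine ⟨(-2 / c) • (ad ^ k) Y, 𝔰.smul_mem _ (hpm _ Y hY), ?_⟩
    have h6 : ad ^ (k + 2) = ad * (ad * ad ^ k) := by rw [← pow_succ', ← pow_succ']
    have h5 : ad (ad ((ad ^ k) Y)) = c • e := by
      rw [← hc, h6]
      rfl
    rw [map_smul, map_smul, h5, smul_smul, div_mul_cancel₀ _ hc0]
  obtain ⟨H, hH⟩ : ∃ H, H = ad F := ⟨_, rfl⟩
  have hHs : H ∈ 𝔰 := hH ▸ hadm F hF
  have heH : e * H - H * e = (-2 : K) • e := by
    rw [← hF2, ← hH]
    rfl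
  have heF : e * F - F * e = H := hH.symm
  obtain ⟨c, hc⟩ := hker (H * F - F * H + (2 : K) • F)
    (𝔰.add_mem (hbr H hHs F hF) (𝔰.smul_mem _ hF)) (by
      have h1 : e * H = H * e - (2 : K) • e := by
        rw [sub_eq_iff_eq_add] at heH
        rw [heH]
        module
      have h2 : e * F = F * e + H := by
        rw [sub_eq_iff_eq_add] at heF
        rw [heF]
        abel
      calc e * (H * F - F * H + (2 : K) • F)
          = (e * H) * F - (e * F) * H + (2 : K) • (e * F) := by
            rw [mul_add, mul_sub, mul_assoc, mul_assoc, mul_smul_comm]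
        _ = (H * e - (2 : K) • e) * F - (F * e + H) * H + (2 : K) • (F * e + H) := by
            rw [h1, h2]
        _ = H * (e * F) - (2 : K) • (e * F) - F * (e * H) - H * H + (2 : K) • (F * e + H) := by
            rw [sub_mul, add_mul, smul_mul_assoc, mul_assoc, mul_assoc]
            abel
        _ = H * (F * e + H) - (2 : K) • (F * e + H) - F * (H * e - (2 : K) • e) - H * H +
            (2 : K) • (F * e + H) := by rw [h1, h2]
        _ = (H * F - F * H + (2 : K) • F) * e := by
            rw [mul_add, mul_sub, mul_smul_comm, add_mul, sub_mul, smul_mul_assoc, mul_assoc,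
              mul_assoc]
            module)
  obtain ⟨f, hf⟩ : ∃ f, f = F - (c / 4) • e := ⟨_, rfl⟩
  have hfs : f ∈ 𝔰 := hf ▸ 𝔰.sub_mem hF (𝔰.smul_mem _ he)
  have hef : e * f - f * e = H := by
    rw [hf, mul_sub, sub_mul, mul_smul_comm, smul_mul_assoc, ← heF]
    abel
  have hHf : H * f - f * H = (-2 : K) • f := by
    have h1 : H * e - e * H = (2 : K) • e := by
      have h2 : H * e - e * H = -(e * H - H * e) := by abel
      rw [h2, heH]
      module
    have h2 : H * F - F * H = c • e - (2 : K) • F := by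
      rw [← hc]
      abel
    have h4 : H * f - f * H = (H * F - F * H) - (c / 4) • (H * e - e * H) := by
      rw [hf, mul_sub, sub_mul, mul_smul_comm, smul_mul_assoc, smul_sub]
      abel
    rw [h4, h2, h1, hf]
    module
  have aeH : ∀ x, e (H x) = H (e x) - (2 : K) • e x := fun x => by
    have h1 := congrArg (fun g : Module.End K V => g x) heH
    have h2 : e (H x) - H (e x) = (-2 : K) • e x := h1
    rw [sub_eq_iff_eq_add] at h2
    rw [h2]
    module
  have aef : ∀ x, f (e x) = e (f x) - H x := fun x => by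
    have h1 := congrArg (fun g : Module.End K V => g x) hef
    have h2 : e (f x) - f (e x) = H x := h1
    rw [← h2]
    abel
  have aHf : ∀ x, H (f x) = f (H x) - (2 : K) • f x := fun x => by
    have h1 := congrArg (fun g : Module.End K V => g x) hHf
    have h2 : H (f x) - f (H x) = (-2 : K) • f x := h1
    rw [sub_eq_iff_eq_add] at h2
    rw [h2]
    module
  -- the matrix of `H`
  have hkere : ∀ w, e w = 0 → ∃ a : K, w = a • b 0 := by
    intro w hw
    obtain ⟨x, y, z, hxyz⟩ := exp_three b w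
    rw [hxyz] at hw
    simp only [map_add, map_smul, e0, e1, e2, smul_zero, zero_add] at hw
    have hz : z = 0 := by
      have h5 := congrArg (fun w => b.repr w 1) hw
      simpa using h5
    have hy : y = 0 := by
      have h5 := congrArg (fun w => b.repr w 0) hw
      simpa using h5
    exact ⟨x, by rw [hxyz, hy, hz, zero_smul, zero_smul, add_zero, add_zero]⟩
  obtain ⟨l, hl⟩ := hkere (H (b 0)) (by rw [aeH, e0, map_zero, smul_zero, sub_zero])
  obtain ⟨p, hp⟩ := hkere (H (b 1) - (l - 2) • b 1) (by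
    rw [map_sub, map_smul, aeH, e1, hl]
    module)
  have hH1 : H (b 1) = p • b 0 + (l - 2) • b 1 := by
    rw [← hp]
    abel
  obtain ⟨q, hq⟩ := hkere (H (b 2) - p • b 1 - (l - 4) • b 2) (by
    rw [map_sub, map_sub, map_smul, map_smul, aeH, e1, e2, hH1]
    module)
  have hH2 : H (b 2) = q • b 0 + p • b 1 + (l - 4) • b 2 := by
    rw [← hq]
    abel
  have hl2 : l = 2 := by
    have h1 := trace_three b hl hH1 hH2
    rw [htr H hHs] at h1
    have h2 : (3 : K) * (l - 2) = 0 := by linear_combination -h1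
    exact sub_eq_zero.1 ((mul_eq_zero.1 h2).resolve_left (by norm_num))
  subst hl2
  obtain ⟨w, hw⟩ : ∃ w, w = b 2 + (-(p / 2)) • b 1 + (-((q - p * (p / 2)) / 4)) • b 0 := ⟨_, rfl⟩
  have hHw : H w = (-2 : K) • w := by
    rw [hw]
    simp only [map_add, map_smul, hl, hH1, hH2]
    module
  have hew : e w = b 1 + (-(p / 2)) • b 0 := by
    rw [hw]
    simp only [map_add, map_smul, e0, e1, e2, smul_zero, add_zero]
  have heew : e (e w) = b 0 := by
    rw [hew]
    simp only [map_add, map_smul, e0, e1, smul_zero, add_zero]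
  obtain ⟨b', hb0', hb1', hb2'⟩ := basis_cyc h3 he3 (v := w) (by rw [heew]; exact b.ne_zero 0)
  have e0' : e (b' 0) = 0 := by rw [hb0', h0]
  have e1' : e (b' 1) = b' 0 := by rw [hb1', hb0']
  have e2' : e (b' 2) = b' 1 := by rw [hb2', hb1']
  have H2 : H (b' 2) = (-2 : K) • b' 2 := by rw [hb2', hHw]
  have H1 : H (b' 1) = 0 := by
    have h1 := aeH (b' 2)
    rw [H2, map_smul, e2'] at h1
    have h2 : H (b' 1) = (-2 : K) • b' 1 + (2 : K) • b' 1 := by rw [h1]; abel
    rw [h2]
    module
  have H0 : H (b' 0) = (2 : K) • b' 0 := by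
    have h1 := aeH (b' 1)
    rw [H1, map_zero, e1'] at h1
    exact (sub_eq_zero.1 h1.symm)
  have F2 : f (b' 2) = 0 := by
    have h1 := aHf (b' 2)
    rw [H2, map_smul] at h1
    obtain ⟨x, y, z, hxyz⟩ := exp_three b' (f (b' 2))
    rw [hxyz] at h1
    simp only [map_add, map_smul, H0, H1, H2, smul_zero, add_zero] at h1
    have hx : x = 0 := by
      have h5 := congrArg (fun w => b'.repr w 0) h1
      simp at h5
      have h6 : (6 : K) * x = 0 := by linear_combination h5
      exact (mul_eq_zero.1 h6).resolve_left (by norm_num)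
    have hy : y = 0 := by
      have h5 := congrArg (fun w => b'.repr w 1) h1
      simp at h5
      have h6 : (4 : K) * y = 0 := by linear_combination h5
      exact (mul_eq_zero.1 h6).resolve_left (by norm_num)
    have hz : z = 0 := by
      have h5 := congrArg (fun w => b'.repr w 2) h1
      simp at h5
      have h6 : (2 : K) * z = 0 := by linear_combination h5
      exact (mul_eq_zero.1 h6).resolve_left (by norm_num)
    rw [hxyz, hx, hy, hz, zero_smul, zero_smul, zero_smul, add_zero, add_zero]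
  have F1 : f (b' 1) = (2 : K) • b' 2 := by
    have h1 := aef (b' 2)
    rw [F2, map_zero, H2, e2'] at h1
    rw [h1]
    module
  have F0 : f (b' 0) = (2 : K) • b' 1 := by
    have h1 := aef (b' 1)
    rw [F1, map_smul, H1, e1', e2'] at h1
    rw [h1, sub_zero]
  exact ⟨b', H, f, hHs, hfs, e0', e1', e2', H0, H1, H2, F0, F1, F2⟩

end

end Pool.Agent.W5h27.UN
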