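import Mathlib

/-!
# Dimension three: a Lie algebra of operators which is the principal `sl₂` preserves a form
-/

set_option autoImplicit false

namespace Pool.Agent.W5h27.UN

open Module

section three

variable {K : Type} [Field K]

/-- A matrix in the irreducible part of dimension five. -/
def mz3 (p q s t u : K) : Matrix (Fin 3) (Fin 3) K :=
  !![p, q, s; t, -2 * p, -q; u, -t, p]

/-- The nilpotent matrix. -/
def me3 : Matrix (Fin 3) (Fin 3) K := !![0, 1, 0; 0, 0, 1; 0, 0, 0]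

/-- The diagonal matrix. -/
def mh3 : Matrix (Fin 3) (Fin 3) K := !![2, 0, 0; 0, 0, 0; 0, 0, -2]

/-- The lower nilpotent matrix. -/
def mf3 : Matrix (Fin 3) (Fin 3) K := !![0, 0, 0; 2, 0, 0; 0, 2, 0]

theorem mz3_ad (p q s t u : K) :
    me3 * mz3 p q s t u - mz3 p q s t u * me3 = mz3 t (-3 * p) (-2 * q) u 0 := by
  ext i j
  fin_cases i <;> fin_cases j <;>
    simp [me3, mz3, Matrix.mul_apply, Fin.sum_univ_three] <;> ring

theorem mz3_last (a : K) : mz3 0 0 a 0 0 = a • (me3 * me3) := by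
  ext i j
  fin_cases i <;> fin_cases j <;>
    simp [me3, mz3, Matrix.mul_apply, Fin.sum_univ_three]

theorem mz3_mem [CharZero K] {𝔪 : Submodule K (Matrix (Fin 3) (Fin 3) K)}
    (hbr : ∀ X ∈ 𝔪, me3 * X - X * me3 ∈ 𝔪) (hee : me3 * me3 ∉ 𝔪) {p q s t u : K}
    (h : mz3 p q s t u ∈ 𝔪) : mz3 p q s t u = 0 := by
  have key : ∀ a : K, mz3 0 0 a 0 0 ∈ 𝔪 → a = 0 := by
    intro a ha
    by_contra hne
    rw [mz3_last] at ha
    apply hee
    have h1 := 𝔪.smul_mem a⁻¹ ha
    rwa [smul_smul, inv_mul_cancel₀ hne, one_smul] at h1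
  have had : ∀ p q s t u : K, mz3 p q s t u ∈ 𝔪 → mz3 t (-3 * p) (-2 * q) u 0 ∈ 𝔪 := by
    intro p q s t u h
    rw [← mz3_ad p q s t u]
    exact hbr _ h
  have hu : u = 0 := by
    have h1 := had _ _ _ _ _ (had _ _ _ _ _ (had _ _ _ _ _ (had _ _ _ _ _ h)))
    have h2 := key _ (by simpa using h1)
    simpa using h2
  subst hu
  have ht : t = 0 := by
    have h1 := had _ _ _ _ _ (had _ _ _ _ _ (had _ _ _ _ _ h))
    have h2 := key _ (by simpa using h1)
    simpa using h2
  subst ht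
  have hp : p = 0 := by
    have h1 := had _ _ _ _ _ (had _ _ _ _ _ h)
    have h2 := key _ (by simpa using h1)
    simpa using h2
  subst hp
  have hq : q = 0 := by
    have h1 := had _ _ _ _ _ h
    have h2 := key _ (by simpa using h1)
    simpa using h2
  subst hq
  have hs : s = 0 := key _ h
  subst hs
  rw [mz3_last, zero_smul]

end three

theorem three_span {K : Type} [Field K] [CharZero K] {V : Type} [AddCommGroup V] [Module K V]
    (𝔰 : Submodule K (Module.End K V)) (hbr : ∀ X ∈ 𝔰, ∀ Y ∈ 𝔰, X * Y - Y * X ∈ 𝔰)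
    (htr : ∀ X ∈ 𝔰, LinearMap.trace K V X = 0) (b : Module.Basis (Fin 3) K V)
    (e h f : Module.End K V) (he : e ∈ 𝔰) (hh : h ∈ 𝔰) (hf : f ∈ 𝔰) (e0 : e (b 0) = 0)
    (e1 : e (b 1) = b 0) (e2 : e (b 2) = b 1) (h0 : h (b 0) = (2 : K) • b 0) (h1 : h (b 1) = 0)
    (h2 : h (b 2) = (-2 : K) • b 2) (f0 : f (b 0) = (2 : K) • b 1) (f1 : f (b 1) = (2 : K) • b 2)
    (f2 : f (b 2) = 0) (hee : e * e ∉ 𝔰) {y : Module.End K V} (hy : y ∈ 𝔰) :
    ∃ α β γ : K, y = α • e + β • h + γ • f := by
  set T := LinearMap.toMatrixAlgEquiv b with hT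
  have hTe : T e = me3 := by
    ext i j
    rw [hT, LinearMap.toMatrixAlgEquiv_apply]
    fin_cases i <;> fin_cases j <;> simp [me3, e0, e1, e2]
  have hTh : T h = mh3 := by
    ext i j
    rw [hT, LinearMap.toMatrixAlgEquiv_apply]
    fin_cases i <;> fin_cases j <;> simp [mh3, h0, h1, h2]
  have hTf : T f = mf3 := by
    ext i j
    rw [hT, LinearMap.toMatrixAlgEquiv_apply]
    fin_cases i <;> fin_cases j <;> simp [mf3, f0, f1, f2]
  set Y := T y with hY
  have hYtr : Y 0 0 + Y 1 1 + Y 2 2 = 0 := by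
    have h3 := htr y hy
    rw [LinearMap.trace_eq_matrix_trace K b y, Matrix.trace_fin_three] at h3
    exact h3
  refine ⟨(Y 0 1 + Y 1 2) / 2, (Y 0 0 - Y 2 2) / 4, (Y 1 0 + Y 2 1) / 4, ?_⟩
  set α := (Y 0 1 + Y 1 2) / 2 with hα
  set β := (Y 0 0 - Y 2 2) / 4 with hβ
  set γ := (Y 1 0 + Y 2 1) / 4 with hγ
  have hz : T (y - (α • e + β • h + γ • f)) = mz3 ((Y 0 0 + Y 2 2) / 2) ((Y 0 1 - Y 1 2) / 2)
      (Y 0 2) ((Y 1 0 - Y 2 1) / 2) (Y 2 0) := by
    rw [map_sub, map_add, map_add, map_smul, map_smul, map_smul, hTe, hTh, hTf, ← hY]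
    have h11 : Y 1 1 = -(Y 0 0 + Y 2 2) := by linear_combination hYtr
    ext i j
    fin_cases i <;> fin_cases j <;>
      simp [me3, mh3, mf3, mz3, hα, hβ, hγ, h11] <;> ring
  set 𝔪 : Submodule K (Matrix (Fin 3) (Fin 3) K) := 𝔰.map T.toLinearMap with h𝔪
  have hmem : ∀ X : Module.End K V, T X ∈ 𝔪 ↔ X ∈ 𝔰 := by
    intro X
    constructor
    · rintro ⟨X', hX', h3⟩
      have h4 : X' = X := T.injective h3
      rwa [← h4]
    · exact fun hX => ⟨X, hX, rfl⟩
  have h3 : T (y - (α • e + β • h + γ • f)) = 0 := by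
    rw [hz]
    refine mz3_mem (𝔪 := 𝔪) ?_ ?_ ?_
    · rintro - ⟨X, hX, rfl⟩
      change me3 * T X - T X * me3 ∈ 𝔪
      rw [← hTe, ← map_mul, ← map_mul, ← map_sub, hmem]
      exact hbr e he X hX
    · rw [← hTe, ← map_mul, hmem]
      exact hee
    · rw [← hz, hmem]
      exact 𝔰.sub_mem hy (𝔰.add_mem (𝔰.add_mem (𝔰.smul_mem _ he) (𝔰.smul_mem _ hh))
        (𝔰.smul_mem _ hf))
  have h4 : y - (α • e + β • h + γ • f) = 0 := by
    apply T.injective
    rw [h3, map_zero]
  exact sub_eq_zero.1 h4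

/-- The invariant form. -/
noncomputable def q3 {K : Type} [Field K] {V : Type} [AddCommGroup V] [Module K V]
    (b : Module.Basis (Fin 3) K V) : V →ₗ[K] V →ₗ[K] K :=
  LinearMap.mk₂ K (fun u w => b.coord 0 u * b.coord 2 w - b.coord 1 u * b.coord 1 w +
      b.coord 2 u * b.coord 0 w)
    (fun u u' w => by simp only [map_add]; ring)
    (fun c u w => by simp only [map_smul, smul_eq_mul]; ring)
    (fun u w w' => by simp only [map_add]; ring)
    (fun c u w => by simp only [map_smul, smul_eq_mul]; ring)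

theorem q3_apply {K : Type} [Field K] {V : Type} [AddCommGroup V] [Module K V]
    (b : Module.Basis (Fin 3) K V) (u w : V) : q3 b u w =
      b.coord 0 u * b.coord 2 w - b.coord 1 u * b.coord 1 w + b.coord 2 u * b.coord 0 w := rfl

theorem three_c {K : Type} [Field K] [CharZero K] {V : Type} [AddCommGroup V] [Module K V]
    {G : Type} [Group G] (r : Representation K G V) (𝔰 : Submodule K (Module.End K V))
    (hbr : ∀ X ∈ 𝔰, ∀ Y ∈ 𝔰, X * Y - Y * X ∈ 𝔰)
    (hconj : ∀ s : G, ∀ X ∈ 𝔰, r s * X * r s⁻¹ ∈ 𝔰)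
    (htr : ∀ X ∈ 𝔰, LinearMap.trace K V X = 0) (b : Module.Basis (Fin 3) K V)
    (e h f : Module.End K V) (he : e ∈ 𝔰) (hh : h ∈ 𝔰) (hf : f ∈ 𝔰) (e0 : e (b 0) = 0)
    (e1 : e (b 1) = b 0) (e2 : e (b 2) = b 1) (h0 : h (b 0) = (2 : K) • b 0) (h1 : h (b 1) = 0)
    (h2 : h (b 2) = (-2 : K) • b 2) (f0 : f (b 0) = (2 : K) • b 1) (f1 : f (b 1) = (2 : K) • b 2)
    (f2 : f (b 2) = 0) (hee : e * e ∉ 𝔰) :
    ∃ (Q : V →ₗ[K] V →ₗ[K] K) (ψ : G → K), (∀ u, (∀ w, Q u w = 0) → u = 0) ∧
      ∀ g u w, Q (r g u) (r g w) = ψ g * Q u w := by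
  -- skewness for the three operators
  have hskew3 : ∀ X : Module.End K V, (∀ i j, q3 b (X (b i)) (b j) + q3 b (b i) (X (b j)) = 0) →
      ∀ u w, q3 b (X u) w + q3 b u (X w) = 0 := by
    intro X hX u w
    have h3 : (q3 b).comp X + (q3 b).compl₂ X = 0 := by
      refine b.ext fun i => b.ext fun j => ?_
      exact hX i j
    have h4 := congrArg (fun F : V →ₗ[K] V →ₗ[K] K => F u w) h3
    exact h4
  have hQe := hskew3 e (fun i j => by
    fin_cases i <;> fin_cases j <;> simp [q3_apply, e0, e1, e2])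
  have hQh := hskew3 h (fun i j => by
    fin_cases i <;> fin_cases j <;> simp [q3_apply, h0, h1, h2])
  have hQf := hskew3 f (fun i j => by
    fin_cases i <;> fin_cases j <;> simp [q3_apply, f0, f1, f2])
  have hskew : ∀ X ∈ 𝔰, ∀ u w, q3 b (X u) w + q3 b u (X w) = 0 := by
    intro X hX u w
    obtain ⟨α, β, γ, rfl⟩ := three_span 𝔰 hbr htr b e h f he hh hf e0 e1 e2 h0 h1 h2 f0 f1 f2 hee hX
    simp only [LinearMap.add_apply, LinearMap.smul_apply, map_add, map_smul, smul_eq_mul]
    linear_combination α * hQe u w + β * hQh u w + γ * hQf u w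
  refine ⟨q3 b, fun g => q3 b (r g (b 0)) (r g (b 2)), fun u hu => ?_, fun g u w => ?_⟩
  · have hu2 := hu (b 2)
    have hu1 := hu (b 1)
    have hu0 := hu (b 0)
    simp [q3_apply] at hu2 hu1 hu0
    apply b.ext_elem
    intro i
    fin_cases i
    · simpa using hu2
    · simpa using hu1
    · simpa using hu0
  · -- the transported form
    have hB : ∀ X ∈ 𝔰, ∀ u w, q3 b (r g (X u)) (r g w) + q3 b (r g u) (r g (X w)) = 0 := by
      intro X hX u w
      have h3 := hskew _ (hconj g X hX) (r g u) (r g w)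
      have h4 : ∀ v, (r g * X * r g⁻¹) (r g v) = r g (X v) := by
        intro v
        rw [Module.End.mul_apply, Module.End.mul_apply, ← Module.End.mul_apply (r g⁻¹),
          ← map_mul, inv_mul_cancel, map_one, Module.End.one_apply]
      rwa [h4, h4] at h3
    have hBe := hB e he
    have hBh := hB h hh
    set B : Fin 3 → Fin 3 → K := fun i j => q3 b (r g (b i)) (r g (b j)) with hBdef
    have c00 : B 0 0 = 0 := by
      have h3 := hBh (b 0) (b 0)
      rw [h0] at h3
      simp only [map_smul, LinearMap.smul_apply, smul_eq_mul] at h3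
      have h4 : (4 : K) * B 0 0 = 0 := by
        simp only [hBdef]
        linear_combination h3
      simpa using h4
    have c01 : B 0 1 = 0 := by
      have h3 := hBh (b 0) (b 1)
      rw [h0, h1] at h3
      simp only [map_smul, LinearMap.smul_apply, smul_eq_mul, map_zero, add_zero] at h3
      simpa [hBdef] using h3
    have c10 : B 1 0 = 0 := by
      have h3 := hBh (b 1) (b 0)
      rw [h0, h1] at h3
      simp only [map_smul, smul_eq_mul, map_zero, LinearMap.zero_apply, zero_add] at h3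
      simpa [hBdef] using h3
    have c12 : B 1 2 = 0 := by
      have h3 := hBh (b 1) (b 2)
      rw [h1, h2] at h3
      simp only [map_smul, smul_eq_mul, map_zero, LinearMap.zero_apply, zero_add] at h3
      simpa [hBdef] using h3
    have c21 : B 2 1 = 0 := by
      have h3 := hBh (b 2) (b 1)
      rw [h1, h2] at h3
      simp only [map_smul, LinearMap.smul_apply, smul_eq_mul, map_zero, add_zero] at h3
      simpa [hBdef] using h3
    have c22 : B 2 2 = 0 := by
      have h3 := hBh (b 2) (b 2)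
      rw [h2] at h3
      simp only [map_smul, LinearMap.smul_apply, smul_eq_mul] at h3
      have h4 : (4 : K) * B 2 2 = 0 := by
        simp only [hBdef]
        linear_combination -h3
      simpa using h4
    have c11 : B 1 1 = -B 0 2 := by
      have h3 := hBe (b 1) (b 2)
      rw [e1, e2] at h3
      simp only [hBdef]
      linear_combination h3
    have c20 : B 2 0 = B 0 2 := by
      have h3 := hBe (b 2) (b 1)
      rw [e1, e2] at h3
      have h4 : B 1 1 + B 2 0 = 0 := h3
      rw [c11] at h4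
      linear_combination h4
    have hfin : (q3 b).compl₁₂ (r g) (r g) = (B 0 2) • q3 b := by
      refine b.ext fun i => b.ext fun j => ?_
      change B i j = B 0 2 * q3 b (b i) (b j)
      fin_cases i <;> fin_cases j <;>
        simp [q3_apply, c00, c01, c10, c12, c21, c22, c11, c20]
    exact congrArg (fun F : V →ₗ[K] V →ₗ[K] K => F u w) hfin

end Pool.Agent.W5h27.UN
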