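import Mathlib
import Pool.Agent.W5h27.UN.Main
import Pool.Agent.W5h27.UN.ThreeA
import Pool.Agent.W5h27.UN.ThreeB
import Pool.Agent.W5h27.UN.ThreeC

/-!
# Parts of dimension three which are not self-dual
-/

set_option autoImplicit false
set_option linter.unusedSectionVars false

namespace Pool.Agent.W5h27.UN

open Module Pool.Agent.H204R3.SP Pool.Agent.H204R3.GP Pool.Agent.W522.U Pool.Agent.TH118.WC
open Pool.Agent.TH118.CR Pool.Agent.TH118.CU Pool.Agent.W529.Ta Pool.Agent.W528.Odd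
open Pool.Agent.W5h27.BR

/-- In dimension three an irreducible Lie algebra without operators of rank one and square zero has an
invariant form. -/
theorem form_of_three {K : Type} [Field K] [CharZero K] [IsAlgClosed K] {V : Type} [AddCommGroup V]
    [Module K V] [FiniteDimensional K V] (h3 : finrank K V = 3) {G : Type} [Group G]
    (r : Representation K G V) (hirr : Irr r) (𝔥 : Submodule K (Module.End K V))
    (hbr : ∀ X ∈ 𝔥, ∀ Y ∈ 𝔥, X * Y - Y * X ∈ 𝔥)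
    (hconj : ∀ s : G, ∀ X ∈ 𝔥, r s * X * r s⁻¹ ∈ 𝔥)
    (hns : ∃ Y ∈ 𝔥, ¬∃ a : K, ∀ u, Y u = a • u)
    (hno : ¬∃ (u : V) (ψ : Dual K V), u ≠ 0 ∧ ψ ≠ 0 ∧ ψ u = 0 ∧
      (ψ.smulRight u : Module.End K V) ∈ 𝔥) :
    ∃ (Q : V →ₗ[K] V →ₗ[K] K) (ψ : G → K), (∀ u, (∀ w, Q u w = 0) → u = 0) ∧
      ∀ g u w, Q (r g u) (r g w) = ψ g * Q u w := by
  obtain ⟨𝔰, hle, hbr', hconj', htr, hce, e, he, he2, he3⟩ :=
    three_a h3 r hirr 𝔥 hbr hconj hns hno
  have hee : e * e ∉ 𝔰 := fun h => sq_notMem h3 𝔥 hno he2 he3 (hle h)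
  obtain ⟨b, h, f, hh, hf, e0, e1, e2, h0, h1, h2, f0, f1, f2⟩ :=
    three_b h3 𝔰 hbr' htr hce he he2 he3 hee
  exact three_c r 𝔰 hbr' hconj' htr b e h f he hh hf e0 e1 e2 h0 h1 h2 f0 f1 f2 hee

variable {K : Type} [Field K] [CharZero K] {X : Type} [AddCommGroup X]
  [Module K X] [FiniteDimensional K X] {Γ : Type} [Group Γ] {R : Representation K Γ X}
  {χ : Γ →* K}

section main

variable [IsAlgClosed K] (ω : X →ₗ[K] X →ₗ[K] K) (halt : ∀ v, ω v v = 0)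
  (hnd : ∀ u, (∀ v, ω u v = 0) → u = 0)
  (hωR : ∀ g u v, ω (R g u) (R g v) = χ g * ω u v) (hss : HasProj R)
  (htw : ∀ U U', SI R U → SI R U' → 2 ≤ finrank K U → ¬Du R χ U U → ∀ ψ : Γ → K, Tw R ψ U U' →
    Tw R (fun _ => 1) U U')

include halt hnd hωR hss htw in
/-- The Lie algebra contains an operator which has rank one and square zero on `U`. -/
theorem one_all3 {U : Submodule K X} (hU : SI R U) (h2 : 2 ≤ finrank K U)
    (hns0 : ∃ Y ∈ lieT R χ, ¬∃ a : K, ∀ u ∈ U, Y u = a • u)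
    (hr : (finrank K U = 3 ∧ ¬Du R χ U U) ∨ HasElt R χ ω U) :
    ∃ (u : U) (ψ : Dual K U), u ≠ 0 ∧ ψ ≠ 0 ∧ ψ u = 0 ∧
      (ψ.smulRight u : Module.End K U) ∈ img (lieT R χ) U := by
  rcases hr with ⟨h3, hdu⟩ | hr
  · by_contra hno
    obtain ⟨hbr, hconj, hirr, hns⟩ := img_data ω hnd hωR hss hU
    obtain ⟨Q, ψ, hQ, hQψ⟩ := form_of_three h3 (resR R (stb R U) U (stb_st R U)) hirr
      (img (lieT R χ) U) hbr hconj (hns hns0) hno
    obtain ⟨D, hD, hDU⟩ := id hU.2.1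
    have hΔ : (stb R U).FiniteIndex :=
      Subgroup.finiteIndex_of_le (H := D) (fun g hg => hDU g hg)
    exact no_form ω hnd hωR hss hU hdu (fun U' hU' ψ hψ => htw U U' hU hU' h2 hdu ψ hψ) hΔ
      (stb_st R U) Q hQ ψ hQψ
  · exact one_all2 ω halt hnd hωR hss htw hU h2 hns0 hr

variable {I : Type} {E : I → Submodule K X}

include halt hnd hωR hss htw in
/-- **Square-zero elements of rank one.** -/
theorem one_pt3 (hE : ∀ i, SI R (E i)) (hEs : ⨆ i, E i = ⊤)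
    (hns : ∀ i, 2 ≤ finrank K (E i) → ∃ Y ∈ lieT R χ, ¬∃ a : K, ∀ u ∈ E i, Y u = a • u)
    (hr : ∀ i, 2 ≤ finrank K (E i) → (finrank K (E i) = 3 ∧ ¬Du R χ (E i) (E i)) ∨
      HasElt R χ ω (E i)) {U : Submodule K X}
    (hU : SI R U) (h2 : 2 ≤ finrank K U) :
    ∃ e ∈ lieT R χ, e * e = 0 ∧ finrank K (U.map e) = 1 := by
  have hst : ∀ j, ∀ Y ∈ lieT R χ, ∀ u ∈ E j, Y u ∈ E j := fun j Y hY =>
    lieT_stable ω hnd hωR hss (hE j).2.1 hY
  obtain ⟨i, hi⟩ := exists_isoU hss hE hEs hU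
  have hdim : finrank K U = finrank K (E i) := by
    obtain ⟨Δ, hΔ, T, hTU, h0, hT⟩ := hi
    obtain ⟨e, -⟩ := tw_equiv hU (hE i) hΔ hTU h0 hT
    exact e.finrank_eq
  obtain ⟨N, hN, hN2, hN1⟩ := exists_rank_one (E := E) (L := lieT R χ) hst
    (fun Y hY Z hZ => lieT_bracket R χ hY hZ) (fun j hj => by
      obtain ⟨hbr, hconj, hirr, -⟩ := img_data ω hnd hωR hss (hE j)
      exact exists_core _ hirr _ hbr hconj
        (one_all3 ω halt hnd hωR hss htw (hE j) hj (hns j hj) (hr j hj))) hEs i (hdim ▸ h2)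
  refine ⟨N, hN, hN2, ?_⟩
  rw [← rank_transfer ω hnd hωR hss hU (hE i) hi hN]
  exact hN1

end main

end Pool.Agent.W5h27.UN
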